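import Mathlib

/-!
MODULE Pfc0641.Hopf  (MP_fc0641_gt).   Estimated 1.2 h.

Four standard facts on free groups of finite rank.

* `hopfian`: route: (1) free groups are residually finite in the form: for `w ≠ 1` in
  `FreeGroup α` there are a finite type `X` and a homomorphism `FreeGroup α →* Equiv.Perm X` with
  `ψ w ≠ 1` (take the reduced word `w = s_1 ... s_k`, `X = Fin (k+1)`; for each generator `x` the
  partial injection `i ↦ i+1` or `i+1 ↦ i` on the steps of `w` labelled by `x^{±1}` is well defined
  and injective because the word is reduced; extend it to a permutation of `X`, e.g. with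
  `Equiv.extendSubtype` or `Function.Embedding` / `Finite` tools; then `ψ w` moves one end of the
  interval to the other end).  (2) `Hom(FreeGroup (Fin n), Perm X) = (Fin n → Perm X)` is finite,
  precomposition with the surjection `f` is injective on it, hence surjective; so `ψ = ψ' ∘ f`
  and `f w = 1` gives `ψ w = 1`.
* `rank_le_of_surj`: compose with `FreeGroup (Fin m) → Multiplicative (Fin m →₀ ZMod 2)` or count
  homomorphisms to a group of order 2: `2^m ≤ 2^n`.
* `rank_eq`: from the previous one.
* `range_free`: Nielsen-Schreier is in Mathlib (`subgroupIsFreeOfIsFree`, `IsFreeGroup`); the set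
  of free generators is finite because `FreeGroup α` is finitely generated: if
  `FreeGroup α →* FreeGroup X` is onto, `α` finite, then `X` is finite (count homomorphisms to
  `Multiplicative (ZMod 2)`: injection `(X → ZMod 2) → (α → ZMod 2)`).
-/

namespace Pool.Agent.Pfc0641

lemma hopf_adj {α : Type*} {L : List (α × Bool)} (hL : FreeGroup.IsReduced L) {j j' : Fin L.length}
    (hj : (j : ℕ) + 1 = j') (x : α) (b : Bool) (h : L.get j = (x, b)) (h' : L.get j' = (x, !b)) :
    False := by
  unfold FreeGroup.IsReduced at hL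
  rw [List.isChain_iff_getElem] at hL
  have h1 := hL j (by omega)
  simp only [List.get_eq_getElem] at h h'
  have h2 : L[(j : ℕ) + 1] = L[(j' : ℕ)] := by
    congr 1
  rw [h2, h, h'] at h1
  simpa using h1 rfl

/-- The partial permutation attached to a generator and a word. -/
def hopfRel {α : Type*} (L : List (α × Bool)) (x : α) (i i' : Fin (L.length + 1)) : Prop :=
  (∃ j : Fin L.length, L.get j = (x, true) ∧ i = j.succ ∧ i' = j.castSucc) ∨
  (∃ j : Fin L.length, L.get j = (x, false) ∧ i = j.castSucc ∧ i' = j.succ)

lemma hopfRel_inj {α : Type*} {L : List (α × Bool)} (hL : FreeGroup.IsReduced L) {x : α}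
    {i i' t : Fin (L.length + 1)} (h : hopfRel L x i t) (h' : hopfRel L x i' t) : i = i' := by
  rcases h with ⟨j, hj, rfl, rfl⟩ | ⟨j, hj, rfl, rfl⟩ <;>
    rcases h' with ⟨j', hj', rfl, h2⟩ | ⟨j', hj', rfl, h2⟩
  · rw [Fin.castSucc_inj] at h2
    rw [h2]
  · exfalso
    have h3 : (j : ℕ) = (j' : ℕ) + 1 := by
      have := congrArg Fin.val h2
      simpa using this
    exact hopf_adj hL h3.symm x false hj' hj
  · exfalso
    have h3 : (j' : ℕ) = (j : ℕ) + 1 := by
      have := congrArg Fin.val h2
      simpa using this.symm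
    exact hopf_adj hL h3.symm x false hj hj'
  · rw [Fin.succ_inj] at h2
    rw [h2]

lemma hopfRel_fun {α : Type*} {L : List (α × Bool)} (hL : FreeGroup.IsReduced L) {x : α}
    {i t t' : Fin (L.length + 1)} (h : hopfRel L x i t) (h' : hopfRel L x i t') : t = t' := by
  rcases h with ⟨j, hj, rfl, rfl⟩ | ⟨j, hj, rfl, rfl⟩ <;>
    rcases h' with ⟨j', hj', h2, rfl⟩ | ⟨j', hj', h2, rfl⟩
  · rw [Fin.succ_inj] at h2
    rw [h2]
  · exfalso
    have h3 : (j' : ℕ) = (j : ℕ) + 1 := by
      have := congrArg Fin.val h2
      simpa using this.symm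
    exact hopf_adj hL h3.symm x true hj hj'
  · exfalso
    have h3 : (j : ℕ) = (j' : ℕ) + 1 := by
      have := congrArg Fin.val h2
      simpa using this
    exact hopf_adj hL h3.symm x true hj' hj
  · rw [Fin.castSucc_inj] at h2
    rw [h2]

lemma hopf_perm {α : Type*} {L : List (α × Bool)} (hL : FreeGroup.IsReduced L) (x : α) :
    ∃ π : Equiv.Perm (Fin (L.length + 1)), ∀ i t, hopfRel L x i t → π i = t := by
  classical
  let D : Finset (Fin (L.length + 1)) := Finset.univ.filter (fun i => ∃ t, hopfRel L x i t)
  let f : Fin (L.length + 1) → Fin (L.length + 1) :=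
    fun i => if h : ∃ t, hopfRel L x i t then Classical.choose h else i
  have hf : ∀ i t, hopfRel L x i t → f i = t := by
    intro i t h
    have hex : ∃ t, hopfRel L x i t := ⟨t, h⟩
    have h1 : f i = Classical.choose hex := dif_pos hex
    rw [h1]
    exact hopfRel_fun hL (Classical.choose_spec hex) h
  have hinj : Set.InjOn f D := by
    intro i hi i' hi' h
    obtain ⟨t, ht⟩ := (Finset.mem_filter.mp (Finset.mem_coe.mp hi)).2
    obtain ⟨t', ht'⟩ := (Finset.mem_filter.mp (Finset.mem_coe.mp hi')).2
    rw [hf i t ht, hf i' t' ht'] at h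
    subst h
    exact hopfRel_inj hL ht ht'
  obtain ⟨g, hg⟩ := Finset.exists_equiv_extend_of_card_eq (t := Finset.univ)
    (α := Fin (L.length + 1)) (β := Fin (L.length + 1)) (s := D) (f := f)
    (by rw [Finset.card_univ]) (Finset.subset_univ _) hinj
  refine ⟨g.trans (Equiv.subtypeUnivEquiv (fun x => Finset.mem_univ x)), fun i t h => ?_⟩
  have hi : i ∈ D := Finset.mem_filter.mpr ⟨Finset.mem_univ _, t, h⟩
  have h1 := hg i hi
  rw [hf i t h] at h1
  simpa using h1

lemma hopf_rf {α : Type*} [DecidableEq α] (w : FreeGroup α) (hw : w ≠ 1) :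
    ∃ (k : ℕ) (ψ : FreeGroup α →* Equiv.Perm (Fin (k + 1))), ψ w ≠ 1 := by
  classical
  set L := w.toWord with hLdef
  have hL : FreeGroup.IsReduced L := FreeGroup.isReduced_toWord
  choose π hπ using fun x => hopf_perm hL x
  refine ⟨L.length, FreeGroup.lift π, fun h => ?_⟩
  have hLne : L ≠ [] := by
    intro h0
    apply hw
    rwa [hLdef, FreeGroup.toWord_eq_nil_iff] at h0
  have hlen : 0 < L.length := List.length_pos_of_ne_nil hLne
  have key : ∀ d : ℕ, ∀ j : ℕ, (hj : j + d = L.length) →
      (((L.drop j).map (fun s => cond s.2 (π s.1) (π s.1)⁻¹)).prod) (Fin.last L.length) =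
        ⟨j, by omega⟩ := by
    intro d
    induction d with
    | zero =>
      intro j hj
      have : L.drop j = [] := List.drop_eq_nil_of_le (by omega)
      rw [this]
      simp only [List.map_nil, List.prod_nil, Equiv.Perm.coe_one, id_eq]
      ext
      simp
      omega
    | succ d ih =>
      intro j hj
      have hjl : j < L.length := by omega
      rw [List.drop_eq_getElem_cons hjl, List.map_cons, List.prod_cons, Equiv.Perm.mul_apply,
        ih (j + 1) (by omega)]
      rcases hs : L[j] with ⟨x, b⟩
      cases b with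
      | true =>
        simp only [cond_true]
        exact hπ x _ _ (Or.inl ⟨⟨j, hjl⟩, hs, rfl, rfl⟩)
      | false =>
        simp only [cond_false]
        rw [Equiv.Perm.inv_eq_iff_eq]
        exact (hπ x _ _ (Or.inr ⟨⟨j, hjl⟩, hs, rfl, rfl⟩)).symm
  have h1 := key L.length 0 (by omega)
  have h2 : FreeGroup.lift π w = ((L.map (fun s => cond s.2 (π s.1) (π s.1)⁻¹)).prod) := by
    conv_lhs => rw [← FreeGroup.mk_toWord (x := w)]
    rw [FreeGroup.lift_mk]
  rw [List.drop_zero, ← h2, h] at h1
  rw [Equiv.Perm.one_apply] at h1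
  have h3 : L.length = 0 := by
    have h4 := congrArg Fin.val h1
    rwa [Fin.val_last] at h4
  omega

theorem hopfian {n : ℕ} (f : FreeGroup (Fin n) →* FreeGroup (Fin n))
    (hf : Function.Surjective f) : Function.Injective f := by
  rw [injective_iff_map_eq_one]
  intro w hw
  by_contra hne
  obtain ⟨k, ψ, hψ⟩ := hopf_rf w hne
  have hfin : Finite (FreeGroup (Fin n) →* Equiv.Perm (Fin (k + 1))) :=
    Finite.of_equiv _ (FreeGroup.lift (α := Fin n) (β := Equiv.Perm (Fin (k + 1))))
  have hinj : Function.Injective
      (fun φ : FreeGroup (Fin n) →* Equiv.Perm (Fin (k + 1)) => φ.comp f) := by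
    intro φ φ' h
    exact (MonoidHom.cancel_right hf).mp h
  have hsurj := Finite.surjective_of_injective hinj
  obtain ⟨φ, hφ⟩ := hsurj ψ
  apply hψ
  have := congrArg (fun θ : FreeGroup (Fin n) →* Equiv.Perm (Fin (k + 1)) => θ w) hφ
  simp only [MonoidHom.comp_apply, hw, map_one] at this
  exact this.symm

lemma hopf_homs {α β : Type} [Finite α] (f : FreeGroup α →* FreeGroup β)
    (hf : Function.Surjective f) :
    Function.Injective (fun φ : β → Multiplicative (ZMod 2) =>
      (FreeGroup.lift.symm ((FreeGroup.lift φ).comp f) : α → Multiplicative (ZMod 2))) := by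
  intro φ φ' h
  have h1 := FreeGroup.lift.symm.injective h
  have h2 := (MonoidHom.cancel_right hf).mp h1
  exact FreeGroup.lift.injective h2

theorem rank_le_of_surj {n m : ℕ} (f : FreeGroup (Fin n) →* FreeGroup (Fin m))
    (hf : Function.Surjective f) : m ≤ n := by
  have h := Nat.card_le_card_of_injective _ (hopf_homs f hf)
  rw [Nat.card_fun, Nat.card_fun] at h
  simp only [Nat.card_eq_fintype_card, Fintype.card_fin, Fintype.card_multiplicative,
    ZMod.card] at h
  exact (Nat.pow_le_pow_iff_right (by norm_num)).mp h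

theorem rank_eq {n m : ℕ} (e : FreeGroup (Fin n) ≃* FreeGroup (Fin m)) : n = m :=
  le_antisymm (rank_le_of_surj e.symm.toMonoidHom e.symm.surjective)
    (rank_le_of_surj e.toMonoidHom e.surjective)

theorem range_free {α β : Type} [Finite α] (f : FreeGroup α →* FreeGroup β) :
    ∃ r : ℕ, Nonempty (FreeGroup (Fin r) ≃* f.range) := by
  classical
  let X := IsFreeGroup.Generators f.range
  let e : f.range ≃* FreeGroup X := IsFreeGroup.toFreeGroup f.range
  have hs : Function.Surjective (e.toMonoidHom.comp f.rangeRestrict) := by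
    rw [MonoidHom.coe_comp]
    exact e.surjective.comp f.rangeRestrict_surjective
  have hinj := hopf_homs (e.toMonoidHom.comp f.rangeRestrict) hs
  have hfin : Finite (X → Multiplicative (ZMod 2)) := Finite.of_injective _ hinj
  have hX : Finite X := by
    refine Finite.of_injective
      (fun x : X => (fun y => if y = x then Multiplicative.ofAdd 1 else Multiplicative.ofAdd 0 :
        X → Multiplicative (ZMod 2))) ?_
    intro x y h
    have h1 := congrFun h x
    simp only [if_true] at h1
    by_contra hne
    rw [if_neg hne] at h1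
    have h2 := Multiplicative.ofAdd.injective h1
    exact absurd h2 (by decide)
  obtain ⟨r, ⟨ex⟩⟩ := Finite.exists_equiv_fin X
  exact ⟨r, ⟨(FreeGroup.freeGroupCongr ex.symm).trans e.symm⟩⟩

end Pool.Agent.Pfc0641
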