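import Mathlib

/-!
# Group trisections (Abrams, Gay, Kirby, Group trisections and smooth 4-manifolds)

`FG g` is the free group on the standard generators `a_i, b_i` (`i < g`), and
`bdry g = [a_0,b_0] [a_1,b_1] ... [a_{g-1},b_{g-1}]`; the group of the closed oriented surface of
genus `g` is `FG g` modulo the normal closure of `bdry g`.

A group trisection of type `(g;k_0,k_1,k_2)` is a cube of groups and surjections, all of whose
faces are pushouts, with the surface group at the initial vertex, free groups of rank `g` at the
next three vertices and free groups of ranks `k_l` at the following three. Such a cube is, up to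
isomorphism, the same thing as three normal subgroups `N_0, N_1, N_2` of the surface group, that
is, three normal subgroups of `FG g` containing `bdry g`, such that `FG g / N_i` is free of rank
`g` and `FG g / (N_i N_j)` is free of rank `k_l` for `{i,j,l} = {0,1,2}`.
-/

namespace Pool.Agent.Pfc0641

/-- The free group on the standard generators `a_i = (i,false)`, `b_i = (i,true)`, `i < g`. -/
abbrev FG (g : ℕ) : Type := FreeGroup (Fin g × Bool)

/-- The generator `a_i`. -/
def a {g : ℕ} (i : Fin g) : FG g := FreeGroup.of (i, false)

/-- The generator `b_i`. -/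
def b {g : ℕ} (i : Fin g) : FG g := FreeGroup.of (i, true)

/-- The boundary word `[a_0,b_0] [a_1,b_1] ... [a_{g-1},b_{g-1}]`. -/
def bdry (g : ℕ) : FG g :=
  ((List.finRange g).map fun i => a i * b i * (a i)⁻¹ * (b i)⁻¹).prod

/-- `N` is a group trisection of type `(g; k 0, k 1, k 2)`; here `k l` is the rank belonging to the
pair of subgroups whose indices differ from `l`. -/
structure IsTriU (g : ℕ) (k : Fin 3 → ℕ) (N : Fin 3 → Subgroup (FG g)) : Prop where
  /-- each `N i` contains the boundary word -/
  bdry_mem : ∀ i, bdry g ∈ N i
  /-- each `N i` is the kernel of a surjection onto a free group of rank `g` -/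
  handlebody : ∀ i, ∃ f : FG g →* FreeGroup (Fin g), Function.Surjective f ∧ f.ker = N i
  /-- each `N i ⊔ N j` is the kernel of a surjection onto a free group of rank `k l` -/
  sector : ∀ i j l, i ≠ j → i ≠ l → j ≠ l →
    ∃ f : FG g →* FreeGroup (Fin (k l)), Function.Surjective f ∧ f.ker = N i ⊔ N j

/-- Balanced group trisections of type `(g,k)`. -/
def IsTri (g k : ℕ) (N : Fin 3 → Subgroup (FG g)) : Prop := IsTriU g (fun _ => k) N

/-- Strong isomorphism (orientation preserving, keeping the labels): an automorphism of the free
group that fixes the boundary word and carries `N i` to `N' i`. -/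
def SIso {g : ℕ} (N N' : Fin 3 → Subgroup (FG g)) : Prop :=
  ∃ φ : FG g ≃* FG g, φ (bdry g) = bdry g ∧ ∀ i, (N i).map φ.toMonoidHom = N' i

/-- The normal closure of the boundary word. -/
def relB (g : ℕ) : Subgroup (FG g) := Subgroup.normalClosure {bdry g}

instance (g : ℕ) : (relB g).Normal := Subgroup.normalClosure_normal

/-- The fundamental group of the closed oriented surface of genus `g`. -/
abbrev SG (g : ℕ) : Type := FG g ⧸ relB g

/-- Weak isomorphism: any isomorphism of surface groups (orientation preserving or not), and the
three labels may be permuted. -/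
def WIso {g : ℕ} (N N' : Fin 3 → Subgroup (FG g)) : Prop :=
  ∃ (ψ : SG g ≃* SG g) (σ : Equiv.Perm (Fin 3)), ∀ i,
    ((N i).map (QuotientGroup.mk' (relB g))).map ψ.toMonoidHom =
      (N' (σ i)).map (QuotientGroup.mk' (relB g))

/-- The inclusion `FG g → FG (g+1)` (first `g` handles). -/
def incl (g : ℕ) : FG g →* FG (g + 1) := FreeGroup.map (Prod.map Fin.castSucc id)

/-- The curve of the `i`-th handlebody on the last handle, in the genus one trisection number `l`
of the 4-sphere: `b` if `i = l` and `a` if not. -/
def crv (g : ℕ) (l i : Fin 3) : FG (g + 1) := if i = l then b (Fin.last g) else a (Fin.last g)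

/-- Connected sum with the genus one group trisection of the 4-sphere number `l`, that is
(a,a,b) in some order: the unbalanced stabilisation number `l`. -/
def stab1 {g : ℕ} (l : Fin 3) (N : Fin 3 → Subgroup (FG g)) : Fin 3 → Subgroup (FG (g + 1)) :=
  fun i => Subgroup.normalClosure ((incl g) '' (N i : Set (FG g)) ∪ {crv g l i})

/-- The (balanced) stabilisation: connected sum with the genus 3 trisection of the 4-sphere, which
is the connected sum of the three genus one trisections. -/
def stab {g : ℕ} (N : Fin 3 → Subgroup (FG g)) : Fin 3 → Subgroup (FG (g + 3)) :=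
  stab1 2 (stab1 1 (stab1 0 N))

end Pool.Agent.Pfc0641
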