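import Mathlib
import Pool.Agent.Lib.Pfc0641.Defs

/-!
# Words in generators, tables, and the endomorphisms given by tables

A letter is a natural number `m`: it stands for generator number `m / 2`, inverted if `m` is odd.
A word is a list of letters, a table is a list of words (the images of the generators).
-/

namespace Pool.Agent.Pfc0641.W

variable {G H : Type*} [Group G] [Group H]

/-- value of a letter -/
def lv (r : ℕ → G) (m : ℕ) : G := bif m % 2 == 0 then r (m / 2) else (r (m / 2))⁻¹

/-- value of a word -/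
def val (r : ℕ → G) (u : List ℕ) : G := (u.map (lv r)).prod

lemma val_nil (r : ℕ → G) : val r [] = 1 := rfl

lemma val_cons (r : ℕ → G) (m : ℕ) (u : List ℕ) : val r (m :: u) = lv r m * val r u := by
  simp [val]

lemma val_append (r : ℕ → G) (u v : List ℕ) : val r (u ++ v) = val r u * val r v := by
  simp [val]

lemma lv_even (r : ℕ → G) (i : ℕ) : lv r (2 * i) = r i := by
  have h1 : (2 * i) % 2 = 0 := by omega
  have h2 : (2 * i) / 2 = i := by omega
  simp [lv, h1, h2]

lemma lv_odd (r : ℕ → G) (i : ℕ) : lv r (2 * i + 1) = (r i)⁻¹ := by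
  have h1 : (2 * i + 1) % 2 = 1 := by omega
  have h2 : (2 * i + 1) / 2 = i := by omega
  simp [lv, h1, h2]

/-- put a letter in front of a reduced word, with cancellation -/
def cns (m : ℕ) : List ℕ → List ℕ
  | [] => [m]
  | n :: t => bif (m / 2 == n / 2) && !(m == n) then t else m :: n :: t

lemma val_cns (r : ℕ → G) (m : ℕ) (u : List ℕ) : val r (cns m u) = lv r m * val r u := by
  cases u with
  | nil => simp [cns, val]
  | cons n t =>
    show val r (bif (m / 2 == n / 2) && !(m == n) then t else m :: n :: t) = _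
    by_cases h : ((m / 2 == n / 2) && !(m == n)) = true
    · rw [h, cond_true, val_cons, ← mul_assoc]
      simp only [Bool.and_eq_true, beq_iff_eq, Bool.not_eq_eq_eq_not, Bool.not_true,
        beq_eq_false_iff_ne] at h
      obtain ⟨h1, h2⟩ := h
      have h3 : lv r m * lv r n = 1 := by
        obtain ⟨i, hi | hi⟩ : ∃ i, m = 2 * i ∨ m = 2 * i + 1 := ⟨m / 2, by omega⟩
        · obtain hn : n = 2 * i + 1 := by omega
          rw [hi, hn, lv_even, lv_odd, mul_inv_cancel]
        · obtain hn : n = 2 * i := by omega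
          rw [hi, hn, lv_even, lv_odd, inv_mul_cancel]
      rw [h3, one_mul]
    · rw [Bool.not_eq_true] at h
      rw [h, cond_false, val_cons]

/-- reduced product -/
def app (u v : List ℕ) : List ℕ := u.foldr cns v

lemma val_app (r : ℕ → G) (u v : List ℕ) : val r (app u v) = val r u * val r v := by
  induction u with
  | nil => simp [app, val]
  | cons m u ih =>
    have : app (m :: u) v = cns m (app u v) := rfl
    rw [this, val_cns, ih, val_cons, mul_assoc]

/-- inverse letter -/
def inv1 (m : ℕ) : ℕ := bif m % 2 == 0 then m + 1 else m - 1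

lemma lv_inv1 (r : ℕ → G) (m : ℕ) : lv r (inv1 m) = (lv r m)⁻¹ := by
  obtain ⟨i, hi | hi⟩ : ∃ i, m = 2 * i ∨ m = 2 * i + 1 := ⟨m / 2, by omega⟩
  · have : inv1 m = 2 * i + 1 := by
      have h1 : (2 * i) % 2 = 0 := by omega
      rw [hi]; simp [inv1, h1]
    rw [this, hi, lv_odd, lv_even]
  · have : inv1 m = 2 * i := by
      have h1 : (2 * i + 1) % 2 = 1 := by omega
      rw [hi]; simp [inv1, h1]
    rw [this, hi, lv_odd, lv_even, inv_inv]

/-- inverse word -/
def invw (u : List ℕ) : List ℕ := (u.map inv1).reverse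

lemma val_invw (r : ℕ → G) (u : List ℕ) : val r (invw u) = (val r u)⁻¹ := by
  induction u with
  | nil => simp [invw, val]
  | cons m u ih =>
    have : invw (m :: u) = invw u ++ [inv1 m] := by simp [invw]
    rw [this, val_append, ih, val_cons, val_cons, val_nil, mul_one, lv_inv1, mul_inv_rev]

/-- image of a letter under a table -/
def img (T : List (List ℕ)) (m : ℕ) : List ℕ :=
  bif m % 2 == 0 then T.getD (m / 2) [] else invw (T.getD (m / 2) [])

/-- substitution, with reduction -/
def sub (T : List (List ℕ)) (u : List ℕ) : List ℕ := u.foldr (fun m s => app (img T m) s) []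

lemma val_img (r : ℕ → G) (T : List (List ℕ)) (m : ℕ) :
    val r (img T m) = lv (fun n => val r (T.getD n [])) m := by
  unfold img lv
  cases (m % 2 == 0) with
  | true => simp
  | false => simp [val_invw]

lemma val_sub (r : ℕ → G) (T : List (List ℕ)) (u : List ℕ) :
    val r (sub T u) = val (fun n => val r (T.getD n [])) u := by
  induction u with
  | nil => simp [sub, val]
  | cons m u ih =>
    have : sub T (m :: u) = app (img T m) (sub T u) := rfl
    rw [this, val_app, ih, val_cons, val_img]

lemma map_lv (f : G →* H) (r : ℕ → G) (m : ℕ) : f (lv r m) = lv (fun n => f (r n)) m := by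
  unfold lv
  cases (m % 2 == 0) with
  | true => simp
  | false => simp

lemma map_val (f : G →* H) (r : ℕ → G) (u : List ℕ) : f (val r u) = val (fun n => f (r n)) u := by
  induction u with
  | nil => simp [val]
  | cons m u ih => rw [val_cons, map_mul, ih, val_cons, map_lv]

/-- generator number `n` of `FG g` (`a_i` for `n = 2 i`, `b_i` for `n = 2 i + 1`) -/
def gn (g n : ℕ) : FG g := if h : n / 2 < g then FreeGroup.of (⟨n / 2, h⟩, n % 2 == 1) else 1

/-- number of a generator -/
def num {g : ℕ} (x : Fin g × Bool) : ℕ := 2 * x.1.1 + bif x.2 then 1 else 0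

lemma gn_num {g : ℕ} (x : Fin g × Bool) : gn g (num x) = FreeGroup.of x := by
  obtain ⟨i, s⟩ := x
  cases s with
  | false =>
    have h1 : (2 * i.1 + 0) / 2 = i.1 := by omega
    have h2 : (2 * i.1 + 0) % 2 = 0 := by omega
    simp only [gn, num, cond_false, h1, h2, i.2, dif_pos]
    rfl
  | true =>
    have h1 : (2 * i.1 + 1) / 2 = i.1 := by omega
    have h2 : (2 * i.1 + 1) % 2 = 1 := by omega
    simp only [gn, num, cond_true, h1, h2, i.2, dif_pos]
    rfl

lemma num_lt {g : ℕ} (x : Fin g × Bool) : num x < 2 * g := by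
  obtain ⟨i, s⟩ := x
  have := i.2
  cases s <;> simp only [num, cond_false, cond_true] <;> omega

/-- the homomorphism with given values on the generators -/
def lft {g : ℕ} (r : ℕ → G) : FG g →* G := FreeGroup.lift fun x => r (num x)

lemma lft_gn {g : ℕ} (r : ℕ → G) (n : ℕ) (hn : n < 2 * g) : lft (g := g) r (gn g n) = r n := by
  have h : n / 2 < g := by omega
  rw [gn, dif_pos h, lft, FreeGroup.lift_apply_of]
  congr 1
  obtain h1 | h1 : n % 2 = 0 ∨ n % 2 = 1 := by omega
  · simp only [num, h1]
    simp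
    omega
  · simp only [num, h1]
    simp
    omega

lemma hom_ext' {g : ℕ} {f f' : FG g →* G} (h : ∀ n < 2 * g, f (gn g n) = f' (gn g n)) :
    f = f' := by
  apply FreeGroup.ext_hom
  intro x
  rw [← gn_num]
  exact h _ (num_lt x)

/-- the endomorphism given by a table -/
def hom (g : ℕ) (T : List (List ℕ)) : FG g →* FG g := lft fun n => val (gn g) (T.getD n [])

lemma hom_gn {g : ℕ} (T : List (List ℕ)) (n : ℕ) (hn : n < 2 * g) :
    hom g T (gn g n) = val (gn g) (T.getD n []) := lft_gn _ _ hn

lemma gn_ge {g n : ℕ} (hn : 2 * g ≤ n) : gn g n = 1 := by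
  rw [gn, dif_neg]
  omega

lemma hom_gn' {g : ℕ} {T : List (List ℕ)} (hT : T.length ≤ 2 * g) (n : ℕ) :
    hom g T (gn g n) = val (gn g) (T.getD n []) := by
  by_cases hn : n < 2 * g
  · exact hom_gn T n hn
  · rw [gn_ge (not_lt.1 hn), map_one, List.getD_eq_default _ _ (hT.trans (not_lt.1 hn))]
    rfl

lemma hom_val {g : ℕ} {T : List (List ℕ)} (hT : T.length ≤ 2 * g) (u : List ℕ) :
    hom g T (val (gn g) u) = val (gn g) (sub T u) := by
  rw [map_val, val_sub]
  congr 1
  funext n
  exact hom_gn' hT n

/-- composition of tables with `2 g` entries -/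
def tc (g : ℕ) (T T' : List (List ℕ)) : List (List ℕ) :=
  (List.range (2 * g)).map fun n => sub T (T'.getD n [])

lemma tc_length (g : ℕ) (T T' : List (List ℕ)) : (tc g T T').length ≤ 2 * g := by
  simp [tc]

lemma tc_getD {g : ℕ} (T T' : List (List ℕ)) (n : ℕ) (hn : n < 2 * g) :
    (tc g T T').getD n [] = sub T (T'.getD n []) := by
  rw [tc, List.getD_eq_getElem?_getD, List.getElem?_map, List.getElem?_range hn]
  rfl

lemma hom_tc {g : ℕ} {T : List (List ℕ)} (hT : T.length ≤ 2 * g) (T' : List (List ℕ)) :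
    hom g (tc g T T') = (hom g T).comp (hom g T') := by
  refine hom_ext' fun n hn => ?_
  rw [hom_gn _ _ hn, tc_getD _ _ _ hn, MonoidHom.comp_apply, hom_gn _ _ hn, hom_val hT]

/-- the identity table -/
def idt (g : ℕ) : List (List ℕ) := (List.range (2 * g)).map fun n => [2 * n]

lemma idt_length (g : ℕ) : (idt g).length ≤ 2 * g := by simp [idt]

lemma hom_idt (g : ℕ) : hom g (idt g) = MonoidHom.id _ := by
  refine hom_ext' fun n hn => ?_
  rw [hom_gn _ _ hn, idt, List.getD_eq_getElem?_getD, List.getElem?_map, List.getElem?_range hn]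
  show val (gn g) [2 * n] = _
  rw [val_cons, val_nil, mul_one, lv_even]
  rfl

/-- two tables are inverse to each other -/
def invt (g : ℕ) (T T' : List (List ℕ)) : Bool :=
  decide (T.length ≤ 2 * g) && decide (T'.length ≤ 2 * g) && (tc g T T' == idt g) &&
    (tc g T' T == idt g)

lemma invt_symm {g : ℕ} {T T' : List (List ℕ)} (h : invt g T T' = true) : invt g T' T = true := by
  simp only [invt, Bool.and_eq_true, beq_iff_eq] at h ⊢
  exact ⟨⟨⟨h.1.1.2, h.1.1.1⟩, h.2⟩, h.1.2⟩

lemma invt_len {g : ℕ} {T T' : List (List ℕ)} (h : invt g T T' = true) : T.length ≤ 2 * g := by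
  simp only [invt, Bool.and_eq_true, beq_iff_eq, decide_eq_true_eq] at h
  exact h.1.1.1

lemma invt_comp {g : ℕ} {T T' : List (List ℕ)} (h : invt g T T' = true) :
    (hom g T).comp (hom g T') = MonoidHom.id _ := by
  have h1 := invt_len h
  simp only [invt, Bool.and_eq_true, beq_iff_eq] at h
  rw [← hom_tc h1, h.1.2, hom_idt]

/-- the automorphism given by two tables -/
def aut (g : ℕ) (T T' : List (List ℕ)) (h : invt g T T' = true) : MulAut (FG g) :=
  MonoidHom.toMulEquiv (hom g T) (hom g T') (invt_comp (invt_symm h)) (invt_comp h)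

lemma aut_apply {g : ℕ} {T T' : List (List ℕ)} (h : invt g T T' = true) (x : FG g) :
    aut g T T' h x = hom g T x := rfl

lemma aut_inv_apply {g : ℕ} {T T' : List (List ℕ)} (h : invt g T T' = true) (x : FG g) :
    (aut g T T' h)⁻¹ x = hom g T' x := rfl

lemma aut_ext {g : ℕ} {f f' : MulAut (FG g)} (h : ∀ x, f x = f' x) : f = f' := MulEquiv.ext h

/-- the automorphism `f` fixes the element `w` -/
def fixS {F : Type*} [Group F] (w : F) : Subgroup (MulAut F) where
  carrier := {f | f w = w}
  one_mem' := rfl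
  mul_mem' {f g} hf hg := by
    show f (g w) = w
    rw [show g w = w from hg, show f w = w from hf]
  inv_mem' {f} hf := by
    show f⁻¹ w = w
    rw [MulAut.inv_apply, MulEquiv.symm_apply_eq]
    exact (show f w = w from hf).symm

/-- automorphisms that preserve the subgroup `N` -/
def stb {F : Type*} [Group F] (N : Subgroup F) : Subgroup (MulAut F) where
  carrier := {f | ∀ x, f x ∈ N ↔ x ∈ N}
  one_mem' := fun _ => Iff.rfl
  mul_mem' {f g} hf hg := fun x => (hf (g x)).trans (hg x)
  inv_mem' {f} hf := fun x => by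
    have := hf (f⁻¹ x)
    rw [MulAut.apply_inv_self] at this
    exact this.symm

lemma mem_stb {F : Type*} [Group F] {N : Subgroup F} {f : MulAut F} :
    f ∈ stb N ↔ ∀ x, f x ∈ N ↔ x ∈ N := Iff.rfl

lemma mem_fixS {F : Type*} [Group F] {w : F} {f : MulAut F} : f ∈ fixS w ↔ f w = w := Iff.rfl

lemma mem_stb_of {F : Type*} [Group F] {N : Subgroup F} {f : MulAut F}
    (h1 : ∀ x ∈ N, f x ∈ N) (h2 : ∀ x ∈ N, f⁻¹ x ∈ N) : f ∈ stb N := fun x =>
  ⟨fun hx => by simpa using h2 _ hx, h1 x⟩

lemma map_eq_of_mem_stb {F : Type*} [Group F] {N : Subgroup F} {f : MulAut F} (h : f ∈ stb N) :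
    N.map f.toMonoidHom = N := by
  ext x
  constructor
  · rintro ⟨y, hy, rfl⟩
    exact (h y).2 hy
  · intro hx
    refine ⟨f⁻¹ x, (h _).1 (by rwa [MulAut.apply_inv_self]), ?_⟩
    exact MulAut.apply_inv_self _ _ _

end Pool.Agent.Pfc0641.W
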