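import Mathlib
import Pool.Agent.Lib.Pfc0641.Words
import Pool.Agent.Lib.Pfc0641.Tables

/-!
# Pushes of the surgery foot

The three handlebody kernels `kA`, `kB`, `kC`, the homomorphism `pi` from the free group of rank 8
to the automorphisms of `FG 6` fixing `bdry 6`, and its properties.
-/

namespace Pool.Agent.Pfc0641.W

section abstractpart

variable {F : Type*} [Group F]

lemma stb_ker_congr {q : F →* F} {f : MulAut F} (h : f ∈ stb q.ker) {x y : F} (hxy : q x = q y) :
    q (f x) = q (f y) := by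
  have h1 : x * y⁻¹ ∈ q.ker := by
    rw [MonoidHom.mem_ker, map_mul, map_inv, hxy, mul_inv_cancel]
  have h2 := (h _).2 h1
  rw [MonoidHom.mem_ker, map_mul, map_inv, map_mul, map_inv] at h2
  exact mul_inv_eq_one.1 h2

/-- automorphisms that preserve the kernel of `q` and are trivial modulo this kernel on the range
of `i` -/
def UU (q i : F →* F) : Subgroup (MulAut F) where
  carrier := {f | f ∈ stb q.ker ∧ ∀ x, q (f (i x)) = q (i x)}
  one_mem' := ⟨one_mem _, fun _ => rfl⟩
  mul_mem' {f g} hf hg := ⟨mul_mem hf.1 hg.1, fun x => by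
    show q (f (g (i x))) = q (i x)
    rw [stb_ker_congr hf.1 (hg.2 x), hf.2 x]⟩
  inv_mem' {f} hf := ⟨inv_mem hf.1, fun x => by
    have h := stb_ker_congr (inv_mem hf.1) (hf.2 x)
    rw [MulAut.inv_apply_self] at h
    exact h.symm⟩

lemma mem_UU {q i : F →* F} {f : MulAut F} :
    f ∈ UU q i ↔ f ∈ stb q.ker ∧ ∀ x, q (f (i x)) = q (i x) := Iff.rfl

lemma conj_mem_UU {q i : F →* F} {f p : MulAut F} (h1 : p ∈ stb q.ker) (h2 : p ∈ stb i.range)
    (hf : f ∈ UU q i) : p * f * p⁻¹ ∈ UU q i := by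
  refine ⟨mul_mem (mul_mem h1 hf.1) (inv_mem h1), fun x => ?_⟩
  obtain ⟨y, hy⟩ := ((inv_mem h2 : p⁻¹ ∈ stb i.range) (i x)).2 ⟨x, rfl⟩
  show q (p (f (p⁻¹ (i x)))) = q (i x)
  rw [← hy, stb_ker_congr h1 (hf.2 y), hy, MulAut.apply_inv_self]

end abstractpart

/-! ## Checks on tables -/

/-- the table `T` preserves the kernel of `q` -/
def kerChk (q T : List (List ℕ)) : Bool :=
  decide (q.length ≤ 12) && (tc 6 (tc 6 q T) q == tc 6 q T)

lemma ker_of_chk {q T : List (List ℕ)} (h : kerChk q T = true) :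
    ∀ x ∈ (hom 6 q).ker, hom 6 T x ∈ (hom 6 q).ker := by
  simp only [kerChk, Bool.and_eq_true, beq_iff_eq, decide_eq_true_eq] at h
  intro x hx
  rw [MonoidHom.mem_ker] at hx ⊢
  have h1 : (hom 6 (tc 6 q T)).comp (hom 6 q) = (hom 6 (tc 6 q T)) := by
    rw [← hom_tc (tc_length _ _ _), h.2]
  have h2 := DFunLike.congr_fun h1 x
  rw [MonoidHom.comp_apply, hx, map_one, hom_tc h.1, MonoidHom.comp_apply] at h2
  exact h2.symm

lemma mem_stb_ker {q T T' : List (List ℕ)} (hi : invt 6 T T' = true)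
    (h : kerChk q T = true) (h' : kerChk q T' = true) : aut 6 T T' hi ∈ stb (hom 6 q).ker :=
  mem_stb_of (ker_of_chk h) (ker_of_chk h')

/-- the table `T` maps the range of `i` into itself, `T2` is the lift -/
def rngChk (i T T2 : List (List ℕ)) : Bool :=
  decide (i.length ≤ 12) && (tc 6 T i == tc 6 i T2)

lemma mem_stb_range {i T T' T2 T2' : List (List ℕ)} (hi : invt 6 T T' = true)
    (h : rngChk i T T2 = true) (h' : rngChk i T' T2' = true) :
    aut 6 T T' hi ∈ stb (hom 6 i).range := by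
  have aux : ∀ T T2 : List (List ℕ), T.length ≤ 2 * 6 → rngChk i T T2 = true →
      ∀ x ∈ (hom 6 i).range, hom 6 T x ∈ (hom 6 i).range := by
    intro T T2 hT h
    simp only [rngChk, Bool.and_eq_true, beq_iff_eq, decide_eq_true_eq] at h
    rintro x ⟨y, rfl⟩
    refine ⟨hom 6 T2 y, ?_⟩
    rw [← MonoidHom.comp_apply, ← hom_tc h.1, ← h.2, hom_tc hT]
    rfl
  exact mem_stb_of (aux T T2 (invt_len hi) h) (aux T' T2' (invt_len (invt_symm hi)) h')

/-- the table `T` is trivial modulo the kernel of `q` on the range of `i` -/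
def uuChk (q i T : List (List ℕ)) : Bool :=
  decide (q.length ≤ 12) && (tc 6 (tc 6 q T) i == tc 6 q i)

lemma mem_UU_of {q i T T' : List (List ℕ)} (hi : invt 6 T T' = true)
    (h : kerChk q T = true) (h' : kerChk q T' = true) (h2 : uuChk q i T = true) :
    aut 6 T T' hi ∈ UU (hom 6 q) (hom 6 i) := by
  refine ⟨mem_stb_ker hi h h', fun x => ?_⟩
  simp only [uuChk, Bool.and_eq_true, beq_iff_eq, decide_eq_true_eq] at h2
  have h3 : (hom 6 (tc 6 q T)).comp (hom 6 i) = (hom 6 q).comp (hom 6 i) := by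
    rw [← hom_tc (tc_length _ _ _), h2.2, hom_tc h2.1]
  have h4 := DFunLike.congr_fun h3 x
  rw [hom_tc h2.1] at h4
  exact h4

/-- the boundary word of genus 6 -/
def bdw : List ℕ := (List.range 6).flatMap fun i => [4 * i, 4 * i + 2, 4 * i + 1, 4 * i + 3]

lemma val_bdw : val (gn 6) bdw = bdry 6 := by
  have h : bdw = [0, 2, 1, 3, 4, 6, 5, 7, 8, 10, 9, 11, 12, 14, 13, 15, 16, 18, 17, 19,
    20, 22, 21, 23] := by decide
  rw [h]
  simp only [bdry, List.finRange, List.ofFn, val, lv, List.map, List.prod_cons, List.prod_nil]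
  simp [gn, a, b, Fin.foldr, Fin.foldr.loop, mul_assoc]

/-- the table fixes the boundary word -/
def bdChk (T : List (List ℕ)) : Bool := decide (T.length ≤ 12) && (sub T bdw == bdw)

lemma mem_fixS_of {T T' : List (List ℕ)} (hi : invt 6 T T' = true) (h : bdChk T = true) :
    aut 6 T T' hi ∈ fixS (bdry 6) := by
  simp only [bdChk, Bool.and_eq_true, beq_iff_eq, decide_eq_true_eq] at h
  rw [mem_fixS, aut_apply, ← val_bdw, hom_val h.1, h.2]

/-! ## The objects -/

/-- entry number `i` of a list of tables -/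
abbrev tb (L : List (List (List ℕ))) (i : ℕ) : List (List ℕ) := L.getD i []

lemma invP : ∀ i : Fin 8, invt 6 (tb Tp i) (tb Tm i) = true := by decide +kernel
lemma invR : ∀ i : Fin 4, invt 6 (tb TR i) (tb TRi i) = true := by decide +kernel
lemma invQ : ∀ i : Fin 4, invt 6 (tb TQ i) (tb TQi i) = true := by decide +kernel
lemma invE : ∀ i : Fin 4, invt 6 (tb TE i) (tb TEi i) = true := by decide +kernel
lemma invN : invt 6 TN TNi = true := by decide +kernel
lemma invU : invt 6 TU TUi = true := by decide +kernel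

/-- pushes of the double foot along the eight loops `x_1, belt_1, y, belt_y, x_2, belt_2, x_3,
belt_3` -/
def P (i : Fin 8) : MulAut (FG 6) := aut 6 _ _ (invP i)

/-- pushes of the second foot along the four belts -/
def R (i : Fin 4) : MulAut (FG 6) := aut 6 _ _ (invR i)

/-- pushes of the first foot along the four belts -/
def Q (i : Fin 4) : MulAut (FG 6) := aut 6 _ _ (invQ i)

/-- foot pushes of the handles 4, 5 along the long loops of the handles 2, 3 -/
def E (i : Fin 4) : MulAut (FG 6) := aut 6 _ _ (invE i)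

/-- foot push of the handle 3 -/
def Nn : MulAut (FG 6) := aut 6 _ _ invN

/-- moves the handle 3 behind the handles 4 and 5 -/
def Uu : MulAut (FG 6) := aut 6 _ _ invU

/-- the kernel `A` -/
def kA : Subgroup (FG 6) := (hom 6 qA).ker
/-- the kernel `B` -/
def kB : Subgroup (FG 6) := (hom 6 qB).ker
/-- the kernel `C` -/
def kC : Subgroup (FG 6) := (hom 6 qC).ker

/-! ## Membership facts, all by finite checks -/

/-- automorphisms fixing the boundary word and preserving `kA` and `kB` -/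
def SAB : Subgroup (MulAut (FG 6)) := fixS (bdry 6) ⊓ stb kA ⊓ stb kB

/-- first foot pushes -/
def GQ : Subgroup (MulAut (FG 6)) := fixS (bdry 6) ⊓ stb kA ⊓ UU (hom 6 qd) (hom 6 iB)

/-- second foot pushes -/
def GR : Subgroup (MulAut (FG 6)) := UU (hom 6 qe) (hom 6 iC)

/-- automorphisms that normalise `GQ` and `GR` -/
def GN : Subgroup (MulAut (FG 6)) :=
  fixS (bdry 6) ⊓ stb kA ⊓ stb (hom 6 qd).ker ⊓ stb (hom 6 iB).range ⊓ stb (hom 6 qe).ker ⊓
    stb (hom 6 iC).range

lemma bdP : ∀ i : Fin 8, bdChk (tb Tp i) = true := by decide +kernel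
lemma bdQ : ∀ i : Fin 4, bdChk (tb TQ i) = true := by decide +kernel
lemma bdE : ∀ i : Fin 4, bdChk (tb TE i) = true := by decide +kernel
lemma bdN : bdChk TN = true := by decide +kernel
lemma bdU : bdChk TU = true := by decide +kernel

lemma kAP : ∀ i : Fin 8, kerChk qA (tb Tp i) = true := by decide +kernel
lemma kAP' : ∀ i : Fin 8, kerChk qA (tb Tm i) = true := by decide +kernel
lemma kdP : ∀ i : Fin 8, kerChk qd (tb Tp i) = true := by decide +kernel
lemma kdP' : ∀ i : Fin 8, kerChk qd (tb Tm i) = true := by decide +kernel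
lemma keP : ∀ i : Fin 8, kerChk qe (tb Tp i) = true := by decide +kernel
lemma keP' : ∀ i : Fin 8, kerChk qe (tb Tm i) = true := by decide +kernel
lemma rBP : ∀ i : Fin 8, rngChk iB (tb Tp i) (tb TpB i) = true := by decide +kernel
lemma rBP' : ∀ i : Fin 8, rngChk iB (tb Tm i) (tb TmB i) = true := by decide +kernel
lemma rCP : ∀ i : Fin 8, rngChk iC (tb Tp i) (tb TpC i) = true := by decide +kernel
lemma rCP' : ∀ i : Fin 8, rngChk iC (tb Tm i) (tb TmC i) = true := by decide +kernel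

lemma kAQ : ∀ i : Fin 4, kerChk qA (tb TQ i) = true := by decide +kernel
lemma kAQ' : ∀ i : Fin 4, kerChk qA (tb TQi i) = true := by decide +kernel
lemma kdQ : ∀ i : Fin 4, kerChk qd (tb TQ i) = true := by decide +kernel
lemma kdQ' : ∀ i : Fin 4, kerChk qd (tb TQi i) = true := by decide +kernel
lemma uQ : ∀ i : Fin 4, uuChk qd iB (tb TQ i) = true := by decide +kernel

lemma keR : ∀ i : Fin 4, kerChk qe (tb TR i) = true := by decide +kernel
lemma keR' : ∀ i : Fin 4, kerChk qe (tb TRi i) = true := by decide +kernel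
lemma uR : ∀ i : Fin 4, uuChk qe iC (tb TR i) = true := by decide +kernel

lemma kAE : ∀ i : Fin 4, kerChk qA (tb TE i) = true := by decide +kernel
lemma kAE' : ∀ i : Fin 4, kerChk qA (tb TEi i) = true := by decide +kernel
lemma kBE : ∀ i : Fin 4, kerChk qB (tb TE i) = true := by decide +kernel
lemma kBE' : ∀ i : Fin 4, kerChk qB (tb TEi i) = true := by decide +kernel
lemma keE : ∀ i : Fin 4, kerChk qe (tb TE i) = true := by decide +kernel
lemma keE' : ∀ i : Fin 4, kerChk qe (tb TEi i) = true := by decide +kernel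
lemma rCE : ∀ i : Fin 4, rngChk iC (tb TE i) (tb TEC i) = true := by decide +kernel
lemma rCE' : ∀ i : Fin 4, rngChk iC (tb TEi i) (tb TEiC i) = true := by decide +kernel

lemma P_mem (i : Fin 8) : P i ∈ GN := by
  refine Subgroup.mem_inf.2 ⟨Subgroup.mem_inf.2 ⟨Subgroup.mem_inf.2 ⟨Subgroup.mem_inf.2
    ⟨Subgroup.mem_inf.2 ⟨?_, ?_⟩, ?_⟩, ?_⟩, ?_⟩, ?_⟩
  · exact mem_fixS_of _ (bdP i)
  · exact mem_stb_ker _ (kAP i) (kAP' i)
  · exact mem_stb_ker _ (kdP i) (kdP' i)
  · exact mem_stb_range _ (rBP i) (rBP' i)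
  · exact mem_stb_ker _ (keP i) (keP' i)
  · exact mem_stb_range _ (rCP i) (rCP' i)

lemma Q_mem (i : Fin 4) : Q i ∈ GQ := by
  refine Subgroup.mem_inf.2 ⟨Subgroup.mem_inf.2 ⟨?_, ?_⟩, ?_⟩
  · exact mem_fixS_of _ (bdQ i)
  · exact mem_stb_ker _ (kAQ i) (kAQ' i)
  · exact mem_UU_of _ (kdQ i) (kdQ' i) (uQ i)

lemma R_mem (i : Fin 4) : R i ∈ GR := mem_UU_of _ (keR i) (keR' i) (uR i)

lemma conj_GQ {p f : MulAut (FG 6)} (hp : p ∈ GN) (hf : f ∈ GQ) : p * f * p⁻¹ ∈ GQ := by
  simp only [GN, GQ, Subgroup.mem_inf] at hp hf ⊢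
  exact ⟨⟨mul_mem (mul_mem hp.1.1.1.1.1 hf.1.1) (inv_mem hp.1.1.1.1.1),
    mul_mem (mul_mem hp.1.1.1.1.2 hf.1.2) (inv_mem hp.1.1.1.1.2)⟩,
    conj_mem_UU hp.1.1.1.2 hp.1.1.2 hf.2⟩

lemma conj_GR {p f : MulAut (FG 6)} (h1 : p ∈ stb (hom 6 qe).ker) (h2 : p ∈ stb (hom 6 iC).range)
    (hf : f ∈ GR) : p * f * p⁻¹ ∈ GR := conj_mem_UU h1 h2 hf

/-- the retraction `q` kills generator `n` or fixes it, for all generators, and the killed
generators are fixed by `i`; `q` kills what `r` kills -/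
def retChk (q r i : List (List ℕ)) : Bool :=
  decide (q.length ≤ 12) && (tc 6 q r == q) &&
    (List.range 12).all fun n => (q.getD n [] == [2 * n]) ||
      (q.getD n [] == [] && i.getD n [] == [2 * n])

lemma stb_of_UU {q r i : List (List ℕ)} (h : retChk q r i = true) {f : MulAut (FG 6)}
    (hf : f ∈ UU (hom 6 r) (hom 6 i)) : f ∈ stb (hom 6 q).ker := by
  have aux : ∀ f : MulAut (FG 6), f ∈ UU (hom 6 r) (hom 6 i) →
      ∀ x ∈ (hom 6 q).ker, f x ∈ (hom 6 q).ker := by
    intro f hf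
    simp only [retChk, Bool.and_eq_true, beq_iff_eq, decide_eq_true_eq, List.all_eq_true,
      List.mem_range, Bool.or_eq_true] at h
    have hqr : (hom 6 q).comp (hom 6 r) = hom 6 q := by
      rw [← hom_tc h.1.1, h.1.2]
    have h3 : ((hom 6 q).comp f.toMonoidHom).comp (hom 6 q) = (hom 6 q).comp f.toMonoidHom := by
      refine hom_ext' fun n hn => ?_
      rcases h.2 n hn with h4 | h4
      · rw [MonoidHom.comp_apply, hom_gn _ _ hn, h4, val_cons, val_nil, mul_one, lv_even]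
      · have h5 : hom 6 i (gn 6 n) = gn 6 n := by
          rw [hom_gn _ _ hn, h4.2, val_cons, val_nil, mul_one, lv_even]
        rw [MonoidHom.comp_apply, hom_gn _ _ hn, h4.1, val_nil, map_one]
        show 1 = hom 6 q (f (gn 6 n))
        rw [← hqr, MonoidHom.comp_apply, ← h5, hf.2 (gn 6 n), h5, ← MonoidHom.comp_apply, hqr,
          hom_gn _ _ hn, h4.1, val_nil]
    intro x hx
    rw [MonoidHom.mem_ker] at hx ⊢
    have h4 := DFunLike.congr_fun h3 x
    rw [MonoidHom.comp_apply, hx, map_one] at h4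
    exact h4.symm
  exact mem_stb_of (aux f hf) (aux _ (inv_mem hf))

lemma GQ_le : GQ ≤ SAB := by
  intro f hf
  simp only [GQ, SAB, Subgroup.mem_inf] at hf ⊢
  exact ⟨hf.1, stb_of_UU (i := iB) (r := qd) (by decide +kernel) hf.2⟩

lemma GR_le : GR ≤ stb kC := by
  intro f hf
  exact stb_of_UU (i := iC) (r := qe) (by decide +kernel) hf

lemma E_mem (i : Fin 4) : E i ∈ SAB := by
  refine Subgroup.mem_inf.2 ⟨Subgroup.mem_inf.2 ⟨?_, ?_⟩, ?_⟩
  · exact mem_fixS_of _ (bdE i)
  · exact mem_stb_ker _ (kAE i) (kAE' i)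
  · exact mem_stb_ker _ (kBE i) (kBE' i)

lemma E_mem' (i : Fin 4) : E i ∈ stb (hom 6 qe).ker ⊓ stb (hom 6 iC).range :=
  Subgroup.mem_inf.2 ⟨mem_stb_ker _ (keE i) (keE' i), mem_stb_range _ (rCE i) (rCE' i)⟩

end Pool.Agent.Pfc0641.W
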