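import Mathlib
import Pool.Agent.Lib.Pfc0641.Push

/-!
# The stable isomorphism

`T r = (kA, kB, pi r kC)`. Belt letters can be deleted in `r` (`pi_belt`), letters `x_2, x_3` can
be deleted in words in the long letters (`pia_kill`), and foot pushes of the handles 4 and 5 act
on `r` by substitution (`E_conj`).
-/

namespace Pool.Agent.Pfc0641.W

/-- the push homomorphism -/
def pi : FreeGroup (Fin 8) →* MulAut (FG 6) := FreeGroup.lift P

lemma pi_of (i : Fin 8) : pi (FreeGroup.of i) = P i := by rw [pi, FreeGroup.lift_apply_of]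

lemma pi_mem (z : FreeGroup (Fin 8)) : pi z ∈ GN := by
  refine FreeGroup.induction_on z ?_ ?_ ?_ ?_
  · rw [map_one]; exact one_mem _
  · intro i; rw [pi_of]; exact P_mem i
  · intro i _; rw [map_inv, pi_of]; exact inv_mem (P_mem i)
  · intro x y hx hy; rw [map_mul]; exact mul_mem hx hy

/-- inclusion of the group on the long letters -/
def ja : FreeGroup (Fin 4) →* FreeGroup (Fin 8) :=
  FreeGroup.lift ![FreeGroup.of 0, FreeGroup.of 2, FreeGroup.of 4, FreeGroup.of 6]

/-- the retraction killing the belt letters -/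
def pa : FreeGroup (Fin 8) →* FreeGroup (Fin 4) :=
  FreeGroup.lift ![FreeGroup.of 0, 1, FreeGroup.of 1, 1, FreeGroup.of 2, 1, FreeGroup.of 3, 1]

/-- the push homomorphism on long words -/
def pia : FreeGroup (Fin 4) →* MulAut (FG 6) := pi.comp ja

/-- number of the belt letter -/
def bl (i : Fin 4) : Fin 8 := ![1, 3, 5, 7] i

lemma PQR : ∀ i : Fin 4, tc 6 (tb TQ i) (tb TR i) = tb Tp (bl i) := by decide +kernel

lemma lenQ : ∀ i : Fin 4, (tb TQ i).length ≤ 2 * 6 := by decide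

lemma P_bl (i : Fin 4) : P (bl i) = Q i * R i := by
  refine aut_ext fun x => ?_
  show hom 6 (tb Tp (bl i)) x = hom 6 (tb TQ i) (hom 6 (tb TR i) x)
  rw [← PQR i, hom_tc (lenQ i)]
  rfl

/-- the set of words whose push can be computed after deletion of the belt letters -/
def Good (z : FreeGroup (Fin 8)) : Prop :=
  ∃ s ∈ GQ, ∃ t ∈ GR, pi z = s * pia (pa z) * t

lemma good_long {z y : FreeGroup (Fin 8)} (hz : Good z) (hy : ja (pa y) = y) : Good (y * z) := by
  obtain ⟨s, hs, t, ht, h⟩ := hz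
  refine ⟨pi y * s * (pi y)⁻¹, conj_GQ (pi_mem y) hs, t, ht, ?_⟩
  rw [map_mul, h, map_mul, map_mul, pia, MonoidHom.comp_apply, MonoidHom.comp_apply, hy]
  group

lemma good_belt {z : FreeGroup (Fin 8)} (hz : Good z) (i : Fin 4) :
    Good (FreeGroup.of (bl i) * z) := by
  obtain ⟨s, hs, t, ht, h⟩ := hz
  have hg : pia (pa z) ∈ GN := pi_mem _
  have hg' : (pia (pa z))⁻¹ * R i * (pia (pa z)) ∈ GR := by
    have h1 := inv_mem hg
    simp only [GN, Subgroup.mem_inf] at h1
    have h2 := conj_GR h1.1.2 h1.2 (R_mem i)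
    rwa [inv_inv] at h2
  refine ⟨P (bl i) * s * (P (bl i))⁻¹ * Q i, mul_mem (conj_GQ (P_mem _) hs) (Q_mem i),
    (pia (pa z))⁻¹ * R i * (pia (pa z)) * t, mul_mem hg' ht, ?_⟩
  have hpa : pa (FreeGroup.of (bl i) * z) = pa z := by
    rw [map_mul]
    have : pa (FreeGroup.of (bl i)) = 1 := by
      fin_cases i <;> simp [pa, bl]
    rw [this, one_mul]
  rw [hpa, map_mul, pi_of, h, P_bl]
  group

lemma good_belt_inv {z : FreeGroup (Fin 8)} (hz : Good z) (i : Fin 4) :
    Good ((FreeGroup.of (bl i))⁻¹ * z) := by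
  obtain ⟨s, hs, t, ht, h⟩ := hz
  have hg : pia (pa z) ∈ GN := pi_mem _
  -- `P⁻¹ = R⁻¹ Q⁻¹ = (R⁻¹ Q⁻¹ R) R⁻¹`, and `R⁻¹ Q⁻¹ R = P⁻¹ Q⁻¹ P` up to `Q`
  have hR : R i = (Q i)⁻¹ * P (bl i) := by rw [P_bl]; group
  have hQ' : (P (bl i))⁻¹ * (Q i) * P (bl i) ∈ GQ := by
    have := conj_GQ (inv_mem (P_mem (bl i))) (Q_mem i)
    rwa [inv_inv] at this
  have hg' : (pia (pa z))⁻¹ * (R i)⁻¹ * (pia (pa z)) ∈ GR := by
    have h1 := inv_mem hg
    simp only [GN, Subgroup.mem_inf] at h1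
    have h2 := conj_GR h1.1.2 h1.2 (inv_mem (R_mem i))
    rwa [inv_inv] at h2
  refine ⟨(P (bl i))⁻¹ * s * (P (bl i)) * ((P (bl i))⁻¹ * (Q i) * P (bl i))⁻¹, ?_,
    (pia (pa z))⁻¹ * (R i)⁻¹ * (pia (pa z)) * t, mul_mem hg' ht, ?_⟩
  · have h1 := conj_GQ (inv_mem (P_mem (bl i))) hs
    rw [inv_inv] at h1
    exact mul_mem h1 (inv_mem hQ')
  have hpa : pa ((FreeGroup.of (bl i))⁻¹ * z) = pa z := by
    rw [map_mul, map_inv]
    have : pa (FreeGroup.of (bl i)) = 1 := by
      fin_cases i <;> simp [pa, bl]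
    rw [this, inv_one, one_mul]
  rw [hpa, map_mul, map_inv, pi_of, h, P_bl]
  group

lemma fg_left_ind {α : Type*} {C : FreeGroup α → Prop} (h1 : C 1)
    (h2 : ∀ i z, C z → C (FreeGroup.of i * z)) (h3 : ∀ i z, C z → C ((FreeGroup.of i)⁻¹ * z))
    (z : FreeGroup α) : C z := by
  have key : ∀ L : List (α × Bool), C (FreeGroup.mk L) := by
    intro L
    induction L with
    | nil => exact h1
    | cons x L ih =>
      obtain ⟨i, s⟩ := x
      cases s with
      | true => exact h2 i _ ih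
      | false => exact h3 i _ ih
  obtain ⟨L, rfl⟩ := Quot.exists_rep z
  exact key L

lemma all_good (z : FreeGroup (Fin 8)) : Good z := by
  refine fg_left_ind ?_ ?_ ?_ z
  · exact ⟨1, one_mem _, 1, one_mem _, by simp [pia]⟩
  · intro i z hz
    fin_cases i
    · exact good_long hz (by simp [pa, ja])
    · exact good_belt hz 0
    · exact good_long hz (by simp [pa, ja])
    · exact good_belt hz 1
    · exact good_long hz (by simp [pa, ja])
    · exact good_belt hz 2
    · exact good_long hz (by simp [pa, ja])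
    · exact good_belt hz 3
  · intro i z hz
    fin_cases i
    · exact good_long hz (by simp [pa, ja])
    · exact good_belt_inv hz 0
    · exact good_long hz (by simp [pa, ja])
    · exact good_belt_inv hz 1
    · exact good_long hz (by simp [pa, ja])
    · exact good_belt_inv hz 2
    · exact good_long hz (by simp [pa, ja])
    · exact good_belt_inv hz 3

/-! ## Deletion of `x_2` and `x_3` -/

/-- number of the long letter -/
def al (i : Fin 4) : Fin 8 := ![0, 2, 4, 6] i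

lemma pia_of (i : Fin 4) : pia (FreeGroup.of i) = P (al i) := by
  fin_cases i <;> simp [pia, ja, pi_of, al]

lemma k4P : ∀ i : Fin 4, kerChk q4 (tb Tp (al i)) = true := by decide +kernel
lemma k4P' : ∀ i : Fin 4, kerChk q4 (tb Tm (al i)) = true := by decide +kernel
lemma k5P : ∀ i : Fin 4, kerChk q5 (tb Tp (al i)) = true := by decide +kernel
lemma k5P' : ∀ i : Fin 4, kerChk q5 (tb Tm (al i)) = true := by decide +kernel
lemma r4P : ∀ i : Fin 4, rngChk i4 (tb Tp (al i)) (tb Tp4 i) = true := by decide +kernel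
lemma r4P' : ∀ i : Fin 4, rngChk i4 (tb Tm (al i)) (tb Tm4 i) = true := by decide +kernel
lemma r5P : ∀ i : Fin 4, rngChk i5 (tb Tp (al i)) (tb Tp5 i) = true := by decide +kernel
lemma r5P' : ∀ i : Fin 4, rngChk i5 (tb Tm (al i)) (tb Tm5 i) = true := by decide +kernel

/-- the normaliser for the deletion of `x_2`, `x_3` -/
def GM : Subgroup (MulAut (FG 6)) :=
  (stb (hom 6 q4).ker ⊓ stb (hom 6 i4).range) ⊓ (stb (hom 6 q5).ker ⊓ stb (hom 6 i5).range)

lemma pia_mem (z : FreeGroup (Fin 4)) : pia z ∈ GM := by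
  have h : ∀ i, P (al i) ∈ GM := fun i => Subgroup.mem_inf.2
    ⟨Subgroup.mem_inf.2 ⟨mem_stb_ker _ (k4P i) (k4P' i), mem_stb_range _ (r4P i) (r4P' i)⟩,
      Subgroup.mem_inf.2 ⟨mem_stb_ker _ (k5P i) (k5P' i), mem_stb_range _ (r5P i) (r5P' i)⟩⟩
  refine FreeGroup.induction_on z ?_ ?_ ?_ ?_
  · rw [map_one]; exact one_mem _
  · intro i; rw [pia_of]; exact h i
  · intro i _; rw [map_inv, pia_of]; exact inv_mem (h i)
  · intro x y hx hy; rw [map_mul]; exact mul_mem hx hy

lemma P4_mem : P 4 ∈ UU (hom 6 q4) (hom 6 i4) :=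
  mem_UU_of _ (k4P 2) (k4P' 2) (by decide +kernel)

lemma P6_mem : P 6 ∈ UU (hom 6 q5) (hom 6 i5) :=
  mem_UU_of _ (k5P 3) (k5P' 3) (by decide +kernel)

lemma UU4_le : UU (hom 6 q4) (hom 6 i4) ≤ stb kC := fun _ hf =>
  stb_of_UU (i := i4) (r := q4) (by decide +kernel) hf

lemma UU5_le : UU (hom 6 q5) (hom 6 i5) ≤ stb kC := fun _ hf =>
  stb_of_UU (i := i5) (r := q5) (by decide +kernel) hf

/-- conjugates of the pushes along `x_2` and `x_3` by pushes along long words preserve `kC` -/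
lemma conj_kC (z : FreeGroup (Fin 4)) (i : Fin 4) (hi : i = 2 ∨ i = 3) :
    (pia z)⁻¹ * pia (FreeGroup.of i) * pia z ∈ stb kC := by
  have h := inv_mem (pia_mem z)
  simp only [GM, Subgroup.mem_inf] at h
  rw [pia_of]
  rcases hi with rfl | rfl
  · have := conj_mem_UU h.1.1 h.1.2 P4_mem
    rw [inv_inv] at this
    exact UU4_le this
  · have := conj_mem_UU h.2.1 h.2.2 P6_mem
    rw [inv_inv] at this
    exact UU5_le this

/-- the retraction killing `x_2`, `x_3` -/
def pk : FreeGroup (Fin 4) →* FreeGroup (Fin 4) :=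
  FreeGroup.lift ![FreeGroup.of 0, FreeGroup.of 1, 1, 1]

lemma pia_kill (z : FreeGroup (Fin 4)) : ∃ t ∈ stb kC, pia z = pia (pk z) * t := by
  refine fg_left_ind (C := fun z => ∃ t ∈ stb kC, pia z = pia (pk z) * t) ?_ ?_ ?_ z
  · exact ⟨1, one_mem _, by simp⟩
  · rintro i z ⟨t, ht, h⟩
    have h0 : i = 0 ∨ i = 1 ∨ (i = 2 ∨ i = 3) := by omega
    rcases h0 with hi | hi | hi
    · refine ⟨t, ht, ?_⟩
      rw [map_mul, map_mul, h, hi]
      simp [pk, mul_assoc]
    · refine ⟨t, ht, ?_⟩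
      rw [map_mul, map_mul, h, hi]
      simp [pk, mul_assoc]
    · refine ⟨(pia (pk z))⁻¹ * pia (FreeGroup.of i) * pia (pk z) * t,
        mul_mem (conj_kC _ _ hi) ht, ?_⟩
      have hk : pk (FreeGroup.of i) = 1 := by
        rcases hi with rfl | rfl <;> simp [pk]
      rw [map_mul, map_mul, h, hk, one_mul]
      group
  · rintro i z ⟨t, ht, h⟩
    have h0 : i = 0 ∨ i = 1 ∨ (i = 2 ∨ i = 3) := by omega
    rcases h0 with hi | hi | hi
    · refine ⟨t, ht, ?_⟩
      rw [map_mul, map_mul, h, hi]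
      simp [pk, mul_assoc]
    · refine ⟨t, ht, ?_⟩
      rw [map_mul, map_mul, h, hi]
      simp [pk, mul_assoc]
    · refine ⟨((pia (pk z))⁻¹ * pia (FreeGroup.of i) * pia (pk z))⁻¹ * t,
        mul_mem (inv_mem (conj_kC _ _ hi)) ht, ?_⟩
      have hk : pk (FreeGroup.of i) = 1 := by
        rcases hi with rfl | rfl <;> simp [pk]
      rw [map_mul, map_mul, map_inv, map_inv, h, hk, inv_one, one_mul]
      group

end Pool.Agent.Pfc0641.W
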