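import Mathlib
import Pool.Agent.Lib.Pfc0641.Stable

/-!
# Naturality for the foot pushes `E i`, the isomorphism of the two group trisections of genus 6,
# and the dual pair.
-/

namespace Pool.Agent.Pfc0641.W

/-- generators of `FreeGroup (Fin 8)` -/
def ff0 (n : ℕ) : FreeGroup (Fin 8) := FreeGroup.of (Fin.ofNat 8 n)

/-- generators and the two words `t_2`, `t_3` -/
def ff1 (n : ℕ) : FreeGroup (Fin 8) :=
  bif Nat.blt n 8 then ff0 n else val ff0 (gw.getD (n - 8) [])

/-- generators, the two words `t_2`, `t_3`, and four commutators -/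
def ff (n : ℕ) : FreeGroup (Fin 8) :=
  bif Nat.blt n 10 then ff1 n else val ff1 (gw.getD (n - 8) [])

/-- the lifted table of a letter -/
def tl (m : ℕ) : List (List ℕ) :=
  bif Nat.blt m 16 then (bif m % 2 == 0 then tb Hp (m / 2) else tb Hm (m / 2))
  else (bif m % 2 == 0 then tb HG (m / 2 - 8) else tb HGi (m / 2 - 8))

/-- the lifted table of a word, with a starting table -/
def tpi (u : List ℕ) (T : List (List ℕ)) : List (List ℕ) := u.foldr (fun m T => tc 6 (tl m) T) T

lemma tl_length : ∀ m : Fin 28, (tl m).length ≤ 2 * 6 := by decide +kernel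

/-- `pi z` is covered by the table `T` under `hh` -/
def Cov (z : FreeGroup (Fin 8)) (T : List (List ℕ)) : Prop :=
  ∀ x, pi z (hom 6 hh x) = hom 6 hh (hom 6 T x)

lemma cov_word {r : ℕ → FreeGroup (Fin 8)} {k : ℕ} (hk : k ≤ 28)
    (h : ∀ m < k, Cov (lv r m) (tl m)) (u : List ℕ) (hu : ∀ m ∈ u, m < k)
    (T : List (List ℕ)) (x : FG 6) :
    pi (val r u) (hom 6 hh (hom 6 T x)) = hom 6 hh (hom 6 (tpi u T) x) := by
  induction u with
  | nil =>
    show pi 1 _ = _
    rw [map_one]
    rfl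
  | cons m u ih =>
    have h1 : tpi (m :: u) T = tc 6 (tl m) (tpi u T) := rfl
    have hm := hu m List.mem_cons_self
    have hl := tl_length ⟨m, hm.trans_le hk⟩
    rw [val_cons, map_mul, h1, hom_tc hl, MulAut.mul_apply, MonoidHom.comp_apply,
      ih fun n hn => hu n (List.mem_cons_of_mem _ hn), h m hm]

lemma cov_word' {r : ℕ → FreeGroup (Fin 8)} {k : ℕ} (hk : k ≤ 28)
    (h : ∀ m < k, Cov (lv r m) (tl m)) (u : List ℕ) (hu : ∀ m ∈ u, m < k) :
    Cov (val r u) (tpi u (idt 6)) := by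
  intro x
  have := cov_word hk h u hu (idt 6) x
  rwa [hom_idt] at this

lemma hPH : ∀ i : Fin 8, tc 6 (tb Tp i) hh = tc 6 hh (tb Hp i) := by decide +kernel
lemma hMH : ∀ i : Fin 8, tc 6 (tb Tm i) hh = tc 6 hh (tb Hm i) := by decide +kernel
lemma hEH : ∀ i : Fin 4, tc 6 (tb TE i) hh = tc 6 hh (tb HE i) := by decide +kernel
lemma hh_len : hh.length ≤ 2 * 6 := by decide
lemma P_len (i : Fin 8) : (tb Tp i).length ≤ 2 * 6 := invt_len (invP i)
lemma M_len (i : Fin 8) : (tb Tm i).length ≤ 2 * 6 := invt_len (invt_symm (invP i))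
lemma E_len (i : Fin 4) : (tb TE i).length ≤ 2 * 6 := invt_len (invE i)

lemma cov0 (m : ℕ) (hm : m < 16) : Cov (lv ff0 m) (tl m) := by
  intro x
  have h8 : m / 2 < 8 := by omega
  have hb : Nat.blt m 16 = true := by simpa [Nat.blt_eq] using hm
  have h : ff0 (m / 2) = FreeGroup.of ⟨m / 2, h8⟩ := by
    rw [ff0]
    congr 1
    apply Fin.ext
    show m / 2 % 8 = m / 2
    omega
  unfold lv tl
  rw [h, hb]
  cases (m % 2 == 0) with
  | true =>
    simp only [cond_true, pi_of]
    show hom 6 (tb Tp (m / 2)) (hom 6 hh x) = _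
    have := hPH ⟨m / 2, h8⟩
    rw [← MonoidHom.comp_apply, ← hom_tc (P_len ⟨m / 2, h8⟩), this, hom_tc hh_len]
    rfl
  | false =>
    simp only [cond_false, cond_true, map_inv, pi_of]
    show hom 6 (tb Tm (m / 2)) (hom 6 hh x) = _
    have := hMH ⟨m / 2, h8⟩
    rw [← MonoidHom.comp_apply, ← hom_tc (M_len ⟨m / 2, h8⟩), this, hom_tc hh_len]
    rfl

lemma gw_lt : ∀ i : Fin 6, ∀ m ∈ gw.getD i [], m < (if i.1 < 2 then 16 else 20) := by
  decide +kernel

lemma gw_lt' : ∀ i : Fin 6, ∀ m ∈ invw (gw.getD i []), m < (if i.1 < 2 then 16 else 20) := by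
  decide +kernel

lemma tG : ∀ i : Fin 6, tpi (gw.getD i []) (idt 6) = tb HG i := by decide +kernel
lemma tGi : ∀ i : Fin 6, tpi (invw (gw.getD i [])) (idt 6) = tb HGi i := by decide +kernel

lemma cov1 (m : ℕ) (hm : m < 20) : Cov (lv ff1 m) (tl m) := by
  by_cases h16 : m < 16
  · have h8 : m / 2 < 8 := by omega
    have hb : Nat.blt (m / 2) 8 = true := by simpa [Nat.blt_eq] using h8
    have : lv ff1 m = lv ff0 m := by
      unfold lv ff1
      rw [hb, cond_true]
    rw [this]
    exact cov0 m h16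
  · have h8 : ¬ m / 2 < 8 := by omega
    have hb : Nat.blt (m / 2) 8 = false := by
      rw [Bool.eq_false_iff]
      simpa [Nat.blt_eq] using h8
    have hb' : Nat.blt m 16 = false := by
      rw [Bool.eq_false_iff]
      simpa [Nat.blt_eq] using h16
    have hk : m / 2 - 8 < 6 := by omega
    have hk2 : m / 2 - 8 < 2 := by omega
    have hlt := gw_lt ⟨m / 2 - 8, hk⟩
    have hlt' := gw_lt' ⟨m / 2 - 8, hk⟩
    simp only [hk2, if_true] at hlt hlt'
    unfold lv tl ff1
    rw [hb, hb', cond_false]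
    cases (m % 2 == 0) with
    | true =>
      simp only [cond_true, cond_false]
      have := cov_word' (by norm_num) cov0 _ hlt
      have e : tpi (gw.getD (m / 2 - 8) []) (idt 6) = tb HG (m / 2 - 8) := tG ⟨m / 2 - 8, hk⟩
      rwa [e] at this
    | false =>
      simp only [cond_true, cond_false]
      rw [← val_invw]
      have := cov_word' (by norm_num) cov0 _ hlt'
      have e : tpi (invw (gw.getD (m / 2 - 8) [])) (idt 6) = tb HGi (m / 2 - 8) :=
        tGi ⟨m / 2 - 8, hk⟩
      rwa [e] at this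

lemma cov2 (m : ℕ) (hm : m < 28) : Cov (lv ff m) (tl m) := by
  by_cases h20 : m < 20
  · have h10 : m / 2 < 10 := by omega
    have hb : Nat.blt (m / 2) 10 = true := by simpa [Nat.blt_eq] using h10
    have : lv ff m = lv ff1 m := by
      unfold lv ff
      rw [hb, cond_true]
    rw [this]
    exact cov1 m h20
  · have h10 : ¬ m / 2 < 10 := by omega
    have hb : Nat.blt (m / 2) 10 = false := by
      rw [Bool.eq_false_iff]
      simpa [Nat.blt_eq] using h10
    have hb' : Nat.blt m 16 = false := by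
      rw [Bool.eq_false_iff]
      have : ¬ m < 16 := by omega
      simpa [Nat.blt_eq] using this
    have hk : m / 2 - 8 < 6 := by omega
    have hk2 : ¬ m / 2 - 8 < 2 := by omega
    have hlt := gw_lt ⟨m / 2 - 8, hk⟩
    have hlt' := gw_lt' ⟨m / 2 - 8, hk⟩
    simp only [hk2, if_false] at hlt hlt'
    unfold lv tl ff
    rw [hb, hb', cond_false]
    cases (m % 2 == 0) with
    | true =>
      simp only [cond_true, cond_false]
      have := cov_word' (by norm_num) cov1 _ hlt
      have e : tpi (gw.getD (m / 2 - 8) []) (idt 6) = tb HG (m / 2 - 8) := tG ⟨m / 2 - 8, hk⟩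
      rwa [e] at this
    | false =>
      simp only [cond_true, cond_false]
      rw [← val_invw]
      have := cov_word' (by norm_num) cov1 _ hlt'
      have e : tpi (invw (gw.getD (m / 2 - 8) [])) (idt 6) = tb HGi (m / 2 - 8) :=
        tGi ⟨m / 2 - 8, hk⟩
      rwa [e] at this

/-- image of the long letter `x` under the foot push `E i`, as a word -/
def epw (i x : ℕ) : List ℕ := (eps2.getD i []).getD x []

/-- the action of the foot push `E i` on long words -/
def ep (i : Fin 4) : FreeGroup (Fin 4) →* FreeGroup (Fin 8) :=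
  FreeGroup.lift fun x => val ff (epw i x)

lemma epw_lt : ∀ i x : Fin 4, ∀ m ∈ epw i x, m < 28 := by decide +kernel

lemma E_nat : ∀ i x : Fin 4, tc 6 (tb HE i) (tb Hp (al x)) = tpi (epw i x) (tb HE i) := by
  decide +kernel

lemma HE_len : ∀ i : Fin 4, (tb HE i).length ≤ 2 * 6 := by decide +kernel

/-- an automorphism is determined by its values on `d` and on the range of `hh` -/
lemma eq_of_hh {f g : MulAut (FG 6)} (h0 : f (gn 6 0) = g (gn 6 0))
    (h1 : ∀ x, f (hom 6 hh x) = g (hom 6 hh x)) : f = g := by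
  have key : ∀ n < 12, 0 < n → sub hh (if n = 1 then [4, 2] else [2 * n]) = [2 * n] := by
    decide +kernel
  have h2 : f.toMonoidHom = g.toMonoidHom := by
    refine hom_ext' fun n hn => ?_
    by_cases hn0 : n = 0
    · rw [hn0]; exact h0
    · have h3 := key n hn (Nat.pos_of_ne_zero hn0)
      have h4 := hom_val hh_len (if n = 1 then [4, 2] else [2 * n])
      rw [h3, val_cons, val_nil, mul_one, lv_even] at h4
      rw [← h4]
      exact h1 _
  apply MulEquiv.ext
  intro x
  exact DFunLike.congr_fun h2 x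

lemma P_zero (i : Fin 8) : P i (gn 6 0) = gn 6 0 := by
  have h : ∀ i : Fin 8, (tb Tp i).getD 0 [] = [0] := by decide
  show hom 6 (tb Tp i) (gn 6 0) = _
  rw [hom_gn _ _ (by norm_num), h i, val_cons, val_nil, mul_one]
  exact lv_even _ 0

lemma E_zero (i : Fin 4) : E i (gn 6 0) = gn 6 0 := by
  have h : ∀ i : Fin 4, (tb TE i).getD 0 [] = [0] := by decide
  show hom 6 (tb TE i) (gn 6 0) = _
  rw [hom_gn _ _ (by norm_num), h i, val_cons, val_nil, mul_one]
  exact lv_even _ 0

lemma pi_zero (z : FreeGroup (Fin 8)) : pi z (gn 6 0) = gn 6 0 := by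
  have h : pi z ∈ fixS (gn 6 0) := by
    refine FreeGroup.induction_on z ?_ ?_ ?_ ?_
    · rw [map_one]; exact one_mem _
    · intro i; rw [pi_of]; exact P_zero i
    · intro i _; rw [map_inv, pi_of]; exact inv_mem (show P i ∈ fixS _ from P_zero i)
    · intro x y hx hy; rw [map_mul]; exact mul_mem hx hy
  exact h

lemma E_conj_of (i x : Fin 4) : E i * P (al x) = pi (val ff (epw i x)) * E i := by
  refine eq_of_hh ?_ fun y => ?_
  · rw [MulAut.mul_apply, P_zero, E_zero, MulAut.mul_apply, E_zero, pi_zero]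
  · have hE : ∀ y, E i (hom 6 hh y) = hom 6 hh (hom 6 (tb HE i) y) := by
      intro y
      show hom 6 (tb TE i) (hom 6 hh y) = _
      rw [← MonoidHom.comp_apply, ← hom_tc (E_len i), hEH, hom_tc hh_len]
      rfl
    have hP : P (al x) (hom 6 hh y) = hom 6 hh (hom 6 (tb Hp (al x)) y) := by
      show hom 6 (tb Tp (al x)) (hom 6 hh y) = _
      rw [← MonoidHom.comp_apply, ← hom_tc (P_len _), hPH, hom_tc hh_len]
      rfl
    rw [MulAut.mul_apply, MulAut.mul_apply, hP, hE, hE,
      cov_word (le_refl 28) cov2 _ (epw_lt i x), ← E_nat, hom_tc (HE_len i)]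
    rfl

lemma E_conj (i : Fin 4) (z : FreeGroup (Fin 4)) : E i * pia z * (E i)⁻¹ = pi (ep i z) := by
  have h : ((MulAut.conj (E i)).toMonoidHom.comp pia) = pi.comp (ep i) := by
    apply FreeGroup.ext_hom
    intro x
    show E i * pia (FreeGroup.of x) * (E i)⁻¹ = pi (ep i (FreeGroup.of x))
    rw [pia_of, E_conj_of, mul_assoc, mul_inv_cancel, mul_one, ep, FreeGroup.lift_apply_of]
  exact DFunLike.congr_fun h z

/-- words in `x_1`, `y` -/
def e2 : FreeGroup (Fin 2) →* FreeGroup (Fin 4) := FreeGroup.lift ![FreeGroup.of 0, FreeGroup.of 1]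

/-- words in `x_1`, `x_2`, `x_3` -/
def e3 : FreeGroup (Fin 3) →* FreeGroup (Fin 4) :=
  FreeGroup.lift ![FreeGroup.of 0, FreeGroup.of 2, FreeGroup.of 3]

/-- substitution `x_2 ↦ u x_2`, `x_3 ↦ u' x_3` -/
def sbh (u u' : FreeGroup (Fin 2)) : FreeGroup (Fin 4) →* FreeGroup (Fin 4) :=
  FreeGroup.lift ![FreeGroup.of 0, FreeGroup.of 1, e2 u * FreeGroup.of 2, e2 u' * FreeGroup.of 3]

lemma sbh_e2 (u u' v : FreeGroup (Fin 2)) : sbh u u' (e2 v) = e2 v := by
  have h : (sbh u u').comp e2 = e2 := by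
    apply FreeGroup.ext_hom
    intro x
    fin_cases x <;> simp [sbh, e2]
  exact DFunLike.congr_fun h v

lemma sbh_comp (u u' v v' : FreeGroup (Fin 2)) :
    (sbh u u').comp (sbh v v') = sbh (v * u) (v' * u') := by
  apply FreeGroup.ext_hom
  intro x
  rw [MonoidHom.comp_apply]
  have h2 : sbh u u' (FreeGroup.of 2) = e2 u * FreeGroup.of 2 := by simp [sbh]
  have h3 : sbh u u' (FreeGroup.of 3) = e2 u' * FreeGroup.of 3 := by simp [sbh]
  fin_cases x
  · simp [sbh]
  · simp [sbh]
  · show sbh u u' (sbh v v' (FreeGroup.of 2)) = sbh (v * u) (v' * u') (FreeGroup.of 2)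
    have e : sbh v v' (FreeGroup.of 2) = e2 v * FreeGroup.of 2 := by simp [sbh]
    have e' : sbh (v * u) (v' * u') (FreeGroup.of 2) = e2 (v * u) * FreeGroup.of 2 := by
      simp [sbh]
    rw [e, e', map_mul, sbh_e2, h2, map_mul, mul_assoc]
  · show sbh u u' (sbh v v' (FreeGroup.of 3)) = sbh (v * u) (v' * u') (FreeGroup.of 3)
    have e : sbh v v' (FreeGroup.of 3) = e2 v' * FreeGroup.of 3 := by simp [sbh]
    have e' : sbh (v * u) (v' * u') (FreeGroup.of 3) = e2 (v' * u') * FreeGroup.of 3 := by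
      simp [sbh]
    rw [e, e', map_mul, sbh_e2, h3, map_mul, mul_assoc]

lemma sbh_one : sbh 1 1 = MonoidHom.id _ := by
  apply FreeGroup.ext_hom
  intro x
  fin_cases x <;> simp [sbh]

/-- the substitution as an automorphism -/
def sb (u u' : FreeGroup (Fin 2)) : MulAut (FreeGroup (Fin 4)) :=
  MonoidHom.toMulEquiv (sbh u u') (sbh u⁻¹ u'⁻¹)
    (by rw [sbh_comp, mul_inv_cancel, mul_inv_cancel, sbh_one])
    (by rw [sbh_comp, inv_mul_cancel, inv_mul_cancel, sbh_one])

lemma sb_apply (u u' : FreeGroup (Fin 2)) (z : FreeGroup (Fin 4)) : sb u u' z = sbh u u' z := rfl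

lemma sb_mul (u u' v v' : FreeGroup (Fin 2)) : sb u u' * sb v v' = sb (v * u) (v' * u') := by
  apply MulEquiv.ext
  intro z
  show sbh u u' (sbh v v' z) = sbh _ _ z
  rw [← sbh_comp]
  rfl

lemma sb_one : sb 1 1 = 1 := by
  apply MulEquiv.ext
  intro z
  show sbh 1 1 z = z
  rw [sbh_one]
  rfl

lemma sb_inv (u u' : FreeGroup (Fin 2)) : (sb u u')⁻¹ = sb u⁻¹ u'⁻¹ := by
  rw [inv_eq_iff_mul_eq_one, sb_mul, inv_mul_cancel, inv_mul_cancel, sb_one]

/-- the words `x_1`, `y` used by the four foot pushes -/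
def eu (i : Fin 4) : FreeGroup (Fin 2) × FreeGroup (Fin 2) :=
  ![(FreeGroup.of 0, 1), (FreeGroup.of 1, 1), (1, FreeGroup.of 0), (1, FreeGroup.of 1)] i

lemma pa_ep (i : Fin 4) (z : FreeGroup (Fin 4)) : pa (ep i z) = sb (eu i).1 (eu i).2 z := by
  have h : pa.comp (ep i) = sbh (eu i).1 (eu i).2 := by
    apply FreeGroup.ext_hom
    intro x
    have h1 : ∀ i x : Fin 4, pa (val ff (epw i x)) = sbh (eu i).1 (eu i).2 (FreeGroup.of x) := by
      decide +kernel
    rw [MonoidHom.comp_apply, ep, FreeGroup.lift_apply_of]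
    exact h1 i x
  exact DFunLike.congr_fun h z

end Pool.Agent.Pfc0641.W
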