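import Mathlib
import Pool.Agent.Lib.Brouwer.Brouwer

/-!
A continuous nonvanishing plane vector field on the closed unit disc cannot be parallel to the
radial direction at every point of the boundary circle.
-/

namespace Pool.Agent.Pfc0641

open Metric Set
open Pool.Agent.Lib.Brouwer (brouwer_closedBall)

theorem no_radial_field (F : ℝ × ℝ → ℝ × ℝ)
    (hF : ContinuousOn F {p : ℝ × ℝ | p.1 ^ 2 + p.2 ^ 2 ≤ 1})
    (h0 : ∀ p : ℝ × ℝ, p.1 ^ 2 + p.2 ^ 2 ≤ 1 → F p ≠ 0)
    (hb : ∀ p : ℝ × ℝ, p.1 ^ 2 + p.2 ^ 2 = 1 → p.1 * (F p).2 - p.2 * (F p).1 = 0) : False := by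
  have hball : ∀ z : ℂ, z ∈ closedBall (0 : ℂ) 1 ↔ z.re ^ 2 + z.im ^ 2 ≤ 1 := by
    intro z
    rw [mem_closedBall_zero_iff, ← sq_le_one_iff₀ (norm_nonneg z), Complex.sq_norm,
      Complex.normSq_apply]
    constructor <;> intro h <;> nlinarith
  have hsph : ∀ z : ℂ, z ∈ sphere (0 : ℂ) 1 ↔ z.re ^ 2 + z.im ^ 2 = 1 := by
    intro z
    have h1 : z.re ^ 2 + z.im ^ 2 = ‖z‖ ^ 2 := by
      rw [Complex.sq_norm, Complex.normSq_apply]; ring
    rw [mem_sphere_zero_iff_norm, h1]
    constructor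
    · intro h; rw [h]; norm_num
    · intro h
      have h2 := norm_nonneg z
      nlinarith
  set f : ℂ → ℂ := fun z => ⟨(F (z.re, z.im)).1, (F (z.re, z.im)).2⟩ with hf
  have hcF : ContinuousOn (fun z : ℂ => F (z.re, z.im)) (closedBall (0 : ℂ) 1) := by
    refine hF.comp (Continuous.continuousOn (by fun_prop)) ?_
    intro z hz
    exact (hball z).1 hz
  have hcf : ContinuousOn f (closedBall (0 : ℂ) 1) := by
    have h1 : f = fun z => (((F (z.re, z.im)).1 : ℝ) : ℂ) +
        (((F (z.re, z.im)).2 : ℝ) : ℂ) * Complex.I := by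
      funext z
      apply Complex.ext <;> simp [hf]
    rw [h1]
    have h2 := hcF.fst
    have h3 := hcF.snd
    exact (Complex.continuous_ofReal.comp_continuousOn h2).add
      ((Complex.continuous_ofReal.comp_continuousOn h3).mul continuousOn_const)
  have hf0 : ∀ z ∈ closedBall (0 : ℂ) 1, f z ≠ 0 := by
    intro z hz h
    apply h0 (z.re, z.im) ((hball z).1 hz)
    have h1 := congrArg Complex.re h
    have h2 := congrArg Complex.im h
    exact Prod.ext h1 h2
  set μ : ℂ → ℝ := fun z => z.re * (f z).re + z.im * (f z).im with hμ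
  have hfμ : ∀ z ∈ sphere (0 : ℂ) 1, f z = (μ z : ℂ) * z := by
    intro z hz
    have h1 := (hsph z).1 hz
    have h2 : z.re * (f z).im - z.im * (f z).re = 0 := hb (z.re, z.im) h1
    apply Complex.ext
    · simp only [Complex.mul_re, Complex.ofReal_re, Complex.ofReal_im, hμ, zero_mul, sub_zero]
      linear_combination (-(f z).re) * h1 - z.im * h2
    · simp only [Complex.mul_im, Complex.ofReal_re, Complex.ofReal_im, hμ, zero_mul, add_zero]
      linear_combination (-(f z).im) * h1 + z.re * h2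
  have hcμ : ContinuousOn μ (sphere (0 : ℂ) 1) := by
    have h1 := hcf.mono (sphere_subset_closedBall (x := (0 : ℂ)) (ε := 1))
    exact (Complex.continuous_re.continuousOn.mul (Complex.continuous_re.comp_continuousOn h1)).add
      (Complex.continuous_im.continuousOn.mul (Complex.continuous_im.comp_continuousOn h1))
  have hμ0 : ∀ z ∈ sphere (0 : ℂ) 1, μ z ≠ 0 := by
    intro z hz h
    apply hf0 z (sphere_subset_closedBall hz)
    rw [hfμ z hz, h]
    simp
  have hconn : IsPreconnected (sphere (0 : ℂ) 1) :=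
    isPreconnected_sphere (by rw [Complex.rank_real_complex]; norm_num) 0 1
  have h1mem : (1 : ℂ) ∈ sphere (0 : ℂ) 1 := by simp
  -- the sign
  obtain ⟨ε, hε, hεμ⟩ : ∃ ε : ℝ, |ε| = 1 ∧ ∀ z ∈ sphere (0 : ℂ) 1, 0 < ε * μ z := by
    rcases lt_or_gt_of_ne (hμ0 1 h1mem) with h | h
    · refine ⟨-1, by simp, fun z hz => ?_⟩
      by_contra hcon
      push Not at hcon
      have h2 : 0 < μ z := lt_of_le_of_ne (by linarith) (hμ0 z hz).symm
      obtain ⟨w, hw, hw0⟩ := hconn.intermediate_value h1mem hz hcμ ⟨h.le, h2.le⟩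
      exact hμ0 w hw hw0
    · refine ⟨1, by simp, fun z hz => ?_⟩
      by_contra hcon
      push Not at hcon
      have h2 : μ z < 0 := lt_of_le_of_ne (by linarith) (hμ0 z hz)
      obtain ⟨w, hw, hw0⟩ := hconn.intermediate_value hz h1mem hcμ ⟨h2.le, h.le⟩
      exact hμ0 w hw hw0
  obtain ⟨p, hp, hpf⟩ := brouwer_closedBall (E := ℂ) zero_le_one
    (fun z => (((-ε) / ‖f z‖ : ℝ) : ℂ) * f z)
    (by
      refine ContinuousOn.mul (Complex.continuous_ofReal.comp_continuousOn ?_) hcf
      exact continuousOn_const.div hcf.norm fun z hz => norm_ne_zero_iff.2 (hf0 z hz))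
    (by
      intro z hz
      rw [mem_closedBall_zero_iff, norm_mul, Complex.norm_real, Real.norm_eq_abs, abs_div, abs_neg,
        hε, abs_norm, one_div, inv_mul_cancel₀ (norm_ne_zero_iff.2 (hf0 z hz))])
  have hnorm : ‖p‖ = 1 := by
    rw [← hpf]
    rw [norm_mul, Complex.norm_real, Real.norm_eq_abs, abs_div, abs_neg,
        hε, abs_norm, one_div, inv_mul_cancel₀ (norm_ne_zero_iff.2 (hf0 p hp))]
  have hps : p ∈ sphere (0 : ℂ) 1 := by simpa using hnorm
  have hpos := hεμ p hps
  have hnf : ‖f p‖ = ε * μ p := by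
    rw [hfμ p hps, norm_mul, hnorm, mul_one, Complex.norm_real, Real.norm_eq_abs,
      ← abs_of_pos hpos, abs_mul, hε, one_mul]
  rw [hnf, hfμ p hps, ← mul_assoc, ← Complex.ofReal_mul] at hpf
  have hval : -ε / (ε * μ p) * μ p = -1 := by
    have hε0 : ε ≠ 0 := by intro h; rw [h] at hε; simp at hε
    have hm := hμ0 p hps
    field_simp
  rw [hval] at hpf
  have hp0 : p = 0 := by
    have : (2 : ℂ) * p = 0 := by
      push_cast at hpf
      linear_combination -hpf
    simpa using this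
  rw [hp0] at hnorm
  simp at hnorm

end Pool.Agent.Pfc0641
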