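import Mathlib
import Pool.Agent.Lib.Pfc0641.Topo

/-!
MODULE Pfc0641.Irred  (MP_fc0641_gt).

For `U, V > 0` let `rho U V : FreeGroup (Fin 3) → affine maps of ℝ`,
`x_0 ↦ (t ↦ U t)`, `x_1 ↦ (t ↦ V t + (2 - U))`, `x_2 ↦ (t ↦ t + (U-1)(V-1))`.
Theorem: a primitive element `z` (a member of a free basis) of `FreeGroup (Fin 3)` is not killed by
all `rho U V` with `(U,V)` on the circle `2 (U-2)^2 + 2 (V-1)^2 = 1`.

The proof uses the crossed homomorphism `Dd q` (`q = (log U, log V)`) and `no_radial_field`.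
-/

namespace Pool.Agent.Pfc0641

/-- The affine map `t ↦ c t + s` of the real line, `c > 0`. -/
noncomputable def afp (c s : ℝ) (hc : 0 < c) : Equiv.Perm ℝ where
  toFun t := c * t + s
  invFun t := c⁻¹ * (t - s)
  left_inv t := by field_simp; ring
  right_inv t := by field_simp; ring

/-- `x_0 ↦ (U;0)`, `x_1 ↦ (V;2-U)`, `x_2 ↦ (1;(U-1)(V-1))`. -/
noncomputable def rho (U V : ℝ) (hU : 0 < U) (hV : 0 < V) :
    FreeGroup (Fin 3) →* Equiv.Perm ℝ :=
  FreeGroup.lift ![afp U 0 hU, afp V (2 - U) hV, afp 1 ((U - 1) * (V - 1)) one_pos]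

/-- exponent sums -/
def esum (j : Fin 3) : FreeGroup (Fin 3) →* Multiplicative ℤ :=
  FreeGroup.lift fun i => if i = j then Multiplicative.ofAdd 1 else 1

/-- the logarithm of the dilation factor, `q = (log U, log V)` -/
noncomputable def lch (q : ℝ × ℝ) (w : FreeGroup (Fin 3)) : ℝ :=
  ((esum 0 w).toAdd : ℝ) * q.1 + ((esum 1 w).toAdd : ℝ) * q.2

lemma lch_one (q : ℝ × ℝ) : lch q 1 = 0 := by simp [lch]

lemma lch_mul (q : ℝ × ℝ) (v w : FreeGroup (Fin 3)) : lch q (v * w) = lch q v + lch q w := by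
  simp only [lch, map_mul, toAdd_mul]
  push_cast
  ring

lemma lch_inv (q : ℝ × ℝ) (w : FreeGroup (Fin 3)) : lch q w⁻¹ = - lch q w := by
  simp only [lch, map_inv, toAdd_inv]
  push_cast
  ring

lemma lch_of (q : ℝ × ℝ) (i : Fin 3) : lch q (FreeGroup.of i) = ![q.1, q.2, 0] i := by
  fin_cases i <;> simp [lch, esum]

/-- the dilation factor -/
noncomputable def chi (q : ℝ × ℝ) (w : FreeGroup (Fin 3)) : ℝ := Real.exp (lch q w)

lemma chi_pos (q : ℝ × ℝ) (w : FreeGroup (Fin 3)) : 0 < chi q w := Real.exp_pos _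

lemma chi_mul (q : ℝ × ℝ) (v w : FreeGroup (Fin 3)) : chi q (v * w) = chi q v * chi q w := by
  rw [chi, lch_mul, Real.exp_add]; rfl

lemma chi_one (q : ℝ × ℝ) : chi q 1 = 1 := by rw [chi, lch_one, Real.exp_zero]

lemma chi_inv (q : ℝ × ℝ) (w : FreeGroup (Fin 3)) : chi q w⁻¹ = (chi q w)⁻¹ := by
  rw [chi, lch_inv, Real.exp_neg]; rfl

lemma chi_cont (w : FreeGroup (Fin 3)) : Continuous fun q => chi q w := by
  unfold chi lch
  fun_prop

/-- an affine bijection of three-space -/
noncomputable def P3 (c : ℝ) (v : Fin 3 → ℝ) : Equiv.Perm (Fin 3 → ℝ) where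
  toFun t := Real.exp c • t + v
  invFun t := Real.exp (-c) • (t - v)
  left_inv t := by
    show Real.exp (-c) • ((Real.exp c • t + v) - v) = t
    rw [add_sub_cancel_right, smul_smul, ← Real.exp_add]
    simp
  right_inv t := by
    show Real.exp c • (Real.exp (-c) • (t - v)) + v = t
    rw [smul_smul, ← Real.exp_add]
    simp

/-- the universal affine representation -/
noncomputable def Phi (q : ℝ × ℝ) : FreeGroup (Fin 3) →* Equiv.Perm (Fin 3 → ℝ) :=
  FreeGroup.lift fun i => P3 (![q.1, q.2, 0] i) (Pi.single i 1)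

/-- the crossed homomorphism -/
noncomputable def Dd (q : ℝ × ℝ) (w : FreeGroup (Fin 3)) : Fin 3 → ℝ := Phi q w 0

lemma Phi_apply (q : ℝ × ℝ) (w : FreeGroup (Fin 3)) :
    ∀ t, Phi q w t = chi q w • t + Dd q w := by
  have hinv : ∀ w, (∀ t, Phi q w t = chi q w • t + Dd q w) →
      ∀ t, Phi q w⁻¹ t = chi q w⁻¹ • t + Dd q w⁻¹ := by
    intro w hw
    have h1 : ∀ t, Phi q w⁻¹ t = (chi q w)⁻¹ • (t - Dd q w) := by
      intro t
      rw [map_inv, Equiv.Perm.inv_eq_iff_eq, hw, smul_smul, mul_inv_cancel₀ (chi_pos q w).ne',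
        one_smul, sub_add_cancel]
    intro t
    rw [Dd, h1, h1, chi_inv, smul_sub, smul_sub, smul_zero]
    abel
  have hof : ∀ i : Fin 3, ∀ t, Phi q (FreeGroup.of i) t =
      chi q (FreeGroup.of i) • t + Dd q (FreeGroup.of i) := by
    intro i t
    rw [Dd, chi, lch_of]
    simp only [Phi, FreeGroup.lift_apply_of, P3, Equiv.coe_fn_mk]
    rw [smul_zero, zero_add]
  refine FreeGroup.induction_on w ?_ (fun i => hof i) (fun i _ => hinv _ (hof i)) ?_
  · intro t
    rw [Dd, map_one, chi_one]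
    simp
  · intro v w hv hw t
    rw [Dd, map_mul, Equiv.Perm.mul_apply, Equiv.Perm.mul_apply, hw, hv, hw, hv, chi_mul]
    rw [smul_zero, zero_add, smul_add, smul_smul]
    abel

lemma Dd_one (q : ℝ × ℝ) : Dd q 1 = 0 := by
  rw [Dd, map_one]; rfl

lemma Dd_mul (q : ℝ × ℝ) (v w : FreeGroup (Fin 3)) :
    Dd q (v * w) = Dd q v + chi q v • Dd q w := by
  have h : Dd q (v * w) = Phi q v (Dd q w) := by
    rw [Dd, map_mul, Equiv.Perm.mul_apply]; rfl
  rw [h, Phi_apply, add_comm]

lemma Dd_inv (q : ℝ × ℝ) (w : FreeGroup (Fin 3)) : Dd q w⁻¹ = -((chi q w)⁻¹ • Dd q w) := by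
  have h := Dd_mul q w⁻¹ w
  rw [inv_mul_cancel, Dd_one, chi_inv] at h
  exact eq_neg_of_add_eq_zero_left h.symm

lemma Dd_of (q : ℝ × ℝ) (i : Fin 3) : Dd q (FreeGroup.of i) = Pi.single i 1 := by
  simp only [Dd, Phi, FreeGroup.lift_apply_of, P3, Equiv.coe_fn_mk]
  rw [smul_zero, zero_add]

/-- induction principle for free groups with all inverses -/
lemma fg_induction {C : FreeGroup (Fin 3) → Prop} (h1 : C 1)
    (hof : ∀ i, C (FreeGroup.of i)) (hinv : ∀ w, C w → C w⁻¹)
    (hmul : ∀ v w, C v → C w → C (v * w)) (w : FreeGroup (Fin 3)) : C w :=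
  FreeGroup.induction_on w h1 (fun i => hof i) (fun i _ => hinv _ (hof i)) hmul

lemma Dd_cont (w : FreeGroup (Fin 3)) : Continuous fun q => Dd q w := by
  refine fg_induction (C := fun w => Continuous fun q => Dd q w) ?_ ?_ ?_ ?_ w
  · simp only [Dd_one]; exact continuous_const
  · intro i
    simp only [Dd_of]; exact continuous_const
  · intro w hw
    simp only [Dd_inv]
    exact (((chi_cont w).inv₀ (fun q => (chi_pos q w).ne')).smul hw).neg
  · intro v w hv hw
    simp only [Dd_mul]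
    exact hv.add ((chi_cont v).smul hw)

/-- second part of (1) of the sketch -/
lemma Dd_dot (q : ℝ × ℝ) (w : FreeGroup (Fin 3)) :
    Dd q w 0 * (Real.exp q.1 - 1) + Dd q w 1 * (Real.exp q.2 - 1) = chi q w - 1 := by
  refine fg_induction (C := fun w => Dd q w 0 * (Real.exp q.1 - 1) +
    Dd q w 1 * (Real.exp q.2 - 1) = chi q w - 1) ?_ ?_ ?_ ?_ w
  · rw [Dd_one, chi_one]; simp
  · intro i
    rw [Dd_of, chi, lch_of]
    fin_cases i <;> simp
  · intro w hw
    have h0 := (chi_pos q w).ne'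
    rw [Dd_inv, chi_inv]
    simp only [Pi.neg_apply, Pi.smul_apply, smul_eq_mul]
    have : -((chi q w)⁻¹ * Dd q w 0) * (Real.exp q.1 - 1) + -((chi q w)⁻¹ * Dd q w 1) *
        (Real.exp q.2 - 1) = -((chi q w)⁻¹) * (Dd q w 0 * (Real.exp q.1 - 1) +
          Dd q w 1 * (Real.exp q.2 - 1)) := by ring
    rw [this, hw]
    field_simp
    ring
  · intro v w hv hw
    rw [Dd_mul, chi_mul]
    simp only [Pi.add_apply, Pi.smul_apply, smul_eq_mul]
    linear_combination hv + chi q v * hw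

/-- first part of (1) of the sketch -/
lemma rho_apply {U V : ℝ} (hU : 0 < U) (hV : 0 < V) (w : FreeGroup (Fin 3)) :
    ∀ t, rho U V hU hV w t = chi (Real.log U, Real.log V) w * t +
      (Dd (Real.log U, Real.log V) w 1 * (2 - U) +
        Dd (Real.log U, Real.log V) w 2 * ((U - 1) * (V - 1))) := by
  set q : ℝ × ℝ := (Real.log U, Real.log V) with hq
  refine fg_induction (C := fun w => ∀ t, rho U V hU hV w t = chi q w * t +
      (Dd q w 1 * (2 - U) + Dd q w 2 * ((U - 1) * (V - 1)))) ?_ ?_ ?_ ?_ w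
  · intro t
    rw [Dd_one, chi_one, map_one]; simp
  · intro i t
    rw [Dd_of, chi, lch_of, rho, FreeGroup.lift_apply_of]
    fin_cases i
    · simp [afp, hq, Real.exp_log hU]
    · simp [afp, hq, Real.exp_log hV]
    · simp [afp]
  · intro w hw t
    have h0 := (chi_pos q w).ne'
    rw [map_inv, Equiv.Perm.inv_eq_iff_eq, hw, Dd_inv, chi_inv]
    simp only [Pi.neg_apply, Pi.smul_apply, smul_eq_mul]
    field_simp
    ring
  · intro v w hv hw t
    rw [map_mul, Equiv.Perm.mul_apply, hw, hv, Dd_mul, chi_mul]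
    simp only [Pi.add_apply, Pi.smul_apply, smul_eq_mul]
    ring

/-- (3) of the sketch -/
lemma Dd_ne_zero (φ : FreeGroup (Fin 3) ≃* FreeGroup (Fin 3)) (q : ℝ × ℝ) :
    Dd q (φ (FreeGroup.of 2)) ≠ 0 := by
  intro h0
  set W : Submodule ℝ (Fin 3 → ℝ) := Submodule.span ℝ
    (Set.range ![Dd q (φ (FreeGroup.of 0)), Dd q (φ (FreeGroup.of 1))]) with hW
  have h1 : ∀ w, Dd q (φ w) ∈ W := by
    intro w
    refine fg_induction (C := fun w => Dd q (φ w) ∈ W) ?_ ?_ ?_ ?_ w
    · rw [map_one, Dd_one]; exact W.zero_mem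
    · intro i
      fin_cases i
      · exact Submodule.subset_span ⟨0, rfl⟩
      · exact Submodule.subset_span ⟨1, rfl⟩
      · have : Dd q (φ (FreeGroup.of ((fun i => i) ⟨2, by decide⟩))) = 0 := h0
        rw [this]
        exact W.zero_mem
    · intro w hw
      rw [map_inv, Dd_inv]
      exact W.neg_mem (W.smul_mem _ hw)
    · intro v w hv hw
      rw [map_mul, Dd_mul]
      exact W.add_mem hv (W.smul_mem _ hw)
  have h2 : ∀ i : Fin 3, (Pi.single i 1 : Fin 3 → ℝ) ∈ W := by
    intro i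
    have := h1 (φ.symm (FreeGroup.of i))
    rwa [φ.apply_symm_apply, Dd_of] at this
  have h3 : W = ⊤ := by
    rw [eq_top_iff]
    intro x _
    have : x = ∑ i, x i • (Pi.single i 1 : Fin 3 → ℝ) := by
      funext j
      simp [Finset.sum_apply, Pi.single_apply]
    rw [this]
    exact W.sum_mem fun i _ => W.smul_mem _ (h2 i)
  have h4 : Module.finrank ℝ W ≤ 2 := by
    have := finrank_range_le_card (R := ℝ)
      (b := ![Dd q (φ (FreeGroup.of 0)), Dd q (φ (FreeGroup.of 1))])
    rw [Set.finrank, Fintype.card_fin] at this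
    exact this
  rw [h3, finrank_top, Module.finrank_fin_fun] at h4
  omega

theorem irred (φ : FreeGroup (Fin 3) ≃* FreeGroup (Fin 3)) :
    ∃ (U V : ℝ) (hU : 0 < U) (hV : 0 < V), 2 * (U - 2) ^ 2 + 2 * (V - 1) ^ 2 = 1 ∧
      rho U V hU hV (φ (FreeGroup.of 2)) ≠ 1 := by
  by_contra hcon
  push Not at hcon
  set z := φ (FreeGroup.of 2) with hz
  have hs2 : (0:ℝ) < Real.sqrt 2 := by positivity
  have hss : Real.sqrt 2 * Real.sqrt 2 = 2 := Real.mul_self_sqrt (by norm_num)
  have hs1 : (1.4:ℝ) < Real.sqrt 2 := by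
    rw [Real.lt_sqrt (by norm_num)]
    norm_num
  -- consequences on the circle
  have hcirc : ∀ U V : ℝ, 0 < U → 0 < V → 2 * (U - 2) ^ 2 + 2 * (V - 1) ^ 2 = 1 →
      chi (Real.log U, Real.log V) z = 1 ∧
      Dd (Real.log U, Real.log V) z 1 * (2 - U) +
        Dd (Real.log U, Real.log V) z 2 * ((U - 1) * (V - 1)) = 0 := by
    intro U V hU hV h
    have h1 := hcon U V hU hV h
    have h2 := rho_apply hU hV z 0
    have h3 := rho_apply hU hV z 1
    rw [h1] at h2 h3
    simp only [Equiv.Perm.coe_one, id_eq, mul_zero, zero_add, mul_one] at h2 h3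
    rw [← h2] at h3
    exact ⟨by linarith, h2.symm⟩
  have hchi : ∀ q, chi q z = 1 := by
    have hinv : (1:ℝ) / Real.sqrt 2 > 0 := by positivity
    have hinv2 : (1 / Real.sqrt 2) ^ 2 = 1 / 2 := by
      rw [div_pow, Real.sq_sqrt (by norm_num)]; norm_num
    have h1 := (hcirc (2 + 1 / Real.sqrt 2) 1 (by linarith) one_pos (by
      rw [show (2 + 1 / Real.sqrt 2 - 2) = 1 / Real.sqrt 2 by ring, hinv2]; norm_num)).1
    have h2 := (hcirc 2 (1 + 1 / Real.sqrt 2) (by norm_num) (by linarith) (by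
      rw [show (1 + 1 / Real.sqrt 2 - 1) = 1 / Real.sqrt 2 by ring, hinv2]; norm_num)).1
    rw [chi, Real.exp_eq_one_iff, lch] at h1 h2
    simp only [Real.log_one, mul_zero, add_zero] at h1
    have hl1 : 0 < Real.log (2 + 1 / Real.sqrt 2) := Real.log_pos (by linarith)
    have hl2 : 0 < Real.log (1 + 1 / Real.sqrt 2) := Real.log_pos (by linarith)
    have hm : ((esum 0 z).toAdd : ℝ) = 0 := by
      rcases mul_eq_zero.1 h1 with h | h
      · exact h
      · exact absurd h hl1.ne'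
    have hn : ((esum 1 z).toAdd : ℝ) = 0 := by
      rw [hm, zero_mul, zero_add] at h2
      rcases mul_eq_zero.1 h2 with h | h
      · exact h
      · exact absurd h hl2.ne'
    intro q
    rw [chi, lch, hm, hn]
    simp
  -- the vector field
  let uu : ℝ × ℝ → ℝ := fun p => 2 + p.2 / Real.sqrt 2
  let vv : ℝ × ℝ → ℝ := fun p => 1 + p.1 / Real.sqrt 2
  let qq : ℝ × ℝ → ℝ × ℝ := fun p => (Real.log (uu p), Real.log (vv p))
  have hdisc : ∀ p : ℝ × ℝ, p.1 ^ 2 + p.2 ^ 2 ≤ 1 → 1 < uu p ∧ 0 < vv p := by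
    intro p hp
    have h1 : |p.1| ≤ 1 := by
      rw [← sq_le_one_iff_abs_le_one]; nlinarith [sq_nonneg p.2]
    have h2 : |p.2| ≤ 1 := by
      rw [← sq_le_one_iff_abs_le_one]; nlinarith [sq_nonneg p.1]
    rw [abs_le] at h1 h2
    have e1 : -1 < p.1 / Real.sqrt 2 := by
      rw [lt_div_iff₀ hs2]; linarith
    have e2 : -1 < p.2 / Real.sqrt 2 := by
      rw [lt_div_iff₀ hs2]; linarith
    simp only [uu, vv]
    constructor <;> linarith
  have hexp : ∀ p : ℝ × ℝ, p.1 ^ 2 + p.2 ^ 2 ≤ 1 → Real.exp (qq p).1 = uu p ∧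
      Real.exp (qq p).2 = vv p := by
    intro p hp
    obtain ⟨h1, h2⟩ := hdisc p hp
    exact ⟨Real.exp_log (by linarith), Real.exp_log h2⟩
  have hR1 : ∀ p : ℝ × ℝ, p.1 ^ 2 + p.2 ^ 2 ≤ 1 →
      Dd (qq p) z 0 * (uu p - 1) + Dd (qq p) z 1 * (vv p - 1) = 0 := by
    intro p hp
    obtain ⟨h1, h2⟩ := hexp p hp
    have := Dd_dot (qq p) z
    rw [hchi, h1, h2] at this
    linarith
  let NN : ℝ × ℝ → ℝ := fun p => (uu p - 1) ^ 2 + (vv p - 1) ^ 2
  have hNN : ∀ p : ℝ × ℝ, p.1 ^ 2 + p.2 ^ 2 ≤ 1 → 0 < NN p := by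
    intro p hp
    obtain ⟨h1, _⟩ := hdisc p hp
    have : 0 < uu p - 1 := by linarith
    simp only [NN]
    positivity
  let LL : ℝ × ℝ → ℝ := fun p => -(vv p - 1) * Dd (qq p) z 0 + (uu p - 1) * Dd (qq p) z 1
  refine no_radial_field (fun p => (LL p / NN p, Dd (qq p) z 2)) ?_ ?_ ?_
  · have huu : Continuous uu := by
      simp only [uu]
      fun_prop
    have hvv : Continuous vv := by
      simp only [vv]
      fun_prop
    have hqq : ContinuousOn qq {p : ℝ × ℝ | p.1 ^ 2 + p.2 ^ 2 ≤ 1} := by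
      apply ContinuousOn.prodMk
      · exact huu.continuousOn.log (fun p hp => by
          have := (hdisc p hp).1
          linarith)
      · exact hvv.continuousOn.log (fun p hp => (hdisc p hp).2.ne')
    have hD : ∀ i : Fin 3, ContinuousOn (fun p => Dd (qq p) z i)
        {p : ℝ × ℝ | p.1 ^ 2 + p.2 ^ 2 ≤ 1} := by
      intro i
      have h1 : Continuous fun q => Dd q z i := (continuous_apply i).comp (Dd_cont z)
      exact h1.comp_continuousOn hqq
    apply ContinuousOn.prodMk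
    · apply ContinuousOn.div
      · apply ContinuousOn.add
        · exact ((hvv.sub continuous_const).neg.continuousOn).mul (hD 0)
        · exact ((huu.sub continuous_const).continuousOn).mul (hD 1)
      · have : Continuous NN := by
          simp only [NN]
          exact ((huu.sub continuous_const).pow 2).add ((hvv.sub continuous_const).pow 2)
        exact this.continuousOn
      · intro p hp
        exact (hNN p hp).ne'
    · exact hD 2
  · intro p hp h0
    rw [Prod.mk_eq_zero] at h0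
    obtain ⟨hL, h2⟩ := h0
    have hN := hNN p hp
    have hL0 : LL p = 0 := by
      rcases div_eq_zero_iff.1 hL with h | h
      · exact h
      · exact absurd h hN.ne'
    have hR := hR1 p hp
    simp only [LL] at hL0
    have hd0 : Dd (qq p) z 0 * NN p = 0 := by
      simp only [NN]
      linear_combination (uu p - 1) * hR - (vv p - 1) * hL0
    have hd1 : Dd (qq p) z 1 * NN p = 0 := by
      simp only [NN]
      linear_combination (vv p - 1) * hR + (uu p - 1) * hL0
    apply Dd_ne_zero φ (qq p)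
    rw [← hz]
    funext i
    fin_cases i
    · rcases mul_eq_zero.1 hd0 with h | h
      · exact h
      · exact absurd h hN.ne'
    · rcases mul_eq_zero.1 hd1 with h | h
      · exact h
      · exact absurd h hN.ne'
    · exact h2
  · intro p hp
    have hp' : p.1 ^ 2 + p.2 ^ 2 ≤ 1 := hp.le
    obtain ⟨hu, hv⟩ := hdisc p hp'
    have hN := hNN p hp'
    have hR := hR1 p hp'
    have hu1 : uu p - 1 ≠ 0 := by
      have : 0 < uu p - 1 := by linarith
      exact this.ne'
    have hp1 : p.1 = Real.sqrt 2 * (vv p - 1) := by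
      simp only [vv]; field_simp; ring
    have hp2 : p.2 = Real.sqrt 2 * (uu p - 2) := by
      simp only [uu]; field_simp; ring
    have hc2 := (hcirc (uu p) (vv p) (by linarith) hv (by
      have e : Real.sqrt 2 ^ 2 = 2 := Real.sq_sqrt (by norm_num)
      have h2 := hp
      rw [hp1, hp2, mul_pow, mul_pow, e] at h2
      linarith)).2
    have hc3 : Dd (qq p) z 1 * (2 - uu p) + Dd (qq p) z 2 * ((uu p - 1) * (vv p - 1)) = 0 := hc2
    have hd1 : Dd (qq p) z 1 * NN p = (uu p - 1) * LL p := by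
      simp only [NN, LL]
      linear_combination (vv p - 1) * hR
    have h5 : (uu p - 1) * (LL p * (2 - uu p) + Dd (qq p) z 2 * (vv p - 1) * NN p) = 0 := by
      linear_combination NN p * hc3 - (2 - uu p) * hd1
    have h6 : LL p * (2 - uu p) + Dd (qq p) z 2 * (vv p - 1) * NN p = 0 := by
      rcases mul_eq_zero.1 h5 with h | h
      · exact absurd h hu1
      · exact h
    have hfin : ∀ r u v N L d : ℝ, N ≠ 0 → L * (2 - u) + d * (v - 1) * N = 0 →
        (r * (v - 1)) * d - (r * (u - 2)) * (L / N) = 0 := by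
      intro r u v N L d hN0 h
      field_simp
      linear_combination r * h
    have := hfin (Real.sqrt 2) (uu p) (vv p) (NN p) (LL p) (Dd (qq p) z 2) hN.ne' h6
    rw [← hp1, ← hp2] at this
    exact this

end Pool.Agent.Pfc0641
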