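import Mathlib
import Pool.Agent.Lib.Pfc0641.Irred

/-!
The example words: `y = vw (x_0, x_1, x_2)`, `x_1 = w2 (x_0, y)`, `x_2 = w3 (x_0, y)`, and their
values under the affine representations.
-/

namespace Pool.Agent.Pfc0641

lemma afp_mul {c s c' s' : ℝ} (hc : 0 < c) (hc' : 0 < c') :
    afp c s hc * afp c' s' hc' = afp (c * c') (c * s' + s) (mul_pos hc hc') := by
  ext t
  show c * (c' * t + s') + s = c * c' * t + (c * s' + s)
  ring

lemma afp_inv {c s : ℝ} (hc : 0 < c) :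
    (afp c s hc)⁻¹ = afp c⁻¹ (-(c⁻¹ * s)) (inv_pos.2 hc) := by
  ext t
  show c⁻¹ * (t - s) = c⁻¹ * t + -(c⁻¹ * s)
  ring

lemma afp_congr {c s c' s' : ℝ} (hc : 0 < c) (hc' : 0 < c') (h : c = c') (h' : s = s') :
    afp c s hc = afp c' s' hc' := by
  subst h
  subst h'
  rfl

lemma afp_one : afp 1 0 one_pos = 1 := by
  ext t
  show 1 * t + 0 = t
  ring

/-- the commutator `x y x⁻¹ y⁻¹` -/
def cmt {G : Type*} [Group G] (x y : G) : G := x * y * x⁻¹ * y⁻¹

lemma map_cmt {G H : Type*} [Group G] [Group H] (f : G →* H) (x y : G) :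
    f (cmt x y) = cmt (f x) (f y) := by
  simp [cmt]

/-- the word for `y` -/
def vfun {G : Type*} [Group G] (x0 x1 x2 : G) : G :=
  cmt x1 x2 * cmt x1 x2 * (cmt x0 x1 * cmt x0 x1 * cmt x0 x1 * cmt x0 x1) *
    (x0 * (cmt x0 x1)⁻¹ * (cmt x0 x1)⁻¹ * x0⁻¹) * x1

/-- the word for `x_1` -/
def w2fun {G : Type*} [Group G] (x0 y : G) : G := (cmt x0 y)⁻¹ * y

/-- the word for `x_2` -/
def w3fun {G : Type*} [Group G] (x0 y : G) : G := cmt y (cmt x0 y)

lemma map_vfun {G H : Type*} [Group G] [Group H] (f : G →* H) (x0 x1 x2 : G) :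
    f (vfun x0 x1 x2) = vfun (f x0) (f x1) (f x2) := by
  simp only [vfun, map_mul, map_inv, map_cmt]

lemma map_w2fun {G H : Type*} [Group G] [Group H] (f : G →* H) (x0 y : G) :
    f (w2fun x0 y) = w2fun (f x0) (f y) := by
  simp only [w2fun, map_mul, map_inv, map_cmt]

lemma map_w3fun {G H : Type*} [Group G] [Group H] (f : G →* H) (x0 y : G) :
    f (w3fun x0 y) = w3fun (f x0) (f y) := by
  simp only [w3fun, map_cmt]

lemma cmt_afp {c s c' s' : ℝ} (hc : 0 < c) (hc' : 0 < c') :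
    cmt (afp c s hc) (afp c' s' hc') = afp 1 (c * s' + s - (c' * s + s')) one_pos := by
  unfold cmt
  rw [afp_inv, afp_inv, afp_mul, afp_mul, afp_mul]
  apply afp_congr
  · field_simp
  · field_simp
    ring

lemma vfun_afp {U V : ℝ} (hU : 0 < U) (hV : 0 < V)
    (h : 2 * (U - 2) ^ 2 + 2 * (V - 1) ^ 2 = 1) :
    vfun (afp U 0 hU) (afp V (2 - U) hV) (afp 1 ((U - 1) * (V - 1)) one_pos) = afp V 1 hV := by
  unfold vfun
  rw [cmt_afp, cmt_afp, afp_inv, afp_inv]
  simp only [afp_mul]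
  apply afp_congr
  · field_simp
  · field_simp
    linear_combination (U - 1) * h

lemma w2fun_afp {U V : ℝ} (hU : 0 < U) (hV : 0 < V) :
    w2fun (afp U 0 hU) (afp V 1 hV) = afp V (2 - U) hV := by
  unfold w2fun
  rw [cmt_afp, afp_inv]
  simp only [afp_mul]
  apply afp_congr
  · field_simp
  · field_simp
    ring

lemma w3fun_afp {U V : ℝ} (hU : 0 < U) (hV : 0 < V) :
    w3fun (afp U 0 hU) (afp V 1 hV) = afp 1 ((U - 1) * (V - 1)) one_pos := by
  unfold w3fun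
  rw [cmt_afp, cmt_afp]
  apply afp_congr
  · rfl
  · ring

lemma rho_of0 {U V : ℝ} (hU : 0 < U) (hV : 0 < V) :
    rho U V hU hV (FreeGroup.of 0) = afp U 0 hU := by simp [rho]

lemma rho_of1 {U V : ℝ} (hU : 0 < U) (hV : 0 < V) :
    rho U V hU hV (FreeGroup.of 1) = afp V (2 - U) hV := by simp [rho]

lemma rho_of2 {U V : ℝ} (hU : 0 < U) (hV : 0 < V) :
    rho U V hU hV (FreeGroup.of 2) = afp 1 ((U - 1) * (V - 1)) one_pos := by simp [rho]

end Pool.Agent.Pfc0641
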