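import Mathlib
import Pool.Agent.Lib.Pfc0641.Defs

/-!
MODULE Pfc0641.Rank  (MP_fc0641_gt).   Estimated 1 h.

A free quotient of the surface group of genus `g` has rank at most `g`.

Sketch: let `f : FG g →* FreeGroup (Fin r)` be onto with `f (bdry g) = 1`. For `p ≠ q` in `Fin r`
let `h : FreeGroup (Fin r) →* Heis` send generator `p` to `X`, generator `q` to `Y`, the other
generators to `1`, where `Heis` is the Heisenberg group over `ℚ` (for example upper unitriangular
3x3 matrices, or own structure `(x,y,z)` with product `(x+x', y+y', z+z'+x*y')`). The commutator of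
`(x,y,z)` and `(x',y',z')` is `(0,0,x*y'-x'*y)`, central, so `h (f (bdry g)) = 1` gives
`∑ i, (P (a i) * Q (b i) - P (b i) * Q (a i)) = 0`, where `P, Q : FG g → ℚ` are the exponent sums
of `f w` in the generators `p, q`. So the `r` vectors `v_p = (P (a i), P (b i))_i` of
`Fin g × Bool → ℚ` span an isotropic subspace `W` for the standard symplectic form; they
are linearly independent because `f` is onto (choose `w_q` with `f w_q = of q`; the linear
functional `w_q^{ab}` takes the value `δ_{pq}` on `v_p`). If `J` is the standard complex structure,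
then `W` is orthogonal to `J W` for the (positive definite) dot product, so `2 r ≤ 2 g`.
-/

namespace Pool.Agent.Pfc0641

/-- the Heisenberg group over the rationals -/
@[ext] private structure Heis where
  x : ℚ
  y : ℚ
  z : ℚ

private instance : Mul Heis := ⟨fun u v => ⟨u.x + v.x, u.y + v.y, u.z + v.z + u.x * v.y⟩⟩
private instance : One Heis := ⟨⟨0, 0, 0⟩⟩
private instance : Inv Heis := ⟨fun u => ⟨-u.x, -u.y, -u.z + u.x * u.y⟩⟩

private lemma mul_x (u v : Heis) : (u * v).x = u.x + v.x := rfl
private lemma mul_y (u v : Heis) : (u * v).y = u.y + v.y := rfl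
private lemma mul_z (u v : Heis) : (u * v).z = u.z + v.z + u.x * v.y := rfl
private lemma one_x : (1 : Heis).x = 0 := rfl
private lemma one_y : (1 : Heis).y = 0 := rfl
private lemma one_z : (1 : Heis).z = 0 := rfl
private lemma inv_x (u : Heis) : (u⁻¹).x = -u.x := rfl
private lemma inv_y (u : Heis) : (u⁻¹).y = -u.y := rfl
private lemma inv_z (u : Heis) : (u⁻¹).z = -u.z + u.x * u.y := rfl

private instance : Group Heis := Group.ofLeftAxioms
  (fun a b c => by
    apply Heis.ext
    · simp only [mul_x]; ring
    · simp only [mul_y]; ring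
    · simp only [mul_z, mul_x, mul_y]; ring)
  (fun a => by
    apply Heis.ext
    · simp only [mul_x, one_x]; ring
    · simp only [mul_y, one_y]; ring
    · simp only [mul_z, one_x, one_z]; ring)
  (fun a => by
    apply Heis.ext
    · simp only [mul_x, inv_x, one_x]; ring
    · simp only [mul_y, inv_y, one_y]; ring
    · simp only [mul_z, inv_x, inv_z, one_z]; ring)

private lemma comm_x (u v : Heis) : (u * v * u⁻¹ * v⁻¹).x = 0 := by
  simp only [mul_x, inv_x]; ring

private lemma comm_y (u v : Heis) : (u * v * u⁻¹ * v⁻¹).y = 0 := by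
  simp only [mul_y, inv_y]; ring

private lemma comm_z (u v : Heis) : (u * v * u⁻¹ * v⁻¹).z = u.x * v.y - v.x * u.y := by
  simp only [mul_z, mul_x, mul_y, inv_x, inv_y, inv_z]; ring

private lemma list_prod (l : List Heis) (hl : ∀ u ∈ l, u.x = 0) :
    l.prod.x = 0 ∧ l.prod.z = (l.map Heis.z).sum := by
  induction l with
  | nil => exact ⟨rfl, by simp [one_z]⟩
  | cons u l ih =>
    have h1 := ih fun v hv => hl v (List.mem_cons_of_mem _ hv)
    have h2 := hl u List.mem_cons_self
    rw [List.prod_cons, List.map_cons, List.sum_cons, mul_x, mul_z, h1.1, h1.2, h2]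
    exact ⟨by ring, by ring⟩

/-- exponent sum of the generator `p` -/
private noncomputable def E {r : ℕ} (p : Fin r) : FreeGroup (Fin r) →* Multiplicative ℚ :=
  FreeGroup.lift fun i => Multiplicative.ofAdd (if i = p then (1:ℚ) else 0)

/-- the representation in the Heisenberg group -/
private noncomputable def hh {r : ℕ} (p q : Fin r) : FreeGroup (Fin r) →* Heis :=
  FreeGroup.lift fun i => ⟨if i = p then 1 else 0, if i = q then 1 else 0, 0⟩

private noncomputable def projX : Heis →* Multiplicative ℚ where
  toFun u := Multiplicative.ofAdd u.x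
  map_one' := rfl
  map_mul' _ _ := rfl

private noncomputable def projY : Heis →* Multiplicative ℚ where
  toFun u := Multiplicative.ofAdd u.y
  map_one' := rfl
  map_mul' _ _ := rfl

private lemma hh_x {r : ℕ} (p q : Fin r) (w : FreeGroup (Fin r)) :
    (hh p q w).x = Multiplicative.toAdd (E p w) := by
  have h : projX.comp (hh p q) = E p := by
    apply FreeGroup.ext_hom
    intro i
    simp only [MonoidHom.comp_apply, hh, E, FreeGroup.lift_apply_of]
    rfl
  rw [← h]
  rfl

private lemma hh_y {r : ℕ} (p q : Fin r) (w : FreeGroup (Fin r)) :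
    (hh p q w).y = Multiplicative.toAdd (E q w) := by
  have h : projY.comp (hh p q) = E q := by
    apply FreeGroup.ext_hom
    intro i
    simp only [MonoidHom.comp_apply, hh, E, FreeGroup.lift_apply_of]
    rfl
  rw [← h]
  rfl

/-- the vectors -/
private noncomputable def vv {g r : ℕ} (f : FG g →* FreeGroup (Fin r)) (p : Fin r) :
    Fin g × Bool → ℚ := fun x => Multiplicative.toAdd (E p (f (FreeGroup.of x)))

private lemma sympl {g r : ℕ} (f : FG g →* FreeGroup (Fin r)) (hb : f (bdry g) = 1)
    (p q : Fin r) :
    ∑ i : Fin g, (vv f p (i, false) * vv f q (i, true) - vv f p (i, true) * vv f q (i, false)) =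
      0 := by
  have h1 : ((hh p q) (f (bdry g))).z = 0 := by
    rw [hb, map_one]
    rfl
  have h2 : (hh p q) (f (bdry g)) =
      ((List.finRange g).map fun i => (hh p q (f (a i))) * (hh p q (f (b i))) *
        (hh p q (f (a i)))⁻¹ * (hh p q (f (b i)))⁻¹).prod := by
    unfold bdry
    rw [map_list_prod, map_list_prod, List.map_map, List.map_map]
    congr 1
    apply List.map_congr_left
    intro i _
    simp only [Function.comp_apply, map_mul, map_inv]
  rw [h2] at h1
  have h3 := (list_prod ((List.finRange g).map fun i => (hh p q (f (a i))) * (hh p q (f (b i))) *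
        (hh p q (f (a i)))⁻¹ * (hh p q (f (b i)))⁻¹) (by
      intro u hu
      obtain ⟨i, _, rfl⟩ := List.mem_map.mp hu
      exact comm_x _ _)).2
  rw [h1, List.map_map] at h3
  have h4 : (List.map (Heis.z ∘ fun i => (hh p q (f (a i))) * (hh p q (f (b i))) *
        (hh p q (f (a i)))⁻¹ * (hh p q (f (b i)))⁻¹) (List.finRange g)).sum =
      ∑ i : Fin g, (vv f p (i, false) * vv f q (i, true) -
        vv f p (i, true) * vv f q (i, false)) := by
    rw [← List.sum_ofFn, List.ofFn_eq_map]
    congr 1
    apply List.map_congr_left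
    intro i _
    simp only [Function.comp_apply]
    rw [comm_z, hh_x, hh_y, hh_x, hh_y]
    rfl
  rw [← h4]
  exact h3.symm

private lemma indep {g r : ℕ} (f : FG g →* FreeGroup (Fin r)) (hf : Function.Surjective f)
    (c : Fin r → ℚ) (hc : ∀ x, ∑ p, c p * vv f p x = 0) : c = 0 := by
  -- the homomorphism
  let L : FG g →* Multiplicative ℚ :=
    { toFun := fun w => Multiplicative.ofAdd (∑ p, c p * Multiplicative.toAdd (E p (f w)))
      map_one' := by simp
      map_mul' := by
        intro u v
        rw [← ofAdd_add, ← Finset.sum_add_distrib]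
        congr 1
        refine Finset.sum_congr rfl fun p _ => ?_
        rw [map_mul, map_mul, toAdd_mul]
        ring }
  have hL : L = 1 := by
    apply FreeGroup.ext_hom
    intro x
    show Multiplicative.ofAdd (∑ p, c p * Multiplicative.toAdd (E p (f (FreeGroup.of x)))) = 1
    have := hc x
    unfold vv at this
    rw [this]
    rfl
  funext q
  obtain ⟨w, hw⟩ := hf (FreeGroup.of q)
  have h1 : L w = 1 := by rw [hL]; rfl
  have h2 : ∑ p, c p * Multiplicative.toAdd (E p (f w)) = 0 := by
    have h3 : Multiplicative.ofAdd (∑ p, c p * Multiplicative.toAdd (E p (f w))) =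
      Multiplicative.ofAdd 0 := h1
    exact Multiplicative.ofAdd.injective h3
  rw [hw] at h2
  have h3 : ∀ p, c p * Multiplicative.toAdd (E p (FreeGroup.of q)) = if q = p then c p else 0 := by
    intro p
    simp only [E, FreeGroup.lift_apply_of, toAdd_ofAdd]
    split_ifs <;> simp
  rw [Finset.sum_congr rfl fun p _ => h3 p] at h2
  simpa using h2

/-- the standard complex structure -/
private def JJ {g : ℕ} (u : Fin g × Bool → ℚ) : Fin g × Bool → ℚ :=
  fun x => if x.2 then - u (x.1, false) else u (x.1, true)

private lemma sum_JJ {g : ℕ} (u w : Fin g × Bool → ℚ) :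
    ∑ x, u x * JJ w x = ∑ i, (u (i, false) * w (i, true) - u (i, true) * w (i, false)) := by
  rw [Fintype.sum_prod_type]
  refine Finset.sum_congr rfl fun i _ => ?_
  rw [Fintype.sum_bool]
  simp only [JJ, if_true, Bool.false_eq_true, if_false]
  ring

theorem rank_le {g r : ℕ} (f : FG g →* FreeGroup (Fin r)) (hf : Function.Surjective f)
    (hb : f (bdry g) = 1) : r ≤ g := by
  let Φ : ((Fin r → ℚ) × (Fin r → ℚ)) →ₗ[ℚ] (Fin g × Bool → ℚ) :=
    { toFun := fun cd x => ∑ p, cd.1 p * vv f p x + ∑ p, cd.2 p * JJ (vv f p) x
      map_add' := by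
        intro u v
        funext x
        simp only [Prod.fst_add, Prod.snd_add, Pi.add_apply, add_mul, Finset.sum_add_distrib]
        ring
      map_smul' := by
        intro t u
        funext x
        simp only [Prod.smul_fst, Prod.smul_snd, Pi.smul_apply, smul_eq_mul, RingHom.id_apply,
          mul_add, Finset.mul_sum, mul_assoc] }
  have hΦ : ∀ c d x, Φ (c, d) x = ∑ p, c p * vv f p x + ∑ p, d p * JJ (vv f p) x :=
    fun _ _ _ => rfl
  have hinj : Function.Injective Φ := by
    rw [← LinearMap.ker_eq_bot, LinearMap.ker_eq_bot']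
    rintro ⟨c, d⟩ h0
    have h1 : ∀ x, ∑ p, c p * vv f p x + ∑ p, d p * JJ (vv f p) x = 0 := by
      intro x
      rw [← hΦ, h0]
      rfl
    have h2 : ∑ x, (∑ p, c p * vv f p x) * (∑ q, d q * JJ (vv f q) x) = 0 := by
      have e1 : ∀ x, (∑ p, c p * vv f p x) * (∑ q, d q * JJ (vv f q) x) =
          ∑ p, ∑ q, c p * d q * (vv f p x * JJ (vv f q) x) := by
        intro x
        rw [Finset.sum_mul_sum]
        refine Finset.sum_congr rfl fun p _ => Finset.sum_congr rfl fun q _ => ?_
        ring
      rw [Finset.sum_congr rfl fun x _ => e1 x, Finset.sum_comm]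
      refine Finset.sum_eq_zero fun p _ => ?_
      rw [Finset.sum_comm]
      refine Finset.sum_eq_zero fun q _ => ?_
      rw [← Finset.mul_sum, sum_JJ, sympl f hb p q, mul_zero]
    have h3 : ∑ x, (∑ p, c p * vv f p x) ^ 2 = 0 := by
      have e1 : ∀ x, (∑ p, c p * vv f p x) ^ 2 =
          -((∑ p, c p * vv f p x) * (∑ q, d q * JJ (vv f q) x)) := by
        intro x
        have := h1 x
        have e2 : ∑ q, d q * JJ (vv f q) x = - ∑ p, c p * vv f p x := by linarith
        rw [e2]
        ring
      rw [Finset.sum_congr rfl fun x _ => e1 x, Finset.sum_neg_distrib, h2, neg_zero]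
    have h4 : ∀ x, ∑ p, c p * vv f p x = 0 := by
      intro x
      have := (Finset.sum_eq_zero_iff_of_nonneg (fun x _ => sq_nonneg _)).mp h3 x
        (Finset.mem_univ x)
      exact pow_eq_zero_iff (two_ne_zero) |>.mp this
    have hc : c = 0 := indep f hf c h4
    have h5 : ∀ x, ∑ p, d p * JJ (vv f p) x = 0 := by
      intro x
      have := h1 x
      rw [h4 x] at this
      linarith
    have hd : d = 0 := by
      apply indep f hf d
      rintro ⟨i, β⟩
      cases β with
      | false =>
        have := h5 (i, true)
        simp only [JJ, if_true, mul_neg, Finset.sum_neg_distrib] at this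
        linarith
      | true =>
        have := h5 (i, false)
        simpa only [JJ, Bool.false_eq_true, if_false] using this
    rw [hc, hd]
    rfl
  have h := LinearMap.finrank_le_finrank_of_injective hinj
  rw [Module.finrank_prod, Module.finrank_fintype_fun_eq_card, Module.finrank_fintype_fun_eq_card,
    Fintype.card_prod, Fintype.card_fin, Fintype.card_fin, Fintype.card_bool] at h
  omega

end Pool.Agent.Pfc0641
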