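import Mathlib
import Pool.Agent.Lib.Pfc0641.Defs

/-!
Kernels of surjections from free groups under adding a handle, and stabilisation of group
trisections.
-/

namespace Pool.Agent.Pfc0641

open Subgroup

/-- Kill the last handle. -/
def retr (g : ℕ) : FG (g + 1) →* FG g :=
  FreeGroup.lift fun p => Fin.lastCases (motive := fun _ => FG g) 1
    (fun i => FreeGroup.of (i, p.2)) p.1

@[simp] lemma incl_of (g : ℕ) (i : Fin g) (β : Bool) :
    incl g (FreeGroup.of (i, β)) = FreeGroup.of (Fin.castSucc i, β) := by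
  simp [incl]

@[simp] lemma retr_of_castSucc (g : ℕ) (i : Fin g) (β : Bool) :
    retr g (FreeGroup.of (Fin.castSucc i, β)) = FreeGroup.of (i, β) := by
  simp [retr]

@[simp] lemma retr_of_last (g : ℕ) (β : Bool) :
    retr g (FreeGroup.of (Fin.last g, β)) = 1 := by
  simp [retr]

@[simp] lemma retr_a_last (g : ℕ) : retr g (a (Fin.last g)) = 1 := retr_of_last g false

@[simp] lemma retr_b_last (g : ℕ) : retr g (b (Fin.last g)) = 1 := retr_of_last g true

lemma retr_comp_incl (g : ℕ) : (retr g).comp (incl g) = MonoidHom.id _ := by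
  ext ⟨i, β⟩
  simp

@[simp] lemma retr_incl (g : ℕ) (w : FG g) : retr g (incl g w) = w :=
  DFunLike.congr_fun (retr_comp_incl g) w

lemma incl_injective (g : ℕ) : Function.Injective (incl g) :=
  fun x y h => by rw [← retr_incl g x, ← retr_incl g y, h]

lemma bdry_succ (g : ℕ) : bdry (g + 1) = incl g (bdry g) *
    (a (Fin.last g) * b (Fin.last g) * (a (Fin.last g))⁻¹ * (b (Fin.last g))⁻¹) := by
  unfold bdry
  rw [List.finRange_succ_last, List.map_append, List.prod_append, map_list_prod, List.map_map,
    List.map_map]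
  simp [a, b, Function.comp_def]

/-- `crv` as a generator. -/
lemma crv_eq (g : ℕ) (l i : Fin 3) :
    crv g l i = FreeGroup.of (Fin.last g, decide (i = l)) := by
  unfold crv
  split_ifs with h <;> simp [a, b, h]

/-- Normal closure of a subgroup of `FG g` and a set in `FG (g+1)`. -/
def stN {g : ℕ} (M : Subgroup (FG g)) (S : Set (FG (g + 1))) : Subgroup (FG (g + 1)) :=
  normalClosure ((incl g) '' (M : Set (FG g)) ∪ S)

instance {g : ℕ} (M : Subgroup (FG g)) (S : Set (FG (g + 1))) : (stN M S).Normal :=
  normalClosure_normal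

lemma stab1_eq {g : ℕ} (l : Fin 3) (N : Fin 3 → Subgroup (FG g)) (i : Fin 3) :
    stab1 l N i = stN (N i) {crv g l i} := rfl

lemma incl_mem_stN {g : ℕ} {M : Subgroup (FG g)} {S : Set (FG (g + 1))} {w : FG g}
    (h : w ∈ M) : incl g w ∈ stN M S :=
  subset_normalClosure (Or.inl ⟨w, h, rfl⟩)

lemma mem_stN {g : ℕ} {M : Subgroup (FG g)} {S : Set (FG (g + 1))} {w : FG (g + 1)}
    (h : w ∈ S) : w ∈ stN M S :=
  subset_normalClosure (Or.inr h)

lemma stN_le {g : ℕ} {M : Subgroup (FG g)} {S : Set (FG (g + 1))} {K : Subgroup (FG (g + 1))}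
    [K.Normal] (h1 : ∀ w ∈ M, incl g w ∈ K) (h2 : ∀ w ∈ S, w ∈ K) : stN M S ≤ K := by
  apply normalClosure_le_normal
  rintro w (⟨v, hv, rfl⟩ | hw)
  · exact h1 v hv
  · exact h2 w hw

lemma stN_sup {g : ℕ} (M M' : Subgroup (FG g)) [M.Normal] [M'.Normal]
    (S S' : Set (FG (g + 1))) : stN M S ⊔ stN M' S' = stN (M ⊔ M') (S ∪ S') := by
  apply le_antisymm
  · apply sup_le
    · exact stN_le (fun w hw => incl_mem_stN (mem_sup_left hw)) fun w hw => mem_stN (Or.inl hw)
    · exact stN_le (fun w hw => incl_mem_stN (mem_sup_right hw)) fun w hw => mem_stN (Or.inr hw)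
  · apply stN_le
    · intro w hw
      have h : (M ⊔ M') ≤ (stN M S ⊔ stN M' S').comap (incl g) :=
        sup_le (fun v hv => mem_sup_left (incl_mem_stN hv))
          (fun v hv => mem_sup_right (incl_mem_stN hv))
      exact h hw
    · rintro w (hw | hw)
      · exact mem_sup_left (mem_stN hw)
      · exact mem_sup_right (mem_stN hw)

/-- `stN M S` meets `FG g` in `M`, if `S` consists of last handle elements. -/
lemma comap_stN {g : ℕ} (M : Subgroup (FG g)) [M.Normal] (S : Set (FG (g + 1)))
    (hS : ∀ w ∈ S, retr g w = 1) : (stN M S).comap (incl g) = M := by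
  apply le_antisymm
  · intro w hw
    have h : stN M S ≤ M.comap (retr g) := by
      apply stN_le
      · intro v hv
        simpa using hv
      · intro v hv
        rw [mem_comap, hS v hv]
        exact M.one_mem
    have := h hw
    simpa using this
  · intro w hw
    exact incl_mem_stN hw

/-- Extend a homomorphism over a new handle, killing the generator `(last, ε)` and sending the
other one to the new generator. -/
def ext1 {g r : ℕ} (ε : Bool) (f : FG g →* FreeGroup (Fin r)) :
    FG (g + 1) →* FreeGroup (Fin (r + 1)) :=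
  FreeGroup.lift fun p => Fin.lastCases (motive := fun _ => FreeGroup (Fin (r + 1)))
    (if p.2 = ε then 1 else FreeGroup.of (Fin.last r))
    (fun i => FreeGroup.map Fin.castSucc (f (FreeGroup.of (i, p.2)))) p.1

lemma ext1_incl {g r : ℕ} (ε : Bool) (f : FG g →* FreeGroup (Fin r)) (w : FG g) :
    ext1 ε f (incl g w) = FreeGroup.map Fin.castSucc (f w) := by
  have : (ext1 ε f).comp (incl g) = (FreeGroup.map Fin.castSucc).comp f := by
    ext ⟨i, β⟩
    simp [ext1]
  exact DFunLike.congr_fun this w

@[simp] lemma ext1_last {g r : ℕ} (ε : Bool) (f : FG g →* FreeGroup (Fin r)) :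
    ext1 ε f (FreeGroup.of (Fin.last g, ε)) = 1 := by
  simp [ext1]

@[simp] lemma ext1_last' {g r : ℕ} (ε : Bool) (f : FG g →* FreeGroup (Fin r)) :
    ext1 ε f (FreeGroup.of (Fin.last g, !ε)) = FreeGroup.of (Fin.last r) := by
  simp [ext1]

lemma ext1_surjective {g r : ℕ} (ε : Bool) (f : FG g →* FreeGroup (Fin r))
    (hf : Function.Surjective f) : Function.Surjective (ext1 ε f) := by
  rw [← MonoidHom.range_eq_top, eq_top_iff, ← FreeGroup.closure_range_of, closure_le]
  rintro _ ⟨i, rfl⟩
  refine Fin.lastCases ?_ (fun i => ?_) i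
  · exact ⟨FreeGroup.of (Fin.last g, !ε), ext1_last' ε f⟩
  · obtain ⟨w, hw⟩ := hf (FreeGroup.of i)
    refine ⟨incl g w, ?_⟩
    rw [ext1_incl, hw]
    simp

lemma ext1_ker {g r : ℕ} (ε : Bool) (f : FG g →* FreeGroup (Fin r))
    (hf : Function.Surjective f) :
    (ext1 ε f).ker = stN f.ker {FreeGroup.of (Fin.last g, ε)} := by
  classical
  apply le_antisymm
  · set M := stN f.ker {FreeGroup.of (Fin.last g, ε)} with hM
    choose c hc using fun i : Fin r => hf (FreeGroup.of i)
    let σ : FreeGroup (Fin (r + 1)) →* FG (g + 1) ⧸ M :=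
      FreeGroup.lift fun i => Fin.lastCases (motive := fun _ => FG (g + 1) ⧸ M)
        (QuotientGroup.mk' M (FreeGroup.of (Fin.last g, !ε)))
        (fun i => QuotientGroup.mk' M (incl g (c i))) i
    have h1 : ∀ v : FreeGroup (Fin r), σ (FreeGroup.map Fin.castSucc v) =
        QuotientGroup.mk' M (incl g (FreeGroup.lift c v)) := by
      have : σ.comp (FreeGroup.map Fin.castSucc) =
          ((QuotientGroup.mk' M).comp (incl g)).comp (FreeGroup.lift c) := by
        ext i
        simp [σ]
      exact fun v => DFunLike.congr_fun this v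
    have h2 : ∀ v : FreeGroup (Fin r), f (FreeGroup.lift c v) = v := by
      have : f.comp (FreeGroup.lift c) = MonoidHom.id _ := by
        ext i
        simp [hc]
      exact fun v => DFunLike.congr_fun this v
    have h3 : ∀ w : FG g, σ (FreeGroup.map Fin.castSucc (f w)) =
        QuotientGroup.mk' M (incl g w) := by
      intro w
      rw [h1]
      apply (QuotientGroup.mk'_eq_mk' M).2
      refine ⟨incl g ((FreeGroup.lift c (f w))⁻¹ * w), ?_, ?_⟩
      · apply incl_mem_stN
        rw [MonoidHom.mem_ker, map_mul, map_inv, h2, inv_mul_cancel]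
      · rw [← map_mul, mul_inv_cancel_left]
    have h4 : σ.comp (ext1 ε f) = QuotientGroup.mk' M := by
      apply FreeGroup.ext_hom
      rintro ⟨i, β⟩
      refine Fin.lastCases ?_ (fun i => ?_) i
      · rw [MonoidHom.comp_apply]
        by_cases hβ : β = ε
        · subst hβ
          rw [ext1_last, map_one]
          symm
          rw [QuotientGroup.mk'_apply, QuotientGroup.eq_one_iff]
          exact mem_stN rfl
        · have : β = !ε := by cases β <;> cases ε <;> simp_all
          subst this
          rw [ext1_last']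
          simp [σ]
      · rw [MonoidHom.comp_apply, ← incl_of, ext1_incl, h3]
    intro w hw
    have := DFunLike.congr_fun h4 w
    rw [MonoidHom.comp_apply, MonoidHom.mem_ker.1 hw, map_one, eq_comm,
      QuotientGroup.mk'_apply, QuotientGroup.eq_one_iff] at this
    exact this
  · apply stN_le
    · intro w hw
      rw [MonoidHom.mem_ker, ext1_incl, MonoidHom.mem_ker.1 hw, map_one]
    · rintro w rfl
      rw [MonoidHom.mem_ker, ext1_last]

/-- Modulo the last handle every element comes from `FG g`. -/
lemma incl_retr_mem {g : ℕ} (M : Subgroup (FG (g + 1))) [M.Normal]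
    (ha : a (Fin.last g) ∈ M) (hb : b (Fin.last g) ∈ M) (w : FG (g + 1)) :
    (incl g (retr g w))⁻¹ * w ∈ M := by
  have h : ((QuotientGroup.mk' M).comp (incl g)).comp (retr g) = QuotientGroup.mk' M := by
    apply FreeGroup.ext_hom
    rintro ⟨i, β⟩
    refine Fin.lastCases ?_ (fun i => ?_) i
    · rw [MonoidHom.comp_apply, retr_of_last, map_one, eq_comm, QuotientGroup.mk'_apply,
        QuotientGroup.eq_one_iff]
      cases β
      · exact ha
      · exact hb
    · rw [MonoidHom.comp_apply, retr_of_castSucc, MonoidHom.comp_apply, incl_of]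
  have := DFunLike.congr_fun h w
  rw [MonoidHom.comp_apply, MonoidHom.comp_apply, QuotientGroup.mk'_apply,
    QuotientGroup.mk'_apply, QuotientGroup.eq] at this
  exact this

lemma retr_ker {g r : ℕ} (f : FG g →* FreeGroup (Fin r)) :
    (f.comp (retr g)).ker = stN f.ker {a (Fin.last g), b (Fin.last g)} := by
  apply le_antisymm
  · intro w hw
    have h1 := incl_retr_mem (stN f.ker {a (Fin.last g), b (Fin.last g)})
      (mem_stN (by simp)) (mem_stN (by simp)) w
    have h2 : incl g (retr g w) ∈ stN f.ker {a (Fin.last g), b (Fin.last g)} :=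
      incl_mem_stN hw
    simpa using mul_mem h2 h1
  · apply stN_le
    · intro w hw
      rw [MonoidHom.mem_ker, MonoidHom.comp_apply, retr_incl]
      exact hw
    · rintro w (rfl | rfl)
      · simp [MonoidHom.mem_ker]
      · simp [MonoidHom.mem_ker]

lemma retr_surjective (g : ℕ) : Function.Surjective (retr g) :=
  fun w => ⟨incl g w, retr_incl g w⟩

lemma IsTriU.normal {g : ℕ} {k : Fin 3 → ℕ} {N : Fin 3 → Subgroup (FG g)}
    (h : IsTriU g k N) (i : Fin 3) : (N i).Normal := by
  obtain ⟨f, -, hf⟩ := h.handlebody i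
  rw [← hf]
  infer_instance

/-- If `i ≠ j` and `l` is one of them, the two curves on the last handle are `a` and `b`. -/
lemma crv_pair {g : ℕ} {i j l : Fin 3} (hij : i ≠ j) (h : l = i ∨ l = j) :
    ({crv g l i} ∪ {crv g l j} : Set (FG (g + 1))) = {a (Fin.last g), b (Fin.last g)} := by
  rcases h with rfl | rfl
  · have : j ≠ l := fun h => hij h.symm
    simp only [crv, this, if_true, if_false]
    exact Set.pair_comm _ _
  · simp only [crv, hij, if_true, if_false]
    rfl

lemma crv_same {g : ℕ} {i j l : Fin 3} (hi : i ≠ l) (hj : j ≠ l) :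
    ({crv g l i} ∪ {crv g l j} : Set (FG (g + 1))) = {FreeGroup.of (Fin.last g, false)} := by
  simp [crv, hi, hj, a]

lemma bdry_succ_mem {g : ℕ} (M : Subgroup (FG (g + 1))) [M.Normal]
    (h1 : incl g (bdry g) ∈ M) (ε : Bool) (h2 : FreeGroup.of (Fin.last g, ε) ∈ M) :
    bdry (g + 1) ∈ M := by
  rw [bdry_succ]
  refine mul_mem h1 ?_
  cases ε
  · have h3 : a (Fin.last g) ∈ M := h2
    have h4 : b (Fin.last g) * (a (Fin.last g))⁻¹ * (b (Fin.last g))⁻¹ ∈ M :=
      Normal.conj_mem ‹_› _ (inv_mem h3) _
    simpa [mul_assoc] using mul_mem h3 h4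
  · have h3 : b (Fin.last g) ∈ M := h2
    have h4 : a (Fin.last g) * (b (Fin.last g)) * (a (Fin.last g))⁻¹ ∈ M :=
      Normal.conj_mem ‹_› _ h3 _
    exact mul_mem h4 (inv_mem h3)

/-- The unbalanced stabilisation of a group trisection is a group trisection. -/
theorem IsTriU.stab1 {g : ℕ} {k : Fin 3 → ℕ} {N : Fin 3 → Subgroup (FG g)}
    (h : IsTriU g k N) (l : Fin 3) :
    IsTriU (g + 1) (Function.update k l (k l + 1)) (stab1 l N) where
  bdry_mem i := by
    rw [stab1_eq]
    exact bdry_succ_mem _ (incl_mem_stN (h.bdry_mem i)) (decide (i = l))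
      (mem_stN (by rw [crv_eq]; rfl))
  handlebody i := by
    obtain ⟨f, hf, hk⟩ := h.handlebody i
    refine ⟨ext1 (decide (i = l)) f, ext1_surjective _ f hf, ?_⟩
    rw [ext1_ker _ f hf, hk, stab1_eq, crv_eq]
  sector i j m hij him hjm := by
    obtain ⟨f, hf, hk⟩ := h.sector i j m hij him hjm
    have := h.normal i
    have := h.normal j
    rw [stab1_eq, stab1_eq, stN_sup]
    by_cases hl : m = l
    · subst hl
      rw [Function.update_self, crv_same him hjm, ← hk]
      exact ⟨ext1 false f, ext1_surjective _ f hf, ext1_ker _ f hf⟩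
    · rw [Function.update_of_ne hl, crv_pair hij (by omega), ← hk]
      exact ⟨f.comp (retr g), hf.comp (retr_surjective g), retr_ker f⟩

/-- The balanced stabilisation of a group trisection is a group trisection. -/
theorem IsTriU.stab {g : ℕ} {k : Fin 3 → ℕ} {N : Fin 3 → Subgroup (FG g)}
    (h : IsTriU g k N) : IsTriU (g + 3) (fun i => k i + 1) (stab N) := by
  have := ((h.stab1 0).stab1 1).stab1 2
  have e : (fun i => k i + 1) = (Function.update (Function.update
      (Function.update k 0 (k 0 + 1)) 1 (Function.update k 0 (k 0 + 1) 1 + 1)) 2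
      (Function.update (Function.update k 0 (k 0 + 1)) 1
        (Function.update k 0 (k 0 + 1) 1 + 1) 2 + 1)) := by
    funext i
    fin_cases i <;> simp [Function.update]
  rw [e]
  exact this

theorem IsTri.stab {g k : ℕ} {N : Fin 3 → Subgroup (FG g)} (h : IsTri g k N) :
    IsTri (g + 3) (k + 1) (Pool.Agent.Pfc0641.stab N) := IsTriU.stab h

end Pool.Agent.Pfc0641
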