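import Mathlib
import Pool.Agent.Lib.Pfc0641.Stab
import Pool.Agent.Lib.Pfc0641.Hopf
import Pool.Agent.Lib.Pfc0641.Rank

/-!
The splitting lemma: a group trisection containing the three curves of a genus one trisection of
the 4-sphere on its last handle is a stabilisation.
-/

namespace Pool.Agent.Pfc0641

open Subgroup

/-- Two kernels of surjections onto free groups of the same finite rank, one contained in the
other, are equal (free groups of finite rank are Hopfian). -/
lemma ker_eq_of_le {G : Type*} [Group G] {r : ℕ} (f f' : G →* FreeGroup (Fin r))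
    (hf : Function.Surjective f) (hf' : Function.Surjective f') (h : f.ker ≤ f'.ker) :
    f.ker = f'.ker := by
  let θ : FreeGroup (Fin r) →* FreeGroup (Fin r) := f.liftOfSurjective hf ⟨f', h⟩
  have h1 : ∀ x, θ (f x) = f' x := fun x =>
    MonoidHom.liftOfRightInverse_comp_apply f _ (Function.rightInverse_surjInv hf) ⟨f', h⟩ x
  have h2 : Function.Surjective θ := by
    intro y
    obtain ⟨x, rfl⟩ := hf' y
    exact ⟨f x, h1 x⟩
  have h3 := hopfian θ h2
  apply le_antisymm h
  intro x hx
  rw [MonoidHom.mem_ker] at hx ⊢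
  apply h3
  rw [h1, hx, map_one]

/-- A surjection whose kernel contains the kernel of another one has smaller rank. -/
lemma rank_le_of_ker_le {G : Type*} [Group G] {r s : ℕ} (f : G →* FreeGroup (Fin r))
    (f' : G →* FreeGroup (Fin s)) (hf : Function.Surjective f) (hf' : Function.Surjective f')
    (h : f.ker ≤ f'.ker) : s ≤ r := by
  let θ : FreeGroup (Fin r) →* FreeGroup (Fin s) := f.liftOfSurjective hf ⟨f', h⟩
  have h1 : ∀ x, θ (f x) = f' x := fun x =>
    MonoidHom.liftOfRightInverse_comp_apply f _ (Function.rightInverse_surjInv hf) ⟨f', h⟩ x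
  have h2 : Function.Surjective θ := by
    intro y
    obtain ⟨x, rfl⟩ := hf' y
    exact ⟨f x, h1 x⟩
  exact rank_le_of_surj θ h2

/-- The restriction of a homomorphism to a free group to the first handles is a surjection onto a
free group, with kernel the intersection. -/
lemma restrict_free {g s : ℕ} (f : FG (g + 1) →* FreeGroup (Fin s)) :
    ∃ (r : ℕ) (f1 : FG g →* FreeGroup (Fin r)), Function.Surjective f1 ∧
      f1.ker = f.ker.comap (incl g) := by
  obtain ⟨r, ⟨e⟩⟩ := range_free (f.comp (incl g))
  refine ⟨r, e.symm.toMonoidHom.comp (f.comp (incl g)).rangeRestrict, ?_, ?_⟩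
  · exact e.symm.surjective.comp (MonoidHom.rangeRestrict_surjective _)
  · ext w
    simp [MonoidHom.mem_ker]

theorem split_handlebody {g : ℕ} (f : FG (g + 1) →* FreeGroup (Fin (g + 1)))
    (hf : Function.Surjective f) (hb : f (bdry (g + 1)) = 1) (ε : Bool)
    (hs : f (FreeGroup.of (Fin.last g, ε)) = 1) :
    bdry g ∈ f.ker.comap (incl g) ∧
    (∃ f1 : FG g →* FreeGroup (Fin g), Function.Surjective f1 ∧
      f1.ker = f.ker.comap (incl g)) ∧
    f.ker = stN (f.ker.comap (incl g)) {FreeGroup.of (Fin.last g, ε)} := by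
  obtain ⟨r, f1, h1, hk⟩ := restrict_free f
  have hb1 : bdry g ∈ f.ker.comap (incl g) := by
    rw [mem_comap, MonoidHom.mem_ker]
    rw [bdry_succ, map_mul] at hb
    have : f (a (Fin.last g) * b (Fin.last g) * (a (Fin.last g))⁻¹ * (b (Fin.last g))⁻¹) = 1 := by
      simp only [map_mul, map_inv]
      cases ε
      · have : f (a (Fin.last g)) = 1 := hs
        simp [this]
      · have : f (b (Fin.last g)) = 1 := hs
        simp [this]
    rw [this, mul_one] at hb
    exact hb
  have hr : r ≤ g := by
    apply rank_le f1 h1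
    rw [← MonoidHom.mem_ker, hk]
    exact hb1
  have hle : (ext1 ε f1).ker ≤ f.ker := by
    rw [ext1_ker ε f1 h1, hk]
    apply stN_le
    · intro w hw
      exact hw
    · rintro w rfl
      exact hs
  have hr' : g + 1 ≤ r + 1 := rank_le_of_ker_le _ _ (ext1_surjective ε f1 h1) hf hle
  obtain rfl : r = g := by omega
  have he := ker_eq_of_le _ _ (ext1_surjective ε f1 h1) hf hle
  refine ⟨hb1, ⟨f1, h1, hk⟩, ?_⟩
  rw [← hk, ← he, ext1_ker ε f1 h1]

/-- **Splitting lemma.** -/
theorem split1 {g : ℕ} {k : Fin 3 → ℕ} {N : Fin 3 → Subgroup (FG (g + 1))}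
    (h : IsTriU (g + 1) k N) (l : Fin 3) (hl : ∀ i, crv g l i ∈ N i) :
    IsTriU g (Function.update k l (k l - 1)) (fun i => (N i).comap (incl g)) ∧
      N = stab1 l (fun i => (N i).comap (incl g)) ∧ 1 ≤ k l := by
  have key : ∀ i, bdry g ∈ (N i).comap (incl g) ∧
      (∃ f1 : FG g →* FreeGroup (Fin g), Function.Surjective f1 ∧
        f1.ker = (N i).comap (incl g)) ∧
      N i = stN ((N i).comap (incl g)) {crv g l i} := by
    intro i
    obtain ⟨f, hf, hk⟩ := h.handlebody i
    have hb : f (bdry (g + 1)) = 1 := by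
      rw [← MonoidHom.mem_ker, hk]
      exact h.bdry_mem i
    have hs : f (FreeGroup.of (Fin.last g, decide (i = l))) = 1 := by
      rw [← MonoidHom.mem_ker, hk, ← crv_eq]
      exact hl i
    have := split_handlebody f hf hb _ hs
    rw [hk, ← crv_eq] at this
    exact this
  have hn : ∀ i, (N i).Normal := h.normal
  have hN : N = stab1 l (fun i => (N i).comap (incl g)) := by
    funext i
    exact (key i).2.2
  -- the sector opposite to `l`
  have sec : ∀ i j, i ≠ j → i ≠ l → j ≠ l →
      ∃ (r : ℕ) (f : FG g →* FreeGroup (Fin r)), Function.Surjective f ∧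
        f.ker = (N i).comap (incl g) ⊔ (N j).comap (incl g) ∧ k l = r + 1 := by
    intro i j hij him hjm
    obtain ⟨f, hf, hk⟩ := h.sector i j l hij him hjm
    have hk' : f.ker = stN ((N i).comap (incl g) ⊔ (N j).comap (incl g))
        {FreeGroup.of (Fin.last g, false)} := by
      rw [hk]
      conv_lhs => rw [(key i).2.2, (key j).2.2]
      rw [stN_sup, crv_same him hjm]
    obtain ⟨r, f1, h1, hk1⟩ := restrict_free f
    have hk2 : f1.ker = (N i).comap (incl g) ⊔ (N j).comap (incl g) := by
      rw [hk1, hk', comap_stN]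
      rintro w rfl
      exact retr_of_last g false
    have hk3 : (ext1 false f1).ker = f.ker := by
      rw [ext1_ker false f1 h1, hk2, hk']
    have e1 : k l ≤ r + 1 :=
      rank_le_of_ker_le _ _ (ext1_surjective false f1 h1) hf hk3.le
    have e2 : r + 1 ≤ k l :=
      rank_le_of_ker_le _ _ hf (ext1_surjective false f1 h1) hk3.ge
    exact ⟨r, f1, h1, hk2, by omega⟩
  refine ⟨⟨fun i => (key i).1, fun i => (key i).2.1, ?_⟩, hN, ?_⟩
  · intro i j m hij him hjm
    by_cases hml : m = l
    · subst hml
      obtain ⟨r, f, hf, hk, hr⟩ := sec i j hij him hjm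
      rw [Function.update_self]
      obtain rfl : r = k m - 1 := by omega
      exact ⟨f, hf, hk⟩
    · rw [Function.update_of_ne hml]
      obtain ⟨f, hf, hk⟩ := h.sector i j m hij him hjm
      have hk' : f.ker = stN ((N i).comap (incl g) ⊔ (N j).comap (incl g))
          {a (Fin.last g), b (Fin.last g)} := by
        rw [hk]
        conv_lhs => rw [(key i).2.2, (key j).2.2]
        rw [stN_sup, crv_pair hij (by omega)]
      have ha : a (Fin.last g) ∈ f.ker := by
        rw [hk']
        exact mem_stN (by simp)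
      have hb : b (Fin.last g) ∈ f.ker := by
        rw [hk']
        exact mem_stN (by simp)
      refine ⟨f.comp (incl g), ?_, ?_⟩
      · intro y
        obtain ⟨w, rfl⟩ := hf y
        refine ⟨retr g w, ?_⟩
        have := incl_retr_mem f.ker ha hb w
        rw [MonoidHom.mem_ker, map_mul, map_inv, inv_mul_eq_one] at this
        exact this
      · rw [← MonoidHom.comap_ker, hk', comap_stN]
        rintro w (rfl | rfl)
        · exact retr_a_last g
        · exact retr_b_last g
  · have : ∃ i j : Fin 3, i ≠ j ∧ i ≠ l ∧ j ≠ l := by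
      fin_cases l
      · exact ⟨1, 2, by decide, by decide, by decide⟩
      · exact ⟨0, 2, by decide, by decide, by decide⟩
      · exact ⟨0, 1, by decide, by decide, by decide⟩
    obtain ⟨i, j, hij, hil, hjl⟩ := this
    obtain ⟨r, -, -, -, hr⟩ := sec i j hij hil hjl
    omega

end Pool.Agent.Pfc0641
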