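import Mathlib
import Pool.Agent.Lib.Pfc0641.Stable
import Pool.Agent.Lib.Pfc0641.Split

/-!
# The triples `(kA, pi r kC, kB)` are group trisections
-/

namespace Pool.Agent.Pfc0641.W

open Subgroup

/-! ## Kernels and sections -/

/-- A homomorphism whose kernel contains `M` and such that `s ∘ f` is the identity modulo `M`. -/
lemma ker_of_mod {F Q : Type*} [Group F] [Group Q] (f : F →* Q) (s : Q →* F) (M : Subgroup F)
    [M.Normal] (h0 : M ≤ f.ker) (h2 : ∀ x, (QuotientGroup.mk' M) (s (f x)) = QuotientGroup.mk' M x) :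
    f.ker = M := by
  apply le_antisymm _ h0
  intro x hx
  have := h2 x
  rw [MonoidHom.mem_ker.1 hx, map_one, map_one, eq_comm, QuotientGroup.mk'_apply,
    QuotientGroup.eq_one_iff] at this
  exact this

/-- generator number `n` of the free group of rank `m` -/
def xg (m n : ℕ) : FreeGroup (Fin m) := if h : n < m then FreeGroup.of ⟨n, h⟩ else 1

/-- the homomorphism `FG 6 → FreeGroup (Fin m)` given by a table -/
def homF (m : ℕ) (T : List (List ℕ)) : FG 6 →* FreeGroup (Fin m) :=
  lft fun n => val (xg m) (T.getD n [])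

/-- the homomorphism `FreeGroup (Fin m) → FG 6` given by a table -/
def secF (m : ℕ) (S : List (List ℕ)) : FreeGroup (Fin m) →* FG 6 :=
  FreeGroup.lift fun i => val (gn 6) (S.getD i [])

lemma homF_gn {m : ℕ} {T : List (List ℕ)} (hT : T.length ≤ 12) (n : ℕ) :
    homF m T (gn 6 n) = val (xg m) (T.getD n []) := by
  by_cases hn : n < 2 * 6
  · exact lft_gn _ _ hn
  · rw [gn_ge (not_lt.1 hn), map_one, List.getD_eq_default _ _ (hT.trans (not_lt.1 hn))]
    rfl

lemma homF_val {m : ℕ} {T : List (List ℕ)} (hT : T.length ≤ 12) (u : List ℕ) :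
    homF m T (val (gn 6) u) = val (xg m) (sub T u) := by
  rw [map_val, val_sub]
  congr 1
  funext n
  exact homF_gn hT n

lemma secF_xg {m : ℕ} {S : List (List ℕ)} (hS : S.length ≤ m) (n : ℕ) :
    secF m S (xg m n) = val (gn 6) (S.getD n []) := by
  by_cases hn : n < m
  · simp [secF, xg, hn]
  · rw [xg, dif_neg hn, map_one, List.getD_eq_default _ _ (hS.trans (not_lt.1 hn))]
    rfl

lemma secF_val {m : ℕ} {S : List (List ℕ)} (hS : S.length ≤ m) (u : List ℕ) :
    secF m S (val (xg m) u) = val (gn 6) (sub S u) := by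
  rw [map_val, val_sub]
  congr 1
  funext n
  exact secF_xg hS n

/-- `S` is a section of `T`. -/
def secChk (m : ℕ) (T S : List (List ℕ)) : Bool :=
  decide (T.length ≤ 12) && decide (S.length ≤ m) &&
    (List.range m).all fun i => sub T (S.getD i []) == [2 * i]

lemma homF_surj {m : ℕ} {T S : List (List ℕ)} (h : secChk m T S = true) :
    Function.Surjective (homF m T) := by
  simp only [secChk, Bool.and_eq_true, beq_iff_eq, decide_eq_true_eq, List.all_eq_true,
    List.mem_range] at h
  have h1 : (homF m T).comp (secF m S) = MonoidHom.id _ := by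
    ext1 i
    have h2 : xg m i = FreeGroup.of i := by simp [xg]
    rw [MonoidHom.comp_apply, ← h2, secF_xg h.1.2, homF_val h.1.1, h.2 i i.2, val_cons, val_nil,
      mul_one, lv_even]
    rfl
  exact fun y => ⟨secF m S y, DFunLike.congr_fun h1 y⟩

/-- the retraction `q` equals `S ∘ T` -/
def retrChk (T S q : List (List ℕ)) : Bool :=
  (List.range 12).all fun n => sub S (T.getD n []) == q.getD n []

lemma homF_ker {m : ℕ} {T S q : List (List ℕ)} (h : secChk m T S = true)
    (h' : retrChk T S q = true) : (homF m T).ker = (hom 6 q).ker := by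
  simp only [secChk, Bool.and_eq_true, beq_iff_eq, decide_eq_true_eq, List.all_eq_true,
    List.mem_range] at h
  simp only [retrChk, beq_iff_eq, List.all_eq_true, List.mem_range] at h'
  have h1 : (homF m T).comp (secF m S) = MonoidHom.id _ := by
    ext1 i
    have h2 : xg m i = FreeGroup.of i := by simp [xg]
    rw [MonoidHom.comp_apply, ← h2, secF_xg h.1.2, homF_val h.1.1, h.2 i i.2, val_cons, val_nil,
      mul_one, lv_even]
    rfl
  have h2 : (secF m S).comp (homF m T) = hom 6 q := by
    refine hom_ext' fun n hn => ?_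
    rw [MonoidHom.comp_apply, homF_gn h.1.1, secF_val h.1.2, h' n hn, hom_gn _ _ hn]
  ext x
  rw [MonoidHom.mem_ker, MonoidHom.mem_ker, ← h2, MonoidHom.comp_apply]
  constructor
  · intro hx
    rw [hx, map_one]
  · intro hx
    have := DFunLike.congr_fun h1 (homF m T x)
    rw [MonoidHom.comp_apply, hx, map_one] at this
    exact this.symm

/-- `T` kills the kernel of the retraction `q` -/
def facChk (T q : List (List ℕ)) : Bool :=
  decide (T.length ≤ 12) && (List.range 12).all fun n => sub T (q.getD n []) == T.getD n []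

lemma ker_le_homF {m : ℕ} {T q : List (List ℕ)} (h : facChk T q = true) :
    (hom 6 q).ker ≤ (homF m T).ker := by
  simp only [facChk, Bool.and_eq_true, beq_iff_eq, decide_eq_true_eq, List.all_eq_true,
    List.mem_range] at h
  have h1 : (homF m T).comp (hom 6 q) = homF m T := by
    refine hom_ext' fun n hn => ?_
    rw [MonoidHom.comp_apply, hom_gn _ _ hn, homF_val h.1, h.2 n hn, homF_gn h.1]
  intro x hx
  rw [MonoidHom.mem_ker, ← h1, MonoidHom.comp_apply, MonoidHom.mem_ker.1 hx, map_one]

/-- `S ∘ T` is the identity modulo the product of the kernels of `q1` and `q2`; `D` lists the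
decompositions -/
def decChk (T S q1 q2 : List (List ℕ)) (D : List (List ℕ × List ℕ)) : Bool :=
  decide (q1.length ≤ 12) && decide (q2.length ≤ 12) &&
    (List.range 12).all fun n =>
      (app (invw (sub S (T.getD n []))) [2 * n] ==
        app (D.getD n ([], [])).1 (D.getD n ([], [])).2) &&
      (sub q1 (D.getD n ([], [])).1 == []) && (sub q2 (D.getD n ([], [])).2 == [])

lemma homF_ker_sup {m : ℕ} {T S q1 q2 : List (List ℕ)} {D : List (List ℕ × List ℕ)}
    (h : secChk m T S = true) (h1 : facChk T q1 = true) (h2 : facChk T q2 = true)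
    (h3 : decChk T S q1 q2 D = true) :
    (homF m T).ker = (hom 6 q1).ker ⊔ (hom 6 q2).ker := by
  apply ker_of_mod (homF m T) (secF m S) _ (sup_le (ker_le_homF h1) (ker_le_homF h2))
  intro x
  simp only [decChk, Bool.and_eq_true, beq_iff_eq, decide_eq_true_eq, List.all_eq_true,
    List.mem_range] at h3
  simp only [secChk, Bool.and_eq_true, decide_eq_true_eq] at h
  set M := (hom 6 q1).ker ⊔ (hom 6 q2).ker
  have h4 : (QuotientGroup.mk' M).comp ((secF m S).comp (homF m T)) = QuotientGroup.mk' M := by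
    refine hom_ext' fun n hn => ?_
    rw [MonoidHom.comp_apply, MonoidHom.comp_apply, homF_gn h.1.1, secF_val h.1.2]
    obtain ⟨⟨e1, e2⟩, e3⟩ := h3.2 n hn
    apply (QuotientGroup.mk'_eq_mk' M).2
    refine ⟨val (gn 6) (app (D.getD n ([], [])).1 (D.getD n ([], [])).2), ?_, ?_⟩
    · rw [val_app]
      apply mul_mem
      · apply mem_sup_left
        rw [MonoidHom.mem_ker, hom_val h3.1.1, e2]
        rfl
      · apply mem_sup_right
        rw [MonoidHom.mem_ker, hom_val h3.1.2, e3]
        rfl
    · rw [← e1, val_app, val_invw, mul_inv_cancel_left, val_cons, val_nil, mul_one, lv_even]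
  exact DFunLike.congr_fun h4 x

/-! ## The standard sectors and handlebodies -/

/-- table of the projection onto the free group of rank 6 with kernel `kA` -/
def fA : List (List ℕ) := [[1], [0, 2], [0], [2], [], [4], [], [6], [], [8], [], [10]]
/-- section of `fA` -/
def gA : List (List ℕ) := [[4], [6], [10], [14], [18], [22]]
/-- table of the projection onto the free group of rank 6 with kernel `kB` -/
def fB : List (List ℕ) := [[], [0], [2], [], [], [4], [], [6], [], [8], [], [10]]
/-- section of `fB` -/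
def gB : List (List ℕ) := [[2], [4], [10], [14], [18], [22]]
/-- table of the projection onto the free group of rank 6 with kernel `kC` -/
def fC : List (List ℕ) := [[0], [], [], [2], [], [4], [], [6], [8], [], [10], []]
/-- section of `fC` -/
def gC : List (List ℕ) := [[0], [6], [10], [14], [16], [20]]

lemma kA_eq : (homF 6 fA).ker = kA := homF_ker (S := gA) (by decide +kernel) (by decide +kernel)
lemma kB_eq : (homF 6 fB).ker = kB := homF_ker (S := gB) (by decide +kernel) (by decide +kernel)
lemma kC_eq : (homF 6 fC).ker = kC := homF_ker (S := gC) (by decide +kernel) (by decide +kernel)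

lemma fA_surj : Function.Surjective (homF 6 fA) := homF_surj (S := gA) (by decide +kernel)
lemma fB_surj : Function.Surjective (homF 6 fB) := homF_surj (S := gB) (by decide +kernel)
lemma fC_surj : Function.Surjective (homF 6 fC) := homF_surj (S := gC) (by decide +kernel)

/-- table of the sector `A B` -/
def fAB : List (List ℕ) := [[], [], [], [], [], [0], [], [2], [], [4], [], [6]]
/-- section of `fAB` -/
def gAB : List (List ℕ) := [[10], [14], [18], [22]]
/-- decompositions for the sector `A B` -/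
def dAB : List (List ℕ × List ℕ) :=
  [([], [0]), ([2, 7, 0], [1, 6]), ([4, 0], [1]), ([], [6]), ([8], []), ([], []), ([12], []),
    ([], []), ([16], []), ([], []), ([20], []), ([], [])]

lemma kAB_eq : (homF 4 fAB).ker = kA ⊔ kB :=
  homF_ker_sup (S := gAB) (D := dAB) (by decide +kernel) (by decide +kernel) (by decide +kernel)
    (by decide +kernel)

lemma fAB_surj : Function.Surjective (homF 4 fAB) := homF_surj (S := gAB) (by decide +kernel)

/-- table of the standard sector `A C` -/
def fAC : List (List ℕ) := [[], [], [], [], [], [0], [], [2], [], [], [], []]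
/-- section of `fAC` -/
def gAC : List (List ℕ) := [[10], [14]]
/-- decompositions for the standard sector `A C` -/
def dAC : List (List ℕ × List ℕ) :=
  [([0, 4], [5]), ([], [2]), ([], [4]), ([6, 3, 4], [5, 2]), ([8], []), ([], []), ([12], []),
    ([], []), ([16], []), ([], [18]), ([20], []), ([], [22])]

lemma kAC_eq : (homF 2 fAC).ker = kA ⊔ kC :=
  homF_ker_sup (S := gAC) (D := dAC) (by decide +kernel) (by decide +kernel) (by decide +kernel)
    (by decide +kernel)

lemma fAC_surj : Function.Surjective (homF 2 fAC) := homF_surj (S := gAC) (by decide +kernel)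

/-! ## The action of the long pushes modulo all the `a_i` -/

/-- retraction killing all `a_i` -/
def qK : List (List ℕ) := [[], [2], [], [6], [], [10], [], [14], [], [18], [], [22]]

/-- number of the generator `b_{i+2}` -/
def bn (i : Fin 4) : ℕ := 2 * i.1 + 5

/-- the word of the long loops: `x_i ↦ b_{i+2}⁻¹` -/
def rh : FreeGroup (Fin 4) →* FG 6 := FreeGroup.lift fun i => (gn 6 (bn i))⁻¹

/-- the action of `pia r` modulo all `a_i` -/
def act (r : FreeGroup (Fin 4)) : FG 6 →* FG 6 :=
  lft fun n => bif n == 1 || n == 3 then (rh r)⁻¹ * gn 6 n else gn 6 n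

lemma act_gn (r : FreeGroup (Fin 4)) (n : ℕ) (hn : n < 12) :
    act r (gn 6 n) = bif n == 1 || n == 3 then (rh r)⁻¹ * gn 6 n else gn 6 n := lft_gn _ _ hn

lemma act_gn' (r : FreeGroup (Fin 4)) (n : ℕ) (hn : n < 12) (h : (n == 1 || n == 3) = false) :
    act r (gn 6 n) = gn 6 n := by rw [act_gn r n hn, h, cond_false]

lemma act_rh (r z : FreeGroup (Fin 4)) : act r (rh z) = rh z := by
  have : (act r).comp rh = rh := by
    ext1 i
    rw [MonoidHom.comp_apply]
    have h1 : rh (FreeGroup.of i) = (gn 6 (bn i))⁻¹ := by simp [rh]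
    rw [h1, map_inv, act_gn' r _ (by unfold bn; omega)]
    unfold bn
    have h2 : (2 * i.1 + 5 == 1) = false := by simp
    have h3 : (2 * i.1 + 5 == 3) = false := by simp
    rw [h2, h3]
    rfl
  exact DFunLike.congr_fun this z

lemma act_mul (r z : FreeGroup (Fin 4)) : act (r * z) = (act r).comp (act z) := by
  refine hom_ext' fun n hn => ?_
  rw [MonoidHom.comp_apply, act_gn _ n hn, act_gn _ n hn]
  cases h : (n == 1 || n == 3) with
  | false => rw [cond_false, cond_false, act_gn _ n hn, h, cond_false]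
  | true =>
    rw [cond_true, cond_true, map_mul, map_mul, map_inv, act_rh, act_gn _ n hn, h, cond_true,
      mul_inv_rev, mul_assoc]

lemma act_one : act 1 = MonoidHom.id _ := by
  refine hom_ext' fun n hn => ?_
  rw [act_gn _ n hn, map_one, inv_one, one_mul]
  cases (n == 1 || n == 3) <;> rfl

/-- table of `act` of a generator -/
def actT (i : ℕ) : List (List ℕ) :=
  [[0], [4 * i + 10, 2], [4], [4 * i + 10, 6], [8], [10], [12], [14], [16], [18], [20], [22]]

/-- table of `act` of the inverse of a generator -/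
def actTi (i : ℕ) : List (List ℕ) :=
  [[0], [4 * i + 11, 2], [4], [4 * i + 11, 6], [8], [10], [12], [14], [16], [18], [20], [22]]

lemma hom_actT (i : Fin 4) : hom 6 (actT i) = act (FreeGroup.of i) := by
  refine hom_ext' fun n hn => ?_
  rw [hom_gn _ _ hn, act_gn _ n hn]
  have h1 : rh (FreeGroup.of i) = (gn 6 (bn i))⁻¹ := by simp [rh]
  rw [h1, inv_inv]
  have h2 : 4 * i.1 + 10 = 2 * bn i := by unfold bn; omega
  unfold actT
  rw [h2]
  interval_cases n <;> simp [val_cons, val_nil, lv]

lemma hom_actTi (i : Fin 4) : hom 6 (actTi i) = act (FreeGroup.of i)⁻¹ := by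
  refine hom_ext' fun n hn => ?_
  rw [hom_gn _ _ hn, act_gn _ n hn]
  have h1 : rh (FreeGroup.of i) = (gn 6 (bn i))⁻¹ := by simp [rh]
  rw [map_inv, h1, inv_inv]
  have h2 : 4 * i.1 + 11 = 2 * bn i + 1 := by unfold bn; omega
  have h3 : (2 * bn i + 1) / 2 = bn i := by omega
  unfold actTi
  rw [h2]
  interval_cases n <;> simp [val_cons, val_nil, lv, h3]

lemma actChk : ∀ i : Fin 4, ((tc 6 (tc 6 qK (tb Tp (al i))) qK == tc 6 qK (actT i)) &&
    (tc 6 qK (tb Tp (al i)) == tc 6 qK (actT i))) = true := by decide +kernel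

lemma actChk' : ∀ i : Fin 4, ((tc 6 (tc 6 qK (tb Tm (al i))) qK == tc 6 qK (actTi i)) &&
    (tc 6 qK (tb Tm (al i)) == tc 6 qK (actTi i))) = true := by decide +kernel

lemma lenK : qK.length ≤ 2 * 6 := by decide

/-- modulo all `a_i`, `pia r` acts as `act r` -/
lemma pia_act (r : FreeGroup (Fin 4)) (w : FG 6) :
    hom 6 qK (pia r w) = hom 6 qK (act r w) := by
  have key : ∀ (i : Fin 4) (u : FG 6), hom 6 qK (P (al i) u) = hom 6 qK (act (FreeGroup.of i) u) ∧
      hom 6 qK (act (FreeGroup.of i) (hom 6 qK u)) = hom 6 qK (act (FreeGroup.of i) u) := by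
    intro i u
    have h := actChk i
    simp only [Bool.and_eq_true, beq_iff_eq] at h
    have e1 : hom 6 (tc 6 qK (tb Tp (al i))) u = hom 6 (tc 6 qK (actT i)) u := by rw [h.2]
    rw [hom_tc lenK, hom_tc lenK, hom_actT] at e1
    have e2 : hom 6 (tc 6 (tc 6 qK (actT i)) qK) u = hom 6 (tc 6 qK (actT i)) u := by
      rw [← h.2, h.1, h.2]
    rw [hom_tc (tc_length _ _ _), hom_tc lenK, hom_actT] at e2
    exact ⟨e1, e2⟩
  have key' : ∀ (i : Fin 4) (u : FG 6),
      hom 6 qK ((P (al i))⁻¹ u) = hom 6 qK (act (FreeGroup.of i)⁻¹ u) ∧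
      hom 6 qK (act (FreeGroup.of i)⁻¹ (hom 6 qK u)) = hom 6 qK (act (FreeGroup.of i)⁻¹ u) := by
    intro i u
    have h := actChk' i
    simp only [Bool.and_eq_true, beq_iff_eq] at h
    have e1 : hom 6 (tc 6 qK (tb Tm (al i))) u = hom 6 (tc 6 qK (actTi i)) u := by rw [h.2]
    rw [hom_tc lenK, hom_tc lenK, hom_actTi] at e1
    have e2 : hom 6 (tc 6 (tc 6 qK (actTi i)) qK) u = hom 6 (tc 6 qK (actTi i)) u := by
      rw [← h.2, h.1, h.2]
    rw [hom_tc (tc_length _ _ _), hom_tc lenK, hom_actTi] at e2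
    exact ⟨e1, e2⟩
  refine fg_left_ind (C := fun r => ∀ w, hom 6 qK (pia r w) = hom 6 qK (act r w)) ?_ ?_ ?_ r w
  · intro w
    rw [map_one, act_one]
    rfl
  · intro i z ih w
    rw [map_mul, pia_of, act_mul]
    show hom 6 qK (P (al i) (pia z w)) = hom 6 qK (act (FreeGroup.of i) (act z w))
    rw [(key i _).1, ← (key i _).2, ih, (key i _).2]
  · intro i z ih w
    rw [map_mul, map_inv, pia_of, act_mul]
    show hom 6 qK ((P (al i))⁻¹ (pia z w)) = hom 6 qK (act (FreeGroup.of i)⁻¹ (act z w))
    rw [(key' i _).1, ← (key' i _).2, ih, (key' i _).2]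

/-! ## The sector `B C` -/

/-- the map of `FG 6` to the free group of rank 2 that keeps `b_2`, `b_3` -/
def fBC : List (List ℕ) := [[], [], [], [], [], [0], [], [2], [], [], [], []]

/-- section -/
def gBC : List (List ℕ) := [[10], [14]]

lemma lenBC : fBC.length ≤ 12 := by decide

/-- the projection of the sector `B C_r` -/
def fBCr (r : FreeGroup (Fin 4)) : FG 6 →* FreeGroup (Fin 2) :=
  lft fun n => bif n == 1 then homF 2 fBC (rh r) else homF 2 fBC (gn 6 n)

lemma fBCr_gn (r : FreeGroup (Fin 4)) (n : ℕ) (hn : n < 12) :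
    fBCr r (gn 6 n) = bif n == 1 then homF 2 fBC (rh r) else homF 2 fBC (gn 6 n) := lft_gn _ _ hn

lemma fBCr_gn' (r : FreeGroup (Fin 4)) (n : ℕ) (hn : n < 12) (h : (n == 1) = false) :
    fBCr r (gn 6 n) = homF 2 fBC (gn 6 n) := by rw [fBCr_gn r n hn, h, cond_false]

lemma rh_of (i : Fin 4) : rh (FreeGroup.of i) = (gn 6 (bn i))⁻¹ := by simp [rh]

lemma fBCr_rh (r z : FreeGroup (Fin 4)) : fBCr r (rh z) = homF 2 fBC (rh z) := by
  have : (fBCr r).comp rh = (homF 2 fBC).comp rh := by
    ext1 i
    rw [MonoidHom.comp_apply, MonoidHom.comp_apply, rh_of, map_inv, map_inv,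
      fBCr_gn' r _ (by unfold bn; omega)]
    unfold bn
    simp
  exact DFunLike.congr_fun this z

lemma fBC_val (n : ℕ) : homF 2 fBC (gn 6 n) = val (xg 2) (fBC.getD n []) := homF_gn lenBC n

lemma fBCr_surj (r : FreeGroup (Fin 4)) : Function.Surjective (fBCr r) := by
  have h1 : (fBCr r).comp (secF 2 gBC) = MonoidHom.id _ := by
    ext1 i
    have h2 : xg 2 i = FreeGroup.of i := by rw [xg, dif_pos i.2]
    rw [MonoidHom.comp_apply, ← h2, secF_xg (by decide)]
    fin_cases i
    · show fBCr r (val (gn 6) [2 * 5]) = _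
      rw [val_cons, val_nil, mul_one, lv_even, fBCr_gn' r 5 (by omega) rfl, fBC_val]
      show val (xg 2) [2 * 0] = _
      rw [val_cons, val_nil, mul_one, lv_even]
      rfl
    · show fBCr r (val (gn 6) [2 * 7]) = _
      rw [val_cons, val_nil, mul_one, lv_even, fBCr_gn' r 7 (by omega) rfl, fBC_val]
      show val (xg 2) [2 * 1] = _
      rw [val_cons, val_nil, mul_one, lv_even]
      rfl
  exact fun y => ⟨secF 2 gBC y, DFunLike.congr_fun h1 y⟩

lemma fBCr_qK (r : FreeGroup (Fin 4)) (w : FG 6) : fBCr r (hom 6 qK w) = fBCr r w := by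
  have : (fBCr r).comp (hom 6 qK) = fBCr r := by
    refine hom_ext' fun n hn => ?_
    rw [MonoidHom.comp_apply, hom_gn _ _ hn]
    rcases (by interval_cases n <;> simp [qK, fBC] : qK.getD n [] = [2 * n] ∨
      (qK.getD n [] = [] ∧ (n == 1) = false ∧ fBC.getD n [] = [])) with h | ⟨h, h1, h2⟩
    · rw [h, val_cons, val_nil, mul_one, lv_even]
    · rw [h, fBCr_gn' r _ (by omega) h1, fBC_val, h2, val_nil, val_nil, map_one]
  exact DFunLike.congr_fun this w

lemma fBCr_pia (r : FreeGroup (Fin 4)) (w : FG 6) :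
    fBCr r (pia r w) = fBCr r (act r w) := by
  rw [← fBCr_qK r (pia r w), pia_act, fBCr_qK]

lemma fBCr_kB (r : FreeGroup (Fin 4)) : kB ≤ (fBCr r).ker := by
  have h : (fBCr r).comp (hom 6 qB) = fBCr r := by
    refine hom_ext' fun n hn => ?_
    rw [MonoidHom.comp_apply, hom_gn _ _ hn]
    rcases (by interval_cases n <;> simp [qB, fBC] : qB.getD n [] = [2 * n] ∨
      (qB.getD n [] = [] ∧ (n == 1) = false ∧ fBC.getD n [] = [])) with h | ⟨h, h1, h2⟩
    · rw [h, val_cons, val_nil, mul_one, lv_even]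
    · rw [h, fBCr_gn' r _ (by omega) h1, fBC_val, h2, val_nil, val_nil, map_one]
  intro x hx
  rw [MonoidHom.mem_ker, ← h, MonoidHom.comp_apply, MonoidHom.mem_ker.1 hx, map_one]

lemma fBCr_kC (r : FreeGroup (Fin 4)) (w : FG 6) (hw : w ∈ kC) : fBCr r (pia r w) = 1 := by
  rw [fBCr_pia]
  have h : ((fBCr r).comp (act r)).comp (hom 6 qC) = (fBCr r).comp (act r) := by
    refine hom_ext' fun n hn => ?_
    rw [MonoidHom.comp_apply, hom_gn _ _ hn]
    rcases (by interval_cases n <;> simp [qC, fBC] : qC.getD n [] = [2 * n] ∨ n = 1 ∨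
      (qC.getD n [] = [] ∧ (n == 1) = false ∧ (n == 1 || n == 3) = false ∧
        fBC.getD n [] = [])) with h | h | ⟨h, h1, h3, h2⟩
    · rw [h, val_cons, val_nil, mul_one, lv_even]
    · subst h
      rw [MonoidHom.comp_apply (fBCr r) (act r) (gn 6 1), act_gn r 1 (by omega)]
      simp only [Nat.reduceBEq, Bool.true_or, cond_true]
      rw [map_mul, map_inv, fBCr_rh, fBCr_gn r 1 (by omega)]
      simp [qC, val_nil]
    · rw [h, MonoidHom.comp_apply (fBCr r) (act r), MonoidHom.comp_apply (fBCr r) (act r),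
        act_gn' r _ (by omega) h3, fBCr_gn' r _ (by omega) h1, fBC_val, h2, val_nil, val_nil,
        map_one, map_one]
  have h1 := DFunLike.congr_fun h w
  rw [MonoidHom.comp_apply, MonoidHom.mem_ker.1 (hw : w ∈ (hom 6 qC).ker), map_one] at h1
  exact h1.symm

lemma kC_normal : kC.Normal := by unfold kC; infer_instance
lemma kB_normal : kB.Normal := by unfold kB; infer_instance
lemma kA_normal : kA.Normal := by unfold kA; infer_instance

lemma map_normal (r : FreeGroup (Fin 4)) : (kC.map (pia r).toMonoidHom).Normal :=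
  kC_normal.map _ (pia r).surjective

lemma mem_kC_of {n : ℕ} (h : sub qC [2 * n] = []) : gn 6 n ∈ kC := by
  have h1 : hom 6 qC (val (gn 6) [2 * n]) = val (gn 6) (sub qC [2 * n]) := hom_val (by decide) _
  rw [val_cons, val_nil, mul_one, lv_even, h] at h1
  exact h1

lemma mem_kB_of {n : ℕ} (h : sub qB [2 * n] = []) : gn 6 n ∈ kB := by
  have h1 : hom 6 qB (val (gn 6) [2 * n]) = val (gn 6) (sub qB [2 * n]) := hom_val (by decide) _
  rw [val_cons, val_nil, mul_one, lv_even, h] at h1
  exact h1

lemma mem_kA_of {n : ℕ} (h : sub qA [2 * n] = []) : gn 6 n ∈ kA := by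
  have h1 : hom 6 qA (val (gn 6) [2 * n]) = val (gn 6) (sub qA [2 * n]) := hom_val (by decide) _
  rw [val_cons, val_nil, mul_one, lv_even, h] at h1
  exact h1

lemma a1fix : ∀ i : Fin 4, (tb Tp (al i)).getD 2 [] = [4] := by decide +kernel

lemma pia_a1 (r : FreeGroup (Fin 4)) : pia r (gn 6 2) = gn 6 2 := by
  have key : ∀ i : Fin 4, P (al i) (gn 6 2) = gn 6 2 := by
    intro i
    show hom 6 (tb Tp (al i)) (gn 6 2) = gn 6 2
    rw [hom_gn _ _ (by omega), a1fix i]
    rfl
  refine fg_left_ind (C := fun r => pia r (gn 6 2) = gn 6 2) ?_ ?_ ?_ r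
  · rw [map_one]
    rfl
  · intro i z ih
    rw [map_mul, pia_of, MulAut.mul_apply, ih, key]
  · intro i z ih
    rw [map_mul, map_inv, pia_of, MulAut.mul_apply, ih, MulAut.inv_apply,
      MulEquiv.symm_apply_eq, key]

theorem kBC_eq (r : FreeGroup (Fin 4)) :
    (fBCr r).ker = kC.map (pia r).toMonoidHom ⊔ kB := by
  have hn1 := map_normal r
  have hn2 := kB_normal
  set M := kC.map (pia r).toMonoidHom ⊔ kB with hM
  have hB : ∀ {n : ℕ}, sub qB [2 * n] = [] → gn 6 n ∈ M := fun h => mem_sup_right (mem_kB_of h)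
  have hC : ∀ {n : ℕ}, sub qC [2 * n] = [] → pia r (gn 6 n) ∈ M := fun h =>
    mem_sup_left ⟨_, mem_kC_of h, rfl⟩
  have a0 : gn 6 0 ∈ M := hB (by decide)
  have a1 : gn 6 2 ∈ M := by
    rw [← pia_a1 r]
    exact hC (by decide)
  have b1 : gn 6 3 ∈ M := hB (by decide)
  have a2 : gn 6 4 ∈ M := hB (by decide)
  have a3 : gn 6 6 ∈ M := hB (by decide)
  have a4 : gn 6 8 ∈ M := hB (by decide)
  have a5 : gn 6 10 ∈ M := hB (by decide)
  have m1 : ∀ {x : FG 6}, x ∈ M → QuotientGroup.mk' M x = 1 := fun h => by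
    rw [QuotientGroup.mk'_apply, QuotientGroup.eq_one_iff]
    exact h
  -- modulo `M` the retraction `qK` is trivial
  have hK : ∀ w, QuotientGroup.mk' M (hom 6 qK w) = QuotientGroup.mk' M w := by
    have : (QuotientGroup.mk' M).comp (hom 6 qK) = QuotientGroup.mk' M := by
      refine hom_ext' fun n hn => ?_
      rw [MonoidHom.comp_apply, hom_gn _ _ hn]
      rcases (by interval_cases n <;> simp [qK, fBC] : qK.getD n [] = [2 * n] ∨
        (qK.getD n [] = [] ∧ (n = 0 ∨ n = 2 ∨ n = 4 ∨ n = 6 ∨ n = 8 ∨ n = 10))) with h | ⟨h, h'⟩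
      · rw [h, val_cons, val_nil, mul_one, lv_even]
      · rw [h, val_nil, map_one]
        rcases h' with rfl | rfl | rfl | rfl | rfl | rfl
        · exact (m1 a0).symm
        · exact (m1 a1).symm
        · exact (m1 a2).symm
        · exact (m1 a3).symm
        · exact (m1 a4).symm
        · exact (m1 a5).symm
    exact DFunLike.congr_fun this
  have hact : ∀ w ∈ kC, QuotientGroup.mk' M (act r w) = 1 := by
    intro w hw
    rw [← hK, ← pia_act, hK]
    exact m1 (mem_sup_left ⟨w, hw, rfl⟩)
  have b4 : QuotientGroup.mk' M (gn 6 9) = 1 := by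
    have := hact _ (mem_kC_of (n := 9) (by decide))
    rwa [act_gn' r 9 (by omega) rfl] at this
  have b5 : QuotientGroup.mk' M (gn 6 11) = 1 := by
    have := hact _ (mem_kC_of (n := 11) (by decide))
    rwa [act_gn' r 11 (by omega) rfl] at this
  have b0 : QuotientGroup.mk' M (gn 6 1) = QuotientGroup.mk' M (rh r) := by
    have := hact _ (mem_kC_of (n := 1) (by decide))
    rw [act_gn r 1 (by omega)] at this
    simp only [Nat.reduceBEq, Bool.true_or, cond_true] at this
    rw [map_mul, map_inv, inv_mul_eq_one] at this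
    exact this.symm
  have hs : ∀ z, QuotientGroup.mk' M (secF 2 gBC (homF 2 fBC (rh z))) =
      QuotientGroup.mk' M (rh z) := by
    have : (((QuotientGroup.mk' M).comp (secF 2 gBC)).comp (homF 2 fBC)).comp rh =
        (QuotientGroup.mk' M).comp rh := by
      ext1 i
      simp only [MonoidHom.comp_apply]
      rw [rh_of, map_inv, map_inv, map_inv, map_inv, fBC_val, secF_val (by decide)]
      congr 1
      fin_cases i
      · rfl
      · rfl
      · exact (map_one _).trans b4.symm
      · exact (map_one _).trans b5.symm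
    exact DFunLike.congr_fun this
  apply ker_of_mod (fBCr r) (secF 2 gBC) M
  · refine sup_le ?_ (fBCr_kB r)
    rintro _ ⟨w, hw, rfl⟩
    exact fBCr_kC r w hw
  · have : (QuotientGroup.mk' M).comp ((secF 2 gBC).comp (fBCr r)) = QuotientGroup.mk' M := by
      refine hom_ext' fun n hn => ?_
      rw [MonoidHom.comp_apply, MonoidHom.comp_apply]
      have h1 : n ≠ 1 → QuotientGroup.mk' M (secF 2 gBC (fBCr r (gn 6 n))) =
          QuotientGroup.mk' M (val (gn 6) (sub gBC (fBC.getD n []))) := by
        intro h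
        rw [fBCr_gn' r n hn (by simpa using h), fBC_val, secF_val (by decide)]
      interval_cases n
      · rw [h1 (by omega), m1 a0]; exact map_one _
      · rw [fBCr_gn r 1 (by omega)]
        simp only [Nat.reduceBEq, cond_true]
        rw [hs, b0]
      · rw [h1 (by omega), m1 a1]; exact map_one _
      · rw [h1 (by omega), m1 b1]; exact map_one _
      · rw [h1 (by omega), m1 a2]; exact map_one _
      · rw [h1 (by omega)]; rfl
      · rw [h1 (by omega), m1 a3]; exact map_one _
      · rw [h1 (by omega)]; rfl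
      · rw [h1 (by omega), m1 a4]; exact map_one _
      · rw [h1 (by omega), b4]; exact map_one _
      · rw [h1 (by omega), m1 a5]; exact map_one _
      · rw [h1 (by omega), b5]; exact map_one _
    exact DFunLike.congr_fun this

/-! ## The trisections -/

/-- the triple with relator word `r` -/
def tri (r : FreeGroup (Fin 4)) : Fin 3 → Subgroup (FG 6) :=
  ![kA, kC.map (pia r).toMonoidHom, kB]

lemma sub_nil_mem {q : List (List ℕ)} (hq : q.length ≤ 12) (h : sub q bdw = []) :
    bdry 6 ∈ (hom 6 q).ker := by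
  rw [MonoidHom.mem_ker, ← val_bdw, hom_val hq, h]
  rfl

lemma bdry_kA : bdry 6 ∈ kA := sub_nil_mem (by decide) (by decide +kernel)
lemma bdry_kB : bdry 6 ∈ kB := sub_nil_mem (by decide) (by decide +kernel)
lemma bdry_kC : bdry 6 ∈ kC := sub_nil_mem (by decide) (by decide +kernel)

lemma pia_GN (r : FreeGroup (Fin 4)) : pia r ∈ GN := pi_mem _

lemma pia_bdry (r : FreeGroup (Fin 4)) : pia r (bdry 6) = bdry 6 := by
  have h := pia_GN r
  simp only [GN, Subgroup.mem_inf] at h
  exact h.1.1.1.1.1

lemma pia_kA (r : FreeGroup (Fin 4)) : kA.map (pia r).toMonoidHom = kA := by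
  have h := pia_GN r
  simp only [GN, Subgroup.mem_inf] at h
  exact map_eq_of_mem_stb h.1.1.1.1.2

lemma ker_comp_inv {F Q : Type*} [Group F] [Group Q] (f : F →* Q) (φ : MulAut F) :
    (f.comp (φ⁻¹ : MulAut F).toMonoidHom).ker = f.ker.map φ.toMonoidHom := by
  ext x
  constructor
  · intro hx
    exact ⟨φ⁻¹ x, hx, MulAut.apply_inv_self _ _ _⟩
  · rintro ⟨y, hy, rfl⟩
    rw [MonoidHom.mem_ker]
    show f (φ⁻¹ (φ y)) = 1
    rw [MulAut.inv_apply_self]
    exact hy

/-- **`(kA, pi r kC, kB)` is a group trisection of type `(6; 2, 4, 2)`.** -/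
theorem triU6 (r : FreeGroup (Fin 4)) : IsTriU 6 ![2, 4, 2] (tri r) := by
  have hA : ∃ f : FG 6 →* FreeGroup (Fin 6), Function.Surjective f ∧ f.ker = kA :=
    ⟨_, fA_surj, kA_eq⟩
  have hB : ∃ f : FG 6 →* FreeGroup (Fin 6), Function.Surjective f ∧ f.ker = kB :=
    ⟨_, fB_surj, kB_eq⟩
  have hC : ∃ f : FG 6 →* FreeGroup (Fin 6), Function.Surjective f ∧
      f.ker = kC.map (pia r).toMonoidHom :=
    ⟨(homF 6 fC).comp ((pia r)⁻¹ : MulAut (FG 6)).toMonoidHom,
      fC_surj.comp ((pia r)⁻¹ : MulAut (FG 6)).surjective, by rw [ker_comp_inv, kC_eq]⟩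
  have hAC : ∃ f : FG 6 →* FreeGroup (Fin 2), Function.Surjective f ∧
      f.ker = kA ⊔ kC.map (pia r).toMonoidHom :=
    ⟨(homF 2 fAC).comp ((pia r)⁻¹ : MulAut (FG 6)).toMonoidHom,
      fAC_surj.comp ((pia r)⁻¹ : MulAut (FG 6)).surjective, by
        rw [ker_comp_inv, kAC_eq, Subgroup.map_sup, pia_kA]⟩
  have hAB : ∃ f : FG 6 →* FreeGroup (Fin 4), Function.Surjective f ∧ f.ker = kA ⊔ kB :=
    ⟨_, fAB_surj, kAB_eq⟩
  have hBC : ∃ f : FG 6 →* FreeGroup (Fin 2), Function.Surjective f ∧
      f.ker = kC.map (pia r).toMonoidHom ⊔ kB := ⟨_, fBCr_surj r, kBC_eq r⟩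
  refine ⟨?_, ?_, ?_⟩
  · intro i
    fin_cases i
    · exact bdry_kA
    · exact ⟨bdry 6, bdry_kC, pia_bdry r⟩
    · exact bdry_kB
  · intro i
    fin_cases i
    · exact hA
    · exact hC
    · exact hB
  · intro i j l hij hil hjl
    fin_cases i <;> fin_cases j <;> fin_cases l <;> simp at hij hil hjl
    · exact hAC
    · exact hAB
    · show ∃ f : FG 6 →* FreeGroup (Fin 2), Function.Surjective f ∧
        f.ker = kC.map (pia r).toMonoidHom ⊔ kA
      rw [sup_comm]
      exact hAC
    · exact hBC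
    · show ∃ f : FG 6 →* FreeGroup (Fin 4), Function.Surjective f ∧ f.ker = kB ⊔ kA
      rw [sup_comm]
      exact hAB
    · show ∃ f : FG 6 →* FreeGroup (Fin 2), Function.Surjective f ∧
        f.ker = kB ⊔ kC.map (pia r).toMonoidHom
      rw [sup_comm]
      exact hBC

/-! ## The small trisection -/

lemma fix45 : ∀ i : Fin 2, ∀ n : Fin 4,
    (tb Tp (al (Fin.castAdd 2 i))).getD (8 + n.1) [] = [2 * (8 + n.1)] := by decide +kernel

/-- words in `x_1`, `y` fix the handles 4 and 5 -/
lemma pia_fix (z : FreeGroup (Fin 2)) (n : ℕ) (h1 : 8 ≤ n) (h2 : n < 12) :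
    pia (FreeGroup.map (Fin.castAdd 2) z) (gn 6 n) = gn 6 n := by
  have key : ∀ i : Fin 2, P (al (Fin.castAdd 2 i)) (gn 6 n) = gn 6 n := by
    intro i
    show hom 6 (tb Tp (al (Fin.castAdd 2 i))) (gn 6 n) = gn 6 n
    have := fix45 i ⟨n - 8, by omega⟩
    simp only at this
    rw [show 8 + (n - 8) = n by omega] at this
    rw [hom_gn _ _ (by omega), this, val_cons, val_nil, mul_one, lv_even]
  refine fg_left_ind (C := fun z => pia (FreeGroup.map (Fin.castAdd 2) z) (gn 6 n) = gn 6 n)
    ?_ ?_ ?_ z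
  · rw [map_one, map_one]
    rfl
  · intro i z ih
    rw [map_mul, map_mul, FreeGroup.map.of, pia_of, MulAut.mul_apply, ih, key]
  · intro i z ih
    rw [map_mul, map_mul, map_inv, map_inv, FreeGroup.map.of, pia_of, MulAut.mul_apply, ih,
      MulAut.inv_apply, MulEquiv.symm_apply_eq, key]

lemma crv5 (i : Fin 3) : crv 5 1 i = if i = 1 then gn 6 11 else gn 6 10 := rfl

lemma crv4 (i : Fin 3) : incl 5 (crv 4 1 i) = if i = 1 then gn 6 9 else gn 6 8 := by
  unfold crv
  split_ifs
  · exact incl_of 5 (Fin.last 4) true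
  · exact incl_of 5 (Fin.last 4) false

/-- **The small trisection.** If `r` is a word in `x_1`, `y`, then `tri r` is a double
stabilisation of a balanced trisection of type `(4,2)`. -/
theorem small (z : FreeGroup (Fin 2)) : ∃ M : Fin 3 → Subgroup (FG 4), IsTri 4 2 M ∧
    stab1 1 (stab1 1 M) = tri (FreeGroup.map (Fin.castAdd 2) z) := by
  set r := FreeGroup.map (Fin.castAdd 2) z with hr
  have h6 := triU6 r
  have c5 : ∀ i, crv 5 1 i ∈ tri r i := by
    intro i
    rw [crv5]
    fin_cases i
    · exact mem_kA_of (n := 10) (by decide)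
    · exact ⟨gn 6 11, mem_kC_of (n := 11) (by decide), pia_fix z 11 (by omega) (by omega)⟩
    · exact mem_kB_of (n := 10) (by decide)
  obtain ⟨h5, e5, -⟩ := split1 (g := 5) h6 1 c5
  have c4 : ∀ i, crv 4 1 i ∈ (fun i => (tri r i).comap (incl 5)) i := by
    intro i
    show incl 5 (crv 4 1 i) ∈ tri r i
    rw [crv4]
    fin_cases i
    · exact mem_kA_of (n := 8) (by decide)
    · exact ⟨gn 6 9, mem_kC_of (n := 9) (by decide), pia_fix z 9 (by omega) (by omega)⟩
    · exact mem_kB_of (n := 8) (by decide)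
  obtain ⟨h4, e4, -⟩ := split1 (g := 4) h5 1 c4
  have hk : (fun _ => 2 : Fin 3 → ℕ) =
      Function.update (Function.update ![2, 4, 2] 1 (![2, 4, 2] 1 - 1)) 1
        (Function.update ![2, 4, 2] 1 (![2, 4, 2] 1 - 1) 1 - 1) := by
    funext i
    fin_cases i <;> simp [Function.update]
  refine ⟨fun i => ((tri r i).comap (incl 5)).comap (incl 4), ?_, ?_⟩
  · unfold IsTri
    rw [hk]
    exact h4
  · rw [← e4, ← e5]

end Pool.Agent.Pfc0641.W
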