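import Mathlib
import Pool.Agent.Lib.Pfc0641.Split

/-!
Strong isomorphisms of group trisections: equivalence relation, transport of `IsTriU`,
compatibility with stabilisation, order of stabilisations.
-/

namespace Pool.Agent.Pfc0641

open Subgroup

lemma SIso.refl {g : ℕ} (N : Fin 3 → Subgroup (FG g)) : SIso N N :=
  ⟨MulEquiv.refl _, rfl, fun i => by
    ext x
    simp⟩

lemma SIso.symm {g : ℕ} {N N' : Fin 3 → Subgroup (FG g)} (h : SIso N N') : SIso N' N := by
  obtain ⟨φ, h1, h2⟩ := h
  refine ⟨φ.symm, ?_, fun i => ?_⟩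
  · rw [MulEquiv.symm_apply_eq]
    exact h1.symm
  · rw [← h2 i, Subgroup.map_map]
    convert Subgroup.map_id _
    ext x
    simp

lemma SIso.trans {g : ℕ} {N N' N'' : Fin 3 → Subgroup (FG g)} (h : SIso N N')
    (h' : SIso N' N'') : SIso N N'' := by
  obtain ⟨φ, h1, h2⟩ := h
  obtain ⟨ψ, h3, h4⟩ := h'
  refine ⟨φ.trans ψ, ?_, fun i => ?_⟩
  · simp [h1, h3]
  · rw [← h4 i, ← h2 i, Subgroup.map_map]
    rfl

lemma IsTriU.of_SIso {g : ℕ} {k : Fin 3 → ℕ} {N N' : Fin 3 → Subgroup (FG g)}
    (h : IsTriU g k N) (e : SIso N N') : IsTriU g k N' := by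
  obtain ⟨φ, h1, h2⟩ := e
  have aux : ∀ (r : ℕ) (f : FG g →* FreeGroup (Fin r)) (K : Subgroup (FG g)),
      Function.Surjective f → f.ker = K →
      ∃ f' : FG g →* FreeGroup (Fin r), Function.Surjective f' ∧
        f'.ker = K.map φ.toMonoidHom := by
    intro r f K hf hk
    refine ⟨f.comp φ.symm.toMonoidHom, hf.comp φ.symm.surjective, ?_⟩
    rw [← hk]
    ext x
    constructor
    · intro hx
      exact ⟨φ.symm x, hx, by simp⟩
    · rintro ⟨y, hy, rfl⟩
      rw [MonoidHom.mem_ker]
      simpa using hy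
  refine ⟨fun i => ?_, fun i => ?_, fun i j l hij hil hjl => ?_⟩
  · rw [← h2 i]
    exact ⟨bdry g, h.bdry_mem i, h1⟩
  · obtain ⟨f, hf, hk⟩ := h.handlebody i
    rw [← h2 i]
    exact aux _ f _ hf hk
  · obtain ⟨f, hf, hk⟩ := h.sector i j l hij hil hjl
    rw [← h2 i, ← h2 j, ← Subgroup.map_sup]
    exact aux _ f _ hf hk

/-- One-sided inclusions suffice: if an automorphism fixing the boundary word maps each `N i` into
`N' i`, then it is a strong isomorphism. -/
lemma SIso.of_le {g : ℕ} {N N' : Fin 3 → Subgroup (FG g)}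
    (hN : ∀ i, ∃ f : FG g →* FreeGroup (Fin g), Function.Surjective f ∧ f.ker = N i)
    (hN' : ∀ i, ∃ f : FG g →* FreeGroup (Fin g), Function.Surjective f ∧ f.ker = N' i)
    (φ : FG g ≃* FG g) (h1 : φ (bdry g) = bdry g) (h2 : ∀ i, ∀ w ∈ N i, φ w ∈ N' i) :
    SIso N N' := by
  refine ⟨φ, h1, fun i => ?_⟩
  obtain ⟨f, hf, hk⟩ := hN i
  obtain ⟨f', hf', hk'⟩ := hN' i
  have hle : f.ker ≤ (f'.comp φ.toMonoidHom).ker := by
    intro w hw
    rw [hk] at hw
    have := h2 i w hw
    rw [← hk'] at this
    exact this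
  have he := ker_eq_of_le f (f'.comp φ.toMonoidHom) hf (hf'.comp φ.surjective) hle
  apply le_antisymm
  · rintro _ ⟨w, hw, rfl⟩
    exact h2 i w hw
  · intro w hw
    refine ⟨φ.symm w, ?_, by simp⟩
    rw [← hk'] at hw
    have h3 : φ.symm w ∈ f.ker := by
      rw [he, MonoidHom.mem_ker]
      simpa using hw
    rw [← hk]
    exact h3

/-- Extend an endomorphism by the identity on the last handle. -/
def extHom {g : ℕ} (φ : FG g →* FG g) : FG (g + 1) →* FG (g + 1) :=
  FreeGroup.lift fun p => Fin.lastCases (motive := fun _ => FG (g + 1))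
    (FreeGroup.of (Fin.last g, p.2)) (fun i => incl g (φ (FreeGroup.of (i, p.2)))) p.1

@[simp] lemma extHom_last {g : ℕ} (φ : FG g →* FG g) (β : Bool) :
    extHom φ (FreeGroup.of (Fin.last g, β)) = FreeGroup.of (Fin.last g, β) := by
  simp [extHom]

@[simp] lemma extHom_incl {g : ℕ} (φ : FG g →* FG g) (w : FG g) :
    extHom φ (incl g w) = incl g (φ w) := by
  have : (extHom φ).comp (incl g) = (incl g).comp φ := by
    ext ⟨i, β⟩
    simp [extHom]
  exact DFunLike.congr_fun this w

lemma extHom_comp {g : ℕ} (φ ψ : FG g →* FG g) :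
    (extHom φ).comp (extHom ψ) = extHom (φ.comp ψ) := by
  apply FreeGroup.ext_hom
  rintro ⟨i, β⟩
  refine Fin.lastCases ?_ (fun i => ?_) i
  · simp
  · rw [MonoidHom.comp_apply, ← incl_of, extHom_incl, extHom_incl, extHom_incl,
      MonoidHom.comp_apply]

lemma extHom_id {g : ℕ} : extHom (MonoidHom.id (FG g)) = MonoidHom.id _ := by
  apply FreeGroup.ext_hom
  rintro ⟨i, β⟩
  refine Fin.lastCases ?_ (fun i => ?_) i
  · simp
  · rw [← incl_of, extHom_incl]
    rfl

/-- Extend an automorphism by the identity on the last handle. -/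
def extEquiv {g : ℕ} (φ : FG g ≃* FG g) : FG (g + 1) ≃* FG (g + 1) :=
  MonoidHom.toMulEquiv (extHom φ.toMonoidHom) (extHom φ.symm.toMonoidHom)
    (by
      rw [extHom_comp]
      convert extHom_id
      ext x
      simp)
    (by
      rw [extHom_comp]
      convert extHom_id
      ext x
      simp)

lemma extEquiv_apply {g : ℕ} (φ : FG g ≃* FG g) (w : FG (g + 1)) :
    extEquiv φ w = extHom φ.toMonoidHom w := rfl

lemma extEquiv_bdry {g : ℕ} (φ : FG g ≃* FG g) (h : φ (bdry g) = bdry g) :
    extEquiv φ (bdry (g + 1)) = bdry (g + 1) := by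
  rw [extEquiv_apply, bdry_succ, map_mul, extHom_incl]
  have : φ.toMonoidHom (bdry g) = bdry g := h
  rw [this]
  simp [a, b]

/-- Strong isomorphisms extend over unbalanced stabilisation. -/
lemma SIso.stab1 {g : ℕ} {N N' : Fin 3 → Subgroup (FG g)} (h : SIso N N') (l : Fin 3) :
    SIso (stab1 l N) (stab1 l N') := by
  obtain ⟨φ, h1, h2⟩ := h
  refine ⟨extEquiv φ, extEquiv_bdry φ h1, fun i => ?_⟩
  have e1 : Function.Surjective (extEquiv φ).toMonoidHom := (extEquiv φ).surjective
  rw [stab1_eq, stab1_eq, stN, stN, Subgroup.map_normalClosure _ _ e1]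
  congr 1
  rw [Set.image_union, Set.image_singleton]
  congr 1
  · rw [← h2 i, ← Set.image_comp]
    ext x
    constructor
    · rintro ⟨w, hw, rfl⟩
      refine ⟨φ w, ⟨w, hw, rfl⟩, ?_⟩
      exact (extHom_incl φ.toMonoidHom w).symm
    · rintro ⟨_, ⟨w, hw, rfl⟩, rfl⟩
      exact ⟨w, hw, extHom_incl φ.toMonoidHom w⟩
  · rw [crv_eq]
    congr 1
    exact extHom_last φ.toMonoidHom _

/-- Balanced stabilisation is compatible with strong isomorphism. -/
lemma SIso.stab {g : ℕ} {N N' : Fin 3 → Subgroup (FG g)} (h : SIso N N') :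
    SIso (stab N) (stab N') := ((h.stab1 0).stab1 1).stab1 2

/-! ### Interchanging the last two handles -/

/-- The last but one handle. -/
def pen (g : ℕ) : Fin (g + 2) := Fin.castSucc (Fin.last g)

/-- `[a,b]` on the last but one handle. -/
def cpen (g : ℕ) : FG (g + 2) := a (pen g) * b (pen g) * (a (pen g))⁻¹ * (b (pen g))⁻¹

/-- `[a,b]` on the last handle. -/
def clast (g : ℕ) : FG (g + 2) :=
  a (Fin.last (g + 1)) * b (Fin.last (g + 1)) * (a (Fin.last (g + 1)))⁻¹ *
    (b (Fin.last (g + 1)))⁻¹

/-- Interchange of the last two handles: the last one goes to the last but one, which goes to the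
conjugate of the last one. -/
def swp (g : ℕ) : FG (g + 2) →* FG (g + 2) :=
  FreeGroup.lift fun p => Fin.lastCases (motive := fun _ => FG (g + 2))
    (FreeGroup.of (pen g, p.2))
    (fun i => Fin.lastCases (motive := fun _ => FG (g + 2))
      (cpen g * FreeGroup.of (Fin.last (g + 1), p.2) * (cpen g)⁻¹)
      (fun j => FreeGroup.of (Fin.castSucc (Fin.castSucc j), p.2)) i) p.1

/-- The inverse interchange. -/
def swpInv (g : ℕ) : FG (g + 2) →* FG (g + 2) :=
  FreeGroup.lift fun p => Fin.lastCases (motive := fun _ => FG (g + 2))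
    ((clast g)⁻¹ * FreeGroup.of (pen g, p.2) * clast g)
    (fun i => Fin.lastCases (motive := fun _ => FG (g + 2))
      (FreeGroup.of (Fin.last (g + 1), p.2))
      (fun j => FreeGroup.of (Fin.castSucc (Fin.castSucc j), p.2)) i) p.1

@[simp] lemma swp_last (g : ℕ) (β : Bool) :
    swp g (FreeGroup.of (Fin.last (g + 1), β)) = FreeGroup.of (pen g, β) := by
  simp [swp]

@[simp] lemma swp_pen (g : ℕ) (β : Bool) :
    swp g (FreeGroup.of (pen g, β)) =
      cpen g * FreeGroup.of (Fin.last (g + 1), β) * (cpen g)⁻¹ := by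
  simp [swp, pen]

@[simp] lemma swp_rest (g : ℕ) (j : Fin g) (β : Bool) :
    swp g (FreeGroup.of (Fin.castSucc (Fin.castSucc j), β)) =
      FreeGroup.of (Fin.castSucc (Fin.castSucc j), β) := by
  simp [swp]

@[simp] lemma swpInv_last (g : ℕ) (β : Bool) :
    swpInv g (FreeGroup.of (Fin.last (g + 1), β)) =
      (clast g)⁻¹ * FreeGroup.of (pen g, β) * clast g := by
  simp [swpInv]

@[simp] lemma swpInv_pen (g : ℕ) (β : Bool) :
    swpInv g (FreeGroup.of (pen g, β)) = FreeGroup.of (Fin.last (g + 1), β) := by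
  simp [swpInv, pen]

@[simp] lemma swpInv_rest (g : ℕ) (j : Fin g) (β : Bool) :
    swpInv g (FreeGroup.of (Fin.castSucc (Fin.castSucc j), β)) =
      FreeGroup.of (Fin.castSucc (Fin.castSucc j), β) := by
  simp [swpInv]

lemma swp_clast (g : ℕ) : swp g (clast g) = cpen g := by
  simp [clast, cpen, a, b]

lemma swpInv_cpen (g : ℕ) : swpInv g (cpen g) = clast g := by
  simp [clast, cpen, a, b]

lemma swp_comp_swpInv (g : ℕ) : (swp g).comp (swpInv g) = MonoidHom.id _ := by
  apply FreeGroup.ext_hom
  rintro ⟨i, β⟩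
  refine Fin.lastCases ?_ (fun i => ?_) i
  · rw [MonoidHom.comp_apply, swpInv_last, map_mul, map_mul, map_inv, swp_clast, swp_pen]
    simp [mul_assoc]
  · refine Fin.lastCases ?_ (fun i => ?_) i
    · have := swpInv_pen g β
      rw [pen] at this
      rw [MonoidHom.comp_apply, this, swp_last]
      rfl
    · rw [MonoidHom.comp_apply, swpInv_rest, swp_rest]
      rfl

lemma swpInv_comp_swp (g : ℕ) : (swpInv g).comp (swp g) = MonoidHom.id _ := by
  apply FreeGroup.ext_hom
  rintro ⟨i, β⟩
  refine Fin.lastCases ?_ (fun i => ?_) i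
  · rw [MonoidHom.comp_apply, swp_last, swpInv_pen]
    rfl
  · refine Fin.lastCases ?_ (fun i => ?_) i
    · have := swp_pen g β
      rw [pen] at this
      rw [MonoidHom.comp_apply, this, map_mul, map_mul, map_inv, swpInv_cpen, swpInv_last]
      simp [mul_assoc, pen]
    · rw [MonoidHom.comp_apply, swp_rest, swpInv_rest]
      rfl

/-- The interchange as an automorphism. -/
def swpEquiv (g : ℕ) : FG (g + 2) ≃* FG (g + 2) :=
  MonoidHom.toMulEquiv (swp g) (swpInv g) (swpInv_comp_swp g) (swp_comp_swpInv g)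

lemma swp_incl_incl (g : ℕ) (w : FG g) :
    swp g (incl (g + 1) (incl g w)) = incl (g + 1) (incl g w) := by
  have : ((swp g).comp (incl (g + 1))).comp (incl g) = (incl (g + 1)).comp (incl g) := by
    ext ⟨i, β⟩
    simp
  exact DFunLike.congr_fun this w

lemma bdry_two (g : ℕ) : bdry (g + 2) = incl (g + 1) (incl g (bdry g)) * cpen g * clast g := by
  rw [bdry_succ (g + 1), bdry_succ g, map_mul]
  simp only [map_mul, map_inv]
  simp [cpen, clast, a, b, pen]

lemma swp_bdry (g : ℕ) : swp g (bdry (g + 2)) = bdry (g + 2) := by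
  rw [bdry_two, map_mul, map_mul, swp_incl_incl, swp_clast]
  have : swp g (cpen g) = cpen g * clast g * (cpen g)⁻¹ := by
    conv_lhs => rw [cpen]
    simp only [a, b, map_mul, map_inv, swp_pen, clast]
    group
  rw [this]
  group

/-- Two unbalanced stabilisations can be interchanged. -/
lemma stab1_comm {g : ℕ} (l m : Fin 3) (N : Fin 3 → Subgroup (FG g)) :
    SIso (stab1 l (stab1 m N)) (stab1 m (stab1 l N)) := by
  have key : ∀ (l m i : Fin 3), ∀ w ∈ stab1 l (stab1 m N) i, swp g w ∈ stab1 m (stab1 l N) i := by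
    intro l m i
    have hle : stab1 l (stab1 m N) i ≤ (stab1 m (stab1 l N) i).comap (swp g) := by
      rw [stab1_eq, stab1_eq m (stab1 l N)]
      apply stN_le
      · intro w hw
        have h2 : stN (N i) {crv g m i} ≤
            ((stN (stab1 l N i) {crv (g + 1) m i}).comap (swp g)).comap (incl (g + 1)) := by
          apply stN_le
          · intro v hv
            rw [mem_comap, mem_comap, swp_incl_incl]
            exact incl_mem_stN (incl_mem_stN hv)
          · rintro v rfl
            rw [mem_comap, mem_comap, crv_eq g m i, incl_of]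
            have := swp_pen g (decide (i = m))
            rw [pen] at this
            rw [this]
            apply Normal.conj_mem inferInstance
            apply mem_stN
            rw [crv_eq]
            rfl
        exact h2 hw
      · rintro w rfl
        rw [mem_comap, crv_eq (g + 1) l i, swp_last]
        have : (FreeGroup.of (pen g, decide (i = l)) : FG (g + 2)) =
            incl (g + 1) (crv g l i) := by
          rw [crv_eq, incl_of]
          rfl
        rw [this]
        exact incl_mem_stN (mem_stN rfl)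
    exact hle
  have key' : ∀ (l m i : Fin 3), ∀ w ∈ stab1 l (stab1 m N) i,
      swpInv g w ∈ stab1 m (stab1 l N) i := by
    intro l m i
    have hle : stab1 l (stab1 m N) i ≤ (stab1 m (stab1 l N) i).comap (swpInv g) := by
      rw [stab1_eq, stab1_eq m (stab1 l N)]
      apply stN_le
      · intro w hw
        have h2 : stN (N i) {crv g m i} ≤
            ((stN (stab1 l N i) {crv (g + 1) m i}).comap (swpInv g)).comap (incl (g + 1)) := by
          apply stN_le
          · intro v hv
            rw [mem_comap, mem_comap]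
            have e : swpInv g (incl (g + 1) (incl g v)) = incl (g + 1) (incl g v) := by
              have h3 := swp_incl_incl g v
              have h4 := DFunLike.congr_fun (swpInv_comp_swp g) (incl (g + 1) (incl g v))
              rw [MonoidHom.comp_apply, h3] at h4
              exact h4
            rw [e]
            exact incl_mem_stN (incl_mem_stN hv)
          · rintro v rfl
            rw [mem_comap, mem_comap, crv_eq g m i, incl_of]
            have := swpInv_pen g (decide (i = m))
            rw [pen] at this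
            rw [this]
            apply mem_stN
            rw [crv_eq]
            rfl
        exact h2 hw
      · rintro w rfl
        rw [mem_comap, crv_eq (g + 1) l i, swpInv_last]
        have : (FreeGroup.of (pen g, decide (i = l)) : FG (g + 2)) =
            incl (g + 1) (crv g l i) := by
          rw [crv_eq, incl_of]
          rfl
        rw [this]
        have hc := (inferInstance : (stN (stab1 l N i) {crv (g + 1) m i}).Normal).conj_mem
          _ (incl_mem_stN (mem_stN rfl) : incl (g + 1) (crv g l i) ∈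
            stN (stab1 l N i) {crv (g + 1) m i}) (clast g)⁻¹
        rwa [inv_inv] at hc
    exact hle
  refine ⟨swpEquiv g, swp_bdry g, fun i => ?_⟩
  apply le_antisymm
  · rintro _ ⟨w, hw, rfl⟩
    exact key l m i w hw
  · intro w hw
    refine ⟨swpInv g w, key' m l i w hw, ?_⟩
    exact DFunLike.congr_fun (swp_comp_swpInv g) w

end Pool.Agent.Pfc0641
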