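import Mathlib
import Pool.Agent.Lib.Pfc0641.Iso
import Pool.Agent.Lib.Pfc0641.Irred

/-!
A criterion for a group trisection not to be a stabilisation, and the assembly of the theorem from
the data of a stable isomorphism.
-/

namespace Pool.Agent.Pfc0641

open Subgroup

/-- Irreducibility data for the sector `(i,j)`: affine representations `q` of all of `FG g` over
the circle `2 (U-2)^2 + 2 (V-1)^2 = 1`, killing the three subgroups, and three elements, generating
modulo `N i ⊔ N j`, on which `q` takes the values of `rho` on the free generators. -/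
def Irr {g : ℕ} (N : Fin 3 → Subgroup (FG g)) (i j : Fin 3) : Prop :=
  ∃ (q : ∀ U V : ℝ, 0 < U → 0 < V → (FG g →* Equiv.Perm ℝ)) (X : Fin 3 → FG g),
    (∀ U V hU hV, 2 * (U - 2) ^ 2 + 2 * (V - 1) ^ 2 = 1 → ∀ m, ∀ w ∈ N m, q U V hU hV w = 1) ∧
    (∀ U V hU hV, 2 * (U - 2) ^ 2 + 2 * (V - 1) ^ 2 = 1 → ∀ m,
      q U V hU hV (X m) = rho U V hU hV (FreeGroup.of m)) ∧
    closure (Set.range X) ⊔ (N i ⊔ N j) = ⊤

/-- A sector whose free basis has a member that dies in the third subgroup. -/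
def HasY {g : ℕ} (N : Fin 3 → Subgroup (FG g)) (i j l : Fin 3) (r : ℕ) : Prop :=
  ∃ f : FG g →* FreeGroup (Fin (r + 1)), Function.Surjective f ∧ f.ker = N i ⊔ N j ∧
    ∃ y ∈ N l, f y = FreeGroup.of (Fin.last r)

lemma hasY_new {g : ℕ} {k : Fin 3 → ℕ} {N : Fin 3 → Subgroup (FG g)} (h : IsTriU g k N)
    {i j l : Fin 3} (hij : i ≠ j) (hil : i ≠ l) (hjl : j ≠ l) :
    HasY (stab1 l N) i j l (k l) := by
  obtain ⟨f, hf, hk⟩ := h.sector i j l hij hil hjl
  have := h.normal i
  have := h.normal j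
  refine ⟨ext1 false f, ext1_surjective _ f hf, ?_, crv g l l, ?_, ?_⟩
  · rw [stab1_eq, stab1_eq, stN_sup, crv_same hil hjl, ← hk]
    exact ext1_ker _ f hf
  · rw [stab1_eq]
    exact mem_stN rfl
  · rw [crv_eq]
    simpa using ext1_last' false f

lemma HasY.stab1 {g : ℕ} {N : Fin 3 → Subgroup (FG g)} (hn : ∀ i, (N i).Normal)
    {i j l : Fin 3} {r : ℕ} (h : HasY N i j l r) (hij : i ≠ j) {m : Fin 3} (hm : m = i ∨ m = j) :
    HasY (stab1 m N) i j l r := by
  obtain ⟨f, hf, hk, y, hy, hfy⟩ := h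
  refine ⟨f.comp (retr g), hf.comp (retr_surjective g), ?_, incl g y, ?_, ?_⟩
  · rw [stab1_eq, stab1_eq, stN_sup, crv_pair hij hm, ← hk]
    exact retr_ker f
  · rw [stab1_eq]
    exact incl_mem_stN hy
  · rw [MonoidHom.comp_apply, retr_incl, hfy]

lemma stab1_normal {g : ℕ} (N : Fin 3 → Subgroup (FG g)) (l i : Fin 3) :
    (Pool.Agent.Pfc0641.stab1 l N i).Normal := normalClosure_normal

lemma hasY_stab {g : ℕ} {k : Fin 3 → ℕ} {N : Fin 3 → Subgroup (FG g)} (h : IsTriU g k N)
    {i j l : Fin 3} (hij : i ≠ j) (hil : i ≠ l) (hjl : j ≠ l) :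
    HasY (stab N) i j l (k l) := by
  have h0 := h.stab1 0
  have h1 := h0.stab1 1
  unfold stab
  by_cases l0 : l = 0
  · subst l0
    exact ((hasY_new h hij hil hjl).stab1 (stab1_normal N 0) hij (m := 1) (by omega)).stab1
      (stab1_normal _ 1) hij (m := 2) (by omega)
  · by_cases l1 : l = 1
    · subst l1
      have := (hasY_new h0 hij hil hjl).stab1 (stab1_normal _ 1) hij (m := 2) (by omega)
      simpa [Function.update] using this
    · obtain rfl : l = 2 := by omega
      have := hasY_new h1 hij hil hjl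
      simpa [Function.update] using this

/-- **Criterion.** -/
theorem Irr.not_wiso {g : ℕ} {k : Fin 3 → ℕ} {N : Fin 3 → Subgroup (FG (g + 3))}
    (hN : IsTriU (g + 3) k N) {i j l : Fin 3} (hij : i ≠ j) (hil : i ≠ l) (hjl : j ≠ l)
    (hkl : k l = 3) (h : Irr N i j) {N0 : Fin 3 → Subgroup (FG g)}
    (hN0 : IsTri g 2 N0) : ¬ WIso N (stab N0) := by
  rintro ⟨ψ, σ, hσ⟩
  obtain ⟨q, X, hq1, hq2, hX⟩ := h
  have hsec := hN.sector i j l hij hil hjl
  rw [hkl] at hsec
  obtain ⟨f, hf, hk⟩ := hsec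
  obtain ⟨f', hf', hk', y, hy, hfy⟩ := hasY_stab hN0 (i := σ i) (j := σ j) (l := σ l)
    (fun e => hij (σ.injective e)) (fun e => hil (σ.injective e))
    (fun e => hjl (σ.injective e))
  have hS : IsTri (g + 3) 3 (stab N0) := hN0.stab
  -- `f'` factors through the surface group
  have hrel : relB (g + 3) ≤ f'.ker := by
    unfold relB
    apply normalClosure_le_normal
    intro w hw
    rw [Set.mem_singleton_iff.1 hw, hk']
    exact mem_sup_left (hS.bdry_mem _)
  let fb : SG (g + 3) →* FreeGroup (Fin (2 + 1)) := QuotientGroup.lift (relB (g + 3)) f' hrel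
  have hfb : ∀ w, fb (QuotientGroup.mk' (relB (g + 3)) w) = f' w := fun w => rfl
  let F : FG (g + 3) →* FreeGroup (Fin 3) :=
    (fb.comp ψ.toMonoidHom).comp (QuotientGroup.mk' (relB (g + 3)))
  have hF : ∀ w, F w = fb (ψ (QuotientGroup.mk' (relB (g + 3)) w)) := fun w => rfl
  have hFs : Function.Surjective F := by
    intro z
    obtain ⟨w, rfl⟩ := hf' z
    obtain ⟨v, hv⟩ := ψ.surjective (QuotientGroup.mk' (relB (g + 3)) w)
    obtain ⟨u, rfl⟩ := QuotientGroup.mk'_surjective (relB (g + 3)) v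
    refine ⟨u, ?_⟩
    rw [hF, hv, hfb]
  have hmem : ∀ m, ∀ w ∈ N m, ∃ w' ∈ stab N0 (σ m), F w = f' w' := by
    intro m w hw
    have h1 : ψ.toMonoidHom (QuotientGroup.mk' (relB (g + 3)) w) ∈
        ((N m).map (QuotientGroup.mk' (relB (g + 3)))).map ψ.toMonoidHom :=
      ⟨_, ⟨w, hw, rfl⟩, rfl⟩
    rw [hσ m] at h1
    obtain ⟨w', hw', he⟩ := h1
    refine ⟨w', hw', ?_⟩
    rw [hF, ← hfb]
    exact congrArg fb he.symm
  have hle : f.ker ≤ F.ker := by
    rw [hk]
    apply sup_le
    · intro w hw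
      obtain ⟨w', hw', he⟩ := hmem i w hw
      rw [MonoidHom.mem_ker, he, ← MonoidHom.mem_ker, hk']
      exact mem_sup_left hw'
    · intro w hw
      obtain ⟨w', hw', he⟩ := hmem j w hw
      rw [MonoidHom.mem_ker, he, ← MonoidHom.mem_ker, hk']
      exact mem_sup_right hw'
  have hker : F.ker = N i ⊔ N j := by
    rw [← hk]
    exact (ker_eq_of_le f F hf hFs hle).symm
  -- the element of `N l` that maps to the last generator
  obtain ⟨n, hn, hFn⟩ : ∃ n ∈ N l, F n = FreeGroup.of (Fin.last 2) := by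
    have h1 : QuotientGroup.mk' (relB (g + 3)) y ∈
        (stab N0 (σ l)).map (QuotientGroup.mk' (relB (g + 3))) := ⟨y, hy, rfl⟩
    rw [← hσ l] at h1
    obtain ⟨_, ⟨n, hn, rfl⟩, he⟩ := h1
    refine ⟨n, hn, ?_⟩
    rw [hF, ← hfy, ← hfb]
    exact congrArg fb he
  -- the automorphism
  let θ : FreeGroup (Fin 3) →* FreeGroup (Fin 3) := FreeGroup.lift fun m => F (X m)
  have hθs : Function.Surjective θ := by
    rw [← MonoidHom.range_eq_top, eq_top_iff]
    have h1 : (⊤ : Subgroup (FG (g + 3))) ≤ θ.range.comap F := by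
      rw [← hX]
      refine sup_le ?_ ?_
      · rw [closure_le]
        rintro _ ⟨m, rfl⟩
        exact ⟨FreeGroup.of m, by simp [θ]⟩
      · rw [← hker]
        intro w hw
        rw [mem_comap, MonoidHom.mem_ker.1 hw]
        exact one_mem _
    intro z _
    obtain ⟨w, rfl⟩ := hFs z
    exact h1 (mem_top w)
  have hθ : Function.Bijective θ := ⟨hopfian θ hθs, hθs⟩
  let e : FreeGroup (Fin 3) ≃* FreeGroup (Fin 3) := MulEquiv.ofBijective θ hθ
  obtain ⟨U, V, hU, hV, hc, hne⟩ := irred e.symm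
  apply hne
  have hqF : F.ker ≤ (q U V hU hV).ker := by
    rw [hker]
    exact sup_le (fun w hw => hq1 U V hU hV hc i w hw) (fun w hw => hq1 U V hU hV hc j w hw)
  let qb : FreeGroup (Fin 3) →* Equiv.Perm ℝ := F.liftOfSurjective hFs ⟨q U V hU hV, hqF⟩
  have hqb : ∀ w, qb (F w) = q U V hU hV w := fun w =>
    MonoidHom.liftOfRightInverse_comp_apply F _ (Function.rightInverse_surjInv hFs)
      ⟨q U V hU hV, hqF⟩ w
  have h1 : qb.comp θ = rho U V hU hV := by
    ext1 m
    rw [MonoidHom.comp_apply]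
    have : θ (FreeGroup.of m) = F (X m) := by simp [θ]
    rw [this, hqb, hq2 U V hU hV hc m]
  rw [← h1, MonoidHom.comp_apply]
  have h2 : θ (e.symm (FreeGroup.of 2)) = FreeGroup.of 2 := e.apply_symm_apply _
  rw [h2]
  have h3 : (FreeGroup.of 2 : FreeGroup (Fin 3)) = F n := hFn.symm
  rw [h3, hqb]
  exact hq1 U V hU hV hc l n hn

/-- Passing from the stabilisation opposite to the sector to the trisection itself. -/
theorem irr_of_stab1 {g : ℕ} {N : Fin 3 → Subgroup (FG g)} (hn : ∀ i, (N i).Normal)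
    {i j l : Fin 3} (hil : i ≠ l)
    (q : ∀ U V : ℝ, 0 < U → 0 < V → (FG (g + 1) →* Equiv.Perm ℝ)) (X : Fin 3 → FG (g + 1))
    (hq1 : ∀ U V hU hV, 2 * (U - 2) ^ 2 + 2 * (V - 1) ^ 2 = 1 → ∀ m,
      ∀ w ∈ stab1 l N m, q U V hU hV w = 1)
    (hq2 : ∀ U V hU hV, 2 * (U - 2) ^ 2 + 2 * (V - 1) ^ 2 = 1 → ∀ m,
      q U V hU hV (X m) = rho U V hU hV (FreeGroup.of m))
    (hX : closure (Set.range X ∪ {b (Fin.last g)}) ⊔ (stab1 l N i ⊔ stab1 l N j) = ⊤) :
    Irr N i j := by
  have hni := hn i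
  have hnj := hn j
  refine ⟨fun U V hU hV => (q U V hU hV).comp (incl g), fun m => retr g (X m), ?_, ?_, ?_⟩
  · intro U V hU hV hc m w hw
    rw [MonoidHom.comp_apply]
    exact hq1 U V hU hV hc m _ (by rw [stab1_eq]; exact incl_mem_stN hw)
  · intro U V hU hV hc m
    rw [← hq2 U V hU hV hc m, MonoidHom.comp_apply]
    have ha : a (Fin.last g) ∈ (q U V hU hV).ker := by
      refine hq1 U V hU hV hc i _ ?_
      rw [stab1_eq]
      exact mem_stN (by simp [crv, hil])
    have hb : b (Fin.last g) ∈ (q U V hU hV).ker := by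
      refine hq1 U V hU hV hc l _ ?_
      rw [stab1_eq]
      exact mem_stN (by simp [crv])
    have := incl_retr_mem (q U V hU hV).ker ha hb (X m)
    rw [MonoidHom.mem_ker, map_mul, map_inv, inv_mul_eq_one] at this
    exact this
  · rw [eq_top_iff]
    intro w _
    have h1 : (⊤ : Subgroup (FG (g + 1))) ≤
        (closure (Set.range fun m => retr g (X m)) ⊔ (N i ⊔ N j)).comap (retr g) := by
      rw [← hX]
      refine sup_le ?_ (sup_le ?_ ?_)
      · rw [closure_le]
        rintro v (⟨m, rfl⟩ | hv)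
        · exact mem_sup_left (subset_closure ⟨m, rfl⟩)
        · rw [Set.mem_singleton_iff.1 hv]
          simp
      · intro v hv
        have h2 : stab1 l N i ≤ (N i).comap (retr g) := by
          rw [stab1_eq]
          apply stN_le
          · intro u hu
            simpa using hu
          · rintro u rfl
            rw [mem_comap, crv_eq, retr_of_last]
            exact one_mem _
        exact mem_sup_right (mem_sup_left (h2 hv))
      · intro v hv
        have h2 : stab1 l N j ≤ (N j).comap (retr g) := by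
          rw [stab1_eq]
          apply stN_le
          · intro u hu
            simpa using hu
          · rintro u rfl
            rw [mem_comap, crv_eq, retr_of_last]
            exact one_mem _
        exact mem_sup_right (mem_sup_right (h2 hv))
    have := h1 (mem_top (incl g w))
    rwa [mem_comap, retr_incl] at this

/-- Irreducibility data persist under the stabilisations that do not change the sector. -/
theorem Irr.stab1 {g : ℕ} {N : Fin 3 → Subgroup (FG g)} {i j l : Fin 3}
    (h : Irr N i j) (hij : i ≠ j) (hl : l = i ∨ l = j) : Irr (stab1 l N) i j := by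
  obtain ⟨q, X, hq1, hq2, hX⟩ := h
  refine ⟨fun U V hU hV => (q U V hU hV).comp (retr g), fun m => incl g (X m), ?_, ?_, ?_⟩
  · intro U V hU hV hc m
    have h1 : Pool.Agent.Pfc0641.stab1 l N m ≤ ((q U V hU hV).comp (retr g)).ker := by
      rw [stab1_eq]
      apply stN_le
      · intro w hw
        rw [MonoidHom.mem_ker, MonoidHom.comp_apply, retr_incl]
        exact hq1 U V hU hV hc m w hw
      · rintro w rfl
        rw [MonoidHom.mem_ker, MonoidHom.comp_apply, crv_eq, retr_of_last, map_one]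
    exact fun w hw => h1 hw
  · intro U V hU hV hc m
    rw [MonoidHom.comp_apply, retr_incl]
    exact hq2 U V hU hV hc m
  · rw [eq_top_iff, ← FreeGroup.closure_range_of, closure_le]
    have ha : a (Fin.last g) ∈ Pool.Agent.Pfc0641.stab1 l N i ⊔
        Pool.Agent.Pfc0641.stab1 l N j := by
      rw [stab1_eq, stab1_eq]
      rcases hl with rfl | rfl
      · exact mem_sup_right (mem_stN (by simp [crv, hij.symm]))
      · exact mem_sup_left (mem_stN (by simp [crv, hij]))
    have hb : b (Fin.last g) ∈ Pool.Agent.Pfc0641.stab1 l N i ⊔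
        Pool.Agent.Pfc0641.stab1 l N j := by
      rw [stab1_eq, stab1_eq]
      rcases hl with rfl | rfl
      · exact mem_sup_left (mem_stN (by simp [crv]))
      · exact mem_sup_right (mem_stN (by simp [crv]))
    rintro _ ⟨⟨n, β⟩, rfl⟩
    refine Fin.lastCases ?_ (fun n => ?_) n
    · cases β
      · exact mem_sup_right ha
      · exact mem_sup_right hb
    · have h1 : (⊤ : Subgroup (FG g)) ≤
          (closure (Set.range fun m => incl g (X m)) ⊔
            (Pool.Agent.Pfc0641.stab1 l N i ⊔ Pool.Agent.Pfc0641.stab1 l N j)).comap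
              (incl g) := by
        rw [← hX]
        refine sup_le ?_ (sup_le ?_ ?_)
        · rw [closure_le]
          rintro _ ⟨m, rfl⟩
          exact mem_sup_left (subset_closure ⟨m, rfl⟩)
        · intro w hw
          refine mem_sup_right (mem_sup_left ?_)
          rw [stab1_eq]
          exact incl_mem_stN hw
        · intro w hw
          refine mem_sup_right (mem_sup_right ?_)
          rw [stab1_eq]
          exact incl_mem_stN hw
      have := h1 (mem_top (FreeGroup.of (n, β)))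
      rwa [mem_comap, incl_of] at this

/-- **Assembly.** -/
theorem assembly {M : Fin 3 → Subgroup (FG 4)} {NB : Fin 3 → Subgroup (FG 6)}
    (hM : IsTri 4 2 M) (hiso : SIso (stab1 1 (stab1 1 M)) NB)
    (hcrv : ∀ i, crv 5 1 i ∈ NB i)
    (q : ∀ U V : ℝ, 0 < U → 0 < V → (FG 6 →* Equiv.Perm ℝ)) (X : Fin 3 → FG 6)
    (hq1 : ∀ U V hU hV, 2 * (U - 2) ^ 2 + 2 * (V - 1) ^ 2 = 1 → ∀ m,
      ∀ w ∈ NB m, q U V hU hV w = 1)
    (hq2 : ∀ U V hU hV, 2 * (U - 2) ^ 2 + 2 * (V - 1) ^ 2 = 1 → ∀ m,
      q U V hU hV (X m) = rho U V hU hV (FreeGroup.of m))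
    (hX : closure (Set.range X ∪ {b 5}) ⊔ (NB 0 ⊔ NB 2) = ⊤) :
    ∃ N : Fin 3 → Subgroup (FG 7), IsTri 7 3 N ∧ SIso (stab N) (stab (stab M)) ∧
      ∀ N0 : Fin 3 → Subgroup (FG 4), IsTri 4 2 N0 → ¬ WIso N (stab N0) := by
  have h6 : IsTriU 6 _ NB := ((IsTriU.stab1 hM 1).stab1 1).of_SIso hiso
  obtain ⟨h5, hNB, -⟩ := split1 (g := 5) h6 1 hcrv
  set T : Fin 3 → Subgroup (FG 5) := fun i => (NB i).comap (incl 5) with hT
  have h7 := (h5.stab1 0).stab1 2
  have hk : (fun _ => 3 : Fin 3 → ℕ) = (Function.update (Function.update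
      (Function.update (Function.update (Function.update (fun _ => 2) 1 (2 + 1)) 1
        (Function.update (fun _ => 2) 1 (2 + 1) 1 + 1)) 1
        (Function.update (Function.update (fun _ => 2) 1 (2 + 1)) 1
        (Function.update (fun _ => 2) 1 (2 + 1) 1 + 1) 1 - 1)) 0
        ((Function.update (Function.update (Function.update (fun _ => 2) 1 (2 + 1)) 1
        (Function.update (fun _ => 2) 1 (2 + 1) 1 + 1)) 1
        (Function.update (Function.update (fun _ => 2) 1 (2 + 1)) 1
        (Function.update (fun _ => 2) 1 (2 + 1) 1 + 1) 1 - 1)) 0 + 1)) 2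
        ((Function.update
      (Function.update (Function.update (Function.update (fun _ => 2) 1 (2 + 1)) 1
        (Function.update (fun _ => 2) 1 (2 + 1) 1 + 1)) 1
        (Function.update (Function.update (fun _ => 2) 1 (2 + 1)) 1
        (Function.update (fun _ => 2) 1 (2 + 1) 1 + 1) 1 - 1)) 0
        ((Function.update (Function.update (Function.update (fun _ => 2) 1 (2 + 1)) 1
        (Function.update (fun _ => 2) 1 (2 + 1) 1 + 1)) 1
        (Function.update (Function.update (fun _ => 2) 1 (2 + 1)) 1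
        (Function.update (fun _ => 2) 1 (2 + 1) 1 + 1) 1 - 1)) 0 + 1)) 2 + 1)) := by
    funext i
    fin_cases i <;> simp [Function.update]
  have h7' : IsTri 7 3 (stab1 2 (stab1 0 T)) := by
    unfold IsTri
    rw [hk]
    exact h7
  have hirr : Irr T 0 2 := by
    refine irr_of_stab1 h5.normal (l := 1) (by decide) q X ?_ hq2 ?_
    · rw [← hNB]
      exact hq1
    · rw [← hNB]
      exact hX
  have hirr' : Irr (stab1 2 (stab1 0 T)) 0 2 :=
    (hirr.stab1 (by decide) (Or.inl rfl)).stab1 (by decide) (Or.inr rfl)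
  refine ⟨stab1 2 (stab1 0 T), h7', ?_, fun N0 hN0 => ?_⟩
  · -- `2 1 0 2 0 T ≅ 2 0 2 0 1 T = 2 0 2 0 NB ≅ 2 0 2 0 1 1 M ≅ 2 1 0 2 1 0 M`
    unfold stab
    have e1 : SIso (stab1 2 (stab1 1 (stab1 0 (stab1 2 (stab1 0 T)))))
        (stab1 2 (stab1 0 (stab1 2 (stab1 0 (stab1 1 T))))) := by
      apply SIso.stab1
      refine (stab1_comm 1 0 _).trans (SIso.stab1 ?_ 0)
      refine (stab1_comm 1 2 _).trans (SIso.stab1 ?_ 2)
      exact stab1_comm 1 0 _
    have e2 : SIso (stab1 2 (stab1 0 (stab1 2 (stab1 0 (stab1 1 T)))))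
        (stab1 2 (stab1 0 (stab1 2 (stab1 0 (stab1 1 (stab1 1 M)))))) := by
      rw [← hNB]
      exact (((hiso.symm.stab1 0).stab1 2).stab1 0).stab1 2
    have e3 : SIso (stab1 2 (stab1 0 (stab1 2 (stab1 0 (stab1 1 (stab1 1 M))))))
        (stab1 2 (stab1 1 (stab1 0 (stab1 2 (stab1 1 (stab1 0 M)))))) := by
      apply SIso.stab1
      refine SIso.trans (SIso.stab1 ?_ 0) (stab1_comm 0 1 _)
      refine SIso.trans (SIso.stab1 ?_ 2) (stab1_comm 2 1 _)
      refine (stab1_comm 0 1 _).trans (SIso.stab1 ?_ 1)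
      exact (stab1_comm 0 1 _)
    exact (e1.trans e2).trans e3
  · exact hirr'.not_wiso h7' (by decide) (by decide) (by decide) (l := 1) rfl hN0

end Pool.Agent.Pfc0641
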