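import Mathlib
import Pool.Agent.Lib.Pfc0641.Exam
import Pool.Agent.Lib.Pfc0641.Tables
import Pool.Agent.Lib.Pfc0641.NotStab

/-!
The affine representations on the genus 6 trisections, and the passage from the stable isomorphism
to the final theorem.
-/

namespace Pool.Agent.Pfc0641.W

variable {H : Type*} [Group H]

/-- the homomorphism killing all `a_i`, sending `b_0, b_1` to `t` and the long loops
`b_2⁻¹, b_3⁻¹, b_4⁻¹, b_5⁻¹` to `x 0, x 1, x 2, x 3` -/
def qt (t : H) (x : Fin 4 → H) : FG 6 →* H :=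
  lft fun n => [1, t, 1, t, 1, (x 0)⁻¹, 1, (x 1)⁻¹, 1, (x 2)⁻¹, 1, (x 3)⁻¹].getD n 1

lemma qt_gn (t : H) (x : Fin 4 → H) (n : ℕ) (hn : n < 12) :
    qt t x (gn 6 n) = [1, t, 1, t, 1, (x 0)⁻¹, 1, (x 1)⁻¹, 1, (x 2)⁻¹, 1, (x 3)⁻¹].getD n 1 :=
  lft_gn _ _ (by omega)

lemma qt_val (t : H) (x : Fin 4 → H) (u : List ℕ) :
    qt t x (val (gn 6) u) =
      val (fun n => [1, t, 1, t, 1, (x 0)⁻¹, 1, (x 1)⁻¹, 1, (x 2)⁻¹, 1, (x 3)⁻¹].getD n 1) u := by
  rw [map_val]
  congr 1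
  funext n
  by_cases hn : n < 12
  · exact qt_gn t x n hn
  · rw [gn_ge (by omega), map_one, List.getD_eq_default]
    simp
    omega

lemma qt_map {H' : Type*} [Group H'] (f : H →* H') (t : H) (x : Fin 4 → H) :
    f.comp (qt t x) = qt (f t) (fun j => f (x j)) := by
  refine hom_ext' fun n hn => ?_
  rw [MonoidHom.comp_apply, qt_gn _ _ _ (by omega), qt_gn _ _ _ (by omega)]
  interval_cases n <;> simp

/-- the pushes along the long loops -/
lemma qt_push (t : H) (x : Fin 4 → H) (j : Fin 4) :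
    (qt t x).comp (hom 6 (Tp.getD (2 * j.1) [])) = qt ((x j)⁻¹ * t) x := by
  refine hom_ext' fun n hn => ?_
  rw [MonoidHom.comp_apply, hom_gn _ _ hn, qt_val, qt_gn _ _ _ (by omega)]
  fin_cases j <;> interval_cases n <;> simp [Tp, val, lv]

/-- the foot pushes -/
lemma qt_foot (t : H) (x : Fin 4 → H) (j : Fin 4) :
    (qt t x).comp (hom 6 (TE.getD j.1 [])) =
      qt t (![![x 0, x 1, x 0 * x 2, x 3], ![x 0, x 1, x 1 * x 2, x 3],
        ![x 0, x 1, x 2, x 0 * x 3], ![x 0, x 1, x 2, x 1 * x 3]] j) := by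
  refine hom_ext' fun n hn => ?_
  rw [MonoidHom.comp_apply, hom_gn _ _ hn, qt_val, qt_gn _ _ _ (by omega)]
  fin_cases j <;> interval_cases n <;> simp [TE, val, lv]

lemma kills_of_comp {f : FG 6 →* H} {T : List (List ℕ)} (h : f.comp (hom 6 T) = f) :
    (hom 6 T).ker ≤ f.ker := by
  intro w hw
  rw [MonoidHom.mem_ker] at hw ⊢
  rw [← h, MonoidHom.comp_apply, hw, map_one]

lemma qt_kA (x : Fin 4 → H) : (hom 6 qA).ker ≤ (qt 1 x).ker := by
  apply kills_of_comp
  refine hom_ext' fun n hn => ?_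
  rw [MonoidHom.comp_apply, hom_gn _ _ hn, qt_val, qt_gn _ _ _ (by omega)]
  interval_cases n <;> simp [qA, val, lv]

lemma qt_kB (x : Fin 4 → H) : (hom 6 qB).ker ≤ (qt 1 x).ker := by
  apply kills_of_comp
  refine hom_ext' fun n hn => ?_
  rw [MonoidHom.comp_apply, hom_gn _ _ hn, qt_val, qt_gn _ _ _ (by omega)]
  interval_cases n <;> simp [qB, val, lv]

lemma qt_kC (x : Fin 4 → H) (h2 : x 2 = 1) (h3 : x 3 = 1) : (hom 6 qC).ker ≤ (qt 1 x).ker := by
  apply kills_of_comp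
  refine hom_ext' fun n hn => ?_
  rw [MonoidHom.comp_apply, hom_gn _ _ hn, qt_val, qt_gn _ _ _ (by omega)]
  interval_cases n <;> simp [qC, val, lv, h2, h3]

/-- the long loops -/
def longs : Fin 4 → FG 6 := ![(b 2)⁻¹, (b 3)⁻¹, (b 4)⁻¹, (b 5)⁻¹]

lemma qt_longs (t : H) (x : Fin 4 → H) (j : Fin 4) : qt t x (longs j) = x j := by
  have h := fun n hn => qt_gn t x n hn
  have e2 : (b 2 : FG 6) = gn 6 5 := rfl
  have e3 : (b 3 : FG 6) = gn 6 7 := rfl
  have e4 : (b 4 : FG 6) = gn 6 9 := rfl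
  have e5 : (b 5 : FG 6) = gn 6 11 := rfl
  fin_cases j <;> simp [longs, e2, e3, e4, e5, h]

/-- the retraction of `FG 6` with kernel `kA ⊔ kB` -/
def rAB : FG 6 →* FG 6 := qt 1 longs

lemma mk_table {K : Subgroup (FG 6)} [K.Normal] {T : List (List ℕ)}
    (hT : (hom 6 T).comp (hom 6 T) = hom 6 T) (hK : (hom 6 T).ker ≤ K) (n : ℕ) (hn : n < 12) :
    QuotientGroup.mk' K (gn 6 n) =
      val (fun m => QuotientGroup.mk' K (gn 6 m)) (T.getD n []) := by
  rw [← map_val, ← hom_gn (g := 6) _ _ (by omega)]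
  have h : (gn 6 n)⁻¹ * hom 6 T (gn 6 n) ∈ K := by
    apply hK
    rw [MonoidHom.mem_ker, map_mul, map_inv, ← MonoidHom.comp_apply, hT, inv_mul_cancel]
  exact QuotientGroup.eq.2 h

lemma qA_idem : (hom 6 qA).comp (hom 6 qA) = hom 6 qA := by
  rw [← hom_tc (by decide)]
  congr 1

lemma qB_idem : (hom 6 qB).comp (hom 6 qB) = hom 6 qB := by
  rw [← hom_tc (by decide)]
  congr 1

lemma rAB_mem {K : Subgroup (FG 6)} [K.Normal] (hA : (hom 6 qA).ker ≤ K)
    (hB : (hom 6 qB).ker ≤ K) (w : FG 6) : w⁻¹ * rAB w ∈ K := by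
  have key : (QuotientGroup.mk' K).comp rAB = QuotientGroup.mk' K := by
    refine hom_ext' fun n hn => ?_
    have h1 := fun n hn => mk_table qA_idem hA n hn
    have h2 := fun n hn => mk_table qB_idem hB n hn
    have a0 := h2 0 (by omega)
    have a1 := h1 0 (by omega)
    have b1 := h2 3 (by omega)
    have b0 := h1 1 (by omega)
    have c2 := h1 4 (by omega)
    have c3 := h1 6 (by omega)
    have c4 := h1 8 (by omega)
    have c5 := h1 10 (by omega)
    simp only [qA, qB, val, lv, List.getD_cons_zero, List.getD_cons_succ, List.map_nil,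
      List.map_cons, List.prod_nil, List.prod_cons, Nat.reduceMod, Nat.reduceDiv, Nat.reduceBEq,
      cond_true, cond_false, mul_one] at a0 a1 b1 b0 c2 c3 c4 c5
    rw [a0, eq_comm, inv_eq_one] at a1
    rw [a1, b1, mul_one] at b0
    rw [MonoidHom.comp_apply, rAB, qt_gn _ _ _ (by omega)]
    have e2 : (b 2 : FG 6) = gn 6 5 := rfl
    have e3 : (b 3 : FG 6) = gn 6 7 := rfl
    have e4 : (b 4 : FG 6) = gn 6 9 := rfl
    have e5 : (b 5 : FG 6) = gn 6 11 := rfl
    interval_cases n <;> simp [longs, e2, e3, e4, e5, a0, a1, b0, b1, c2, c3, c4, c5]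
  exact QuotientGroup.eq.1 (DFunLike.congr_fun key w).symm

/-- the values of the affine representations on the long loops -/
noncomputable def xs (U V : ℝ) (hU : 0 < U) (hV : 0 < V) : Fin 4 → Equiv.Perm ℝ :=
  ![rho U V hU hV (FreeGroup.of 0), afp V 1 hV, rho U V hU hV (FreeGroup.of 1),
    rho U V hU hV (FreeGroup.of 2)]

/-- **Glue.** -/
theorem glueNB {M : Fin 3 → Subgroup (FG 4)} (hM : IsTri 4 2 M) {Cm : Subgroup (FG 6)}
    (ψ : MulAut (FG 6)) (hψ : ψ (bdry 6) = bdry 6)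
    (hA : ψ (a 5) ∈ (hom 6 qA).ker) (hB : ψ (a 5) ∈ (hom 6 qB).ker) (hC : ψ (b 5) ∈ Cm)
    (hV : rAB (ψ (b 5)) = (longs 1)⁻¹ * vfun (longs 0) (longs 2) (longs 3))
    (hq : ∀ x : Fin 4 → Equiv.Perm ℝ, x 1 = vfun (x 0) (x 2) (x 3) →
      x 2 = w2fun (x 0) (x 1) → x 3 = w3fun (x 0) (x 1) → ∀ w ∈ Cm, qt 1 x w = 1)
    (hiso : SIso (stab1 1 (stab1 1 M)) ![(hom 6 qA).ker, Cm, (hom 6 qB).ker]) :
    ∃ N : Fin 3 → Subgroup (FG 7), IsTri 7 3 N ∧ SIso (stab N) (stab (stab M)) ∧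
      ∀ N0 : Fin 3 → Subgroup (FG 4), IsTri 4 2 N0 → ¬ WIso N (stab N0) := by
  set NB : Fin 3 → Subgroup (FG 6) := fun i =>
    ((![(hom 6 qA).ker, Cm, (hom 6 qB).ker] : Fin 3 → Subgroup (FG 6)) i).comap ψ.toMonoidHom
    with hNB
  have hN0 : NB 0 = (hom 6 qA).ker.comap ψ.toMonoidHom := rfl
  have hN1 : NB 1 = Cm.comap ψ.toMonoidHom := rfl
  have hN2 : NB 2 = (hom 6 qB).ker.comap ψ.toMonoidHom := rfl
  have hiso2 : SIso NB ![(hom 6 qA).ker, Cm, (hom 6 qB).ker] := by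
    refine ⟨ψ, hψ, fun i => ?_⟩
    exact Subgroup.map_comap_eq_self_of_surjective (f := ψ.toMonoidHom) ψ.surjective _
  have hbd : (a 5 : FG 6) = a (Fin.last 5) := rfl
  have hbe : (b 5 : FG 6) = b (Fin.last 5) := rfl
  refine assembly hM (hiso.trans hiso2.symm) ?_
    (fun U V hU hV => (qt 1 (xs U V hU hV)).comp ψ.toMonoidHom)
    (fun m => ψ⁻¹ (longs (![0, 2, 3] m))) ?_ ?_ ?_
  · intro i
    fin_cases i
    · exact hA
    · exact hC
    · exact hB
  · intro U V hU hV hc m w hw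
    rw [MonoidHom.comp_apply]
    fin_cases m
    · exact qt_kA _ hw
    · refine hq _ ?_ ?_ ?_ _ hw
      · show afp V 1 hV = vfun (rho U V hU hV (FreeGroup.of 0)) (rho U V hU hV (FreeGroup.of 1))
          (rho U V hU hV (FreeGroup.of 2))
        rw [rho_of0, rho_of1, rho_of2, vfun_afp hU hV hc]
      · show rho U V hU hV (FreeGroup.of 1) = w2fun (rho U V hU hV (FreeGroup.of 0)) (afp V 1 hV)
        rw [rho_of0, rho_of1, w2fun_afp]
      · show rho U V hU hV (FreeGroup.of 2) = w3fun (rho U V hU hV (FreeGroup.of 0)) (afp V 1 hV)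
        rw [rho_of0, rho_of2, w3fun_afp]
    · exact qt_kB _ hw
  · intro U V hU hV hc m
    have h1 : (qt 1 (xs U V hU hV)).comp ψ.toMonoidHom (ψ⁻¹ (longs (![0, 2, 3] m))) =
        qt 1 (xs U V hU hV) (longs (![0, 2, 3] m)) := by
      rw [MonoidHom.comp_apply]
      congr 1
      exact MulAut.apply_inv_self _ ψ _
    rw [h1, qt_longs]
    fin_cases m <;> rfl
  · set K := Subgroup.closure (Set.range (fun m => ψ⁻¹ (longs ((![0, 2, 3] : Fin 3 → Fin 4) m))) ∪
      {(b 5 : FG 6)}) ⊔ (NB 0 ⊔ NB 2) with hK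
    have hcl : ∀ w ∈ Set.range (fun m => ψ⁻¹ (longs ((![0, 2, 3] : Fin 3 → Fin 4) m))) ∪
      {(b 5 : FG 6)}, w ∈ K := fun w hw => Subgroup.mem_sup_left (Subgroup.subset_closure hw)
    set K' : Subgroup (FG 6) := K.comap (ψ⁻¹).toMonoidHom with hK'
    have hmem : ∀ w, w ∈ K' ↔ ψ⁻¹ w ∈ K := fun w => Iff.rfl
    have hsup : NB 0 ⊔ NB 2 ≤ K := le_sup_right
    have hsup' : (hom 6 qA).ker ⊔ (hom 6 qB).ker ≤ K' := by
      refine sup_le ?_ ?_
      · intro w hw
        rw [hmem]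
        refine hsup (Subgroup.mem_sup_left ?_)
        rw [hN0, Subgroup.mem_comap]
        convert hw
        exact MulAut.apply_inv_self _ ψ _
      · intro w hw
        rw [hmem]
        refine hsup (Subgroup.mem_sup_right ?_)
        rw [hN2, Subgroup.mem_comap]
        convert hw
        exact MulAut.apply_inv_self _ ψ _
    have hr : ∀ w, rAB w ∈ K' ↔ w ∈ K' := by
      intro w
      have h1 : w⁻¹ * rAB w ∈ K' := hsup' (rAB_mem le_sup_left le_sup_right w)
      constructor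
      · intro h2
        have h3 := K'.mul_mem h2 (K'.inv_mem h1)
        simpa using h3
      · intro h2
        have h3 := K'.mul_mem h2 h1
        simpa using h3
    have l0 : longs 0 ∈ K' := (hmem _).2 (hcl _ (Or.inl ⟨0, rfl⟩))
    have l2 : longs 2 ∈ K' := (hmem _).2 (hcl _ (Or.inl ⟨1, rfl⟩))
    have l3 : longs 3 ∈ K' := (hmem _).2 (hcl _ (Or.inl ⟨2, rfl⟩))
    have l5 : ψ (b 5) ∈ K' := by
      rw [hmem, MulAut.inv_apply_self]
      exact hcl _ (Or.inr rfl)
    have hcmt : ∀ x y, x ∈ K' → y ∈ K' → cmt x y ∈ K' := fun x y hx hy =>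
      K'.mul_mem (K'.mul_mem (K'.mul_mem hx hy) (K'.inv_mem hx)) (K'.inv_mem hy)
    have lv : vfun (longs 0) (longs 2) (longs 3) ∈ K' := by
      have c1 := hcmt _ _ l2 l3
      have c2 := hcmt _ _ l0 l2
      unfold vfun
      exact K'.mul_mem (K'.mul_mem (K'.mul_mem (K'.mul_mem c1 c1)
        (K'.mul_mem (K'.mul_mem (K'.mul_mem c2 c2) c2) c2))
        (K'.mul_mem (K'.mul_mem (K'.mul_mem l0 (K'.inv_mem c2)) (K'.inv_mem c2))
          (K'.inv_mem l0))) l2
    have l1 : longs 1 ∈ K' := by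
      have h1 := (hr _).2 l5
      rw [hV] at h1
      have h2 := K'.mul_mem lv (K'.inv_mem h1)
      simpa using h2
    have hall : ∀ j, longs j ∈ K' := by
      intro j
      fin_cases j
      · exact l0
      · exact l1
      · exact l2
      · exact l3
    have hrange : ∀ w, rAB w ∈ K' := by
      intro w
      have : rAB.range ≤ K' := by
        rw [MonoidHom.range_eq_map, ← FreeGroup.closure_range_of, MonoidHom.map_closure,
          Subgroup.closure_le]
        rintro _ ⟨_, ⟨z, rfl⟩, rfl⟩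
        rw [← gn_num, rAB, qt_gn _ _ _ (num_lt z)]
        have := num_lt z
        generalize num z = n at this
        interval_cases n <;> simp [hall]
      exact this ⟨w, rfl⟩
    rw [eq_top_iff]
    intro w _
    have h1 : ψ w ∈ K' := (hr _).1 (hrange _)
    rwa [hmem, MulAut.inv_apply_self] at h1

end Pool.Agent.Pfc0641.W
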