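import Mathlib
import Pool.Agent.Lib.Pfc0641.Dual

/-!
# The isomorphism of the two group trisections of genus 6, and the dual pair
-/

namespace Pool.Agent.Pfc0641.W

/-- retraction onto the free group on the long letters `x_1, y, x_2, x_3`; its kernel is
`kA ⊔ kB` -/
def r4 : FG 6 →* FreeGroup (Fin 4) := lft fun n =>
  if n = 5 then (FreeGroup.of 0)⁻¹ else if n = 7 then (FreeGroup.of 1)⁻¹
  else if n = 9 then (FreeGroup.of 2)⁻¹ else if n = 11 then (FreeGroup.of 3)⁻¹ else 1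

/-- the element `c` -/
def cc : FG 6 := val (gn 6) [5, 2]

/-- pairs consisting of an automorphism of `FG 6` and the automorphism of the group on the long
letters induced by it, compatible with the push homomorphism -/
def TT : Subgroup (MulAut (FG 6) × MulAut (FreeGroup (Fin 4))) where
  carrier := {p | (p.1 ∈ SAB ∧ p.1 ∈ stb (hom 6 qe).ker ⊓ stb (hom 6 iC).range ∧
    p.1 ∈ fixS cc) ∧ (∀ x, r4 (p.1 x) = p.2 (r4 x)) ∧
    ∀ z, ∃ s ∈ SAB, ∃ t ∈ GR, pia (p.2 z) = s * (p.1 * pia z * p.1⁻¹) * t}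
  one_mem' := ⟨⟨one_mem _, one_mem _, one_mem _⟩, fun _ => rfl, fun z =>
    ⟨1, one_mem _, 1, one_mem _, by simp⟩⟩
  mul_mem' := by
    rintro ⟨f, f'⟩ ⟨g, g'⟩ ⟨⟨h1, h2, h3⟩, h4, h5⟩ ⟨⟨k1, k2, k3⟩, k4, k5⟩
    refine ⟨⟨mul_mem h1 k1, mul_mem h2 k2, mul_mem h3 k3⟩, fun x => ?_, fun z => ?_⟩
    · show r4 (f (g x)) = f' (g' (r4 x))
      rw [h4, k4]
    · obtain ⟨s, hs, t, ht, e⟩ := h5 (g' z)
      obtain ⟨s', hs', t', ht', e'⟩ := k5 z
      simp only at e e' h1 h2 k1 k2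
      refine ⟨s * (f * s' * f⁻¹), mul_mem hs (mul_mem (mul_mem h1 hs') (inv_mem h1)),
        (f * t' * f⁻¹) * t, mul_mem (conj_GR (Subgroup.mem_inf.1 h2).1
          (Subgroup.mem_inf.1 h2).2 ht') ht, ?_⟩
      show pia (f' (g' z)) = s * (f * s' * f⁻¹) * ((f * g) * pia z * (f * g)⁻¹) *
        ((f * t' * f⁻¹) * t)
      rw [e, e']
      group
  inv_mem' := by
    rintro ⟨f, f'⟩ ⟨⟨h1, h2, h3⟩, h4, h5⟩
    refine ⟨⟨inv_mem h1, inv_mem h2, inv_mem h3⟩, fun x => ?_, fun z => ?_⟩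
    · show r4 (f⁻¹ x) = f'⁻¹ (r4 x)
      have := h4 (f⁻¹ x)
      simp only [MulAut.apply_inv_self] at this
      rw [this, MulAut.inv_apply_self]
    · obtain ⟨s, hs, t, ht, e⟩ := h5 (f'⁻¹ z)
      simp only [MulAut.apply_inv_self] at e h1 h2
      have h2' := inv_mem h2
      refine ⟨f⁻¹ * s⁻¹ * f⁻¹⁻¹, mul_mem (mul_mem (inv_mem h1) (inv_mem hs))
        (inv_mem (inv_mem h1)), f⁻¹ * t⁻¹ * f⁻¹⁻¹, conj_GR (Subgroup.mem_inf.1 h2').1
          (Subgroup.mem_inf.1 h2').2 (inv_mem ht), ?_⟩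
      show pia (f'⁻¹ z) = _ * (f⁻¹ * pia z * f⁻¹⁻¹) * _
      have e2 : pia (f'⁻¹ z) = f⁻¹ * (s⁻¹ * pia z * t⁻¹) * f := by
        rw [e]; group
      rw [e2]
      group

lemma E_cc (i : Fin 4) : E i ∈ fixS cc := by
  have h : ∀ i : Fin 4, sub (tb TE i) [5, 2] = [5, 2] := by decide +kernel
  show hom 6 (tb TE i) (val (gn 6) [5, 2]) = val (gn 6) [5, 2]
  rw [hom_val (E_len i), h]

lemma r4_E (i : Fin 4) (x : FG 6) : r4 (E i x) = sbh (eu i).1 (eu i).2 (r4 x) := by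
  have h : r4.comp (hom 6 (tb TE i)) = (sbh (eu i).1 (eu i).2).comp r4 := by
    refine hom_ext' fun n hn => ?_
    have h1 : ∀ i : Fin 4, ∀ n : Fin 12, r4 (val (gn 6) ((tb TE i).getD n [])) =
        sbh (eu i).1 (eu i).2 (r4 (gn 6 n)) := by
      decide +kernel
    rw [MonoidHom.comp_apply, MonoidHom.comp_apply, hom_gn _ _ hn]
    exact h1 i ⟨n, hn⟩
  exact DFunLike.congr_fun h x

lemma E_TT (i : Fin 4) : (E i, sb (eu i).1 (eu i).2) ∈ TT := by
  refine ⟨⟨E_mem i, E_mem' i, E_cc i⟩, fun x => r4_E i x, fun z => ?_⟩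
  obtain ⟨s, hs, t, ht, e⟩ := all_good (ep i z)
  rw [pa_ep, ← E_conj] at e
  refine ⟨s⁻¹, inv_mem (GQ_le hs), t⁻¹, inv_mem ht, ?_⟩
  show pia (sb _ _ z) = s⁻¹ * (E i * pia z * (E i)⁻¹) * t⁻¹
  rw [e]
  group

/-- the automorphism induced on the surface by the substitution `x_2 ↦ u x_2`, `x_3 ↦ u' x_3` -/
theorem exists_Th (u u' : FreeGroup (Fin 2)) : ∃ Th, (Th, sb u u') ∈ TT := by
  have h1 : ∀ u, ∃ Th, (Th, sb u 1) ∈ TT := by
    intro u
    refine fg_left_ind (C := fun u => ∃ Th, (Th, sb u 1) ∈ TT) ?_ ?_ ?_ u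
    · exact ⟨1, by rw [sb_one]; exact one_mem _⟩
    · rintro i z ⟨Th, h⟩
      have h0 : (i = 0 ∨ i = 1) := by omega
      rcases h0 with rfl | rfl
      · refine ⟨Th * E 0, ?_⟩
        have := mul_mem h (E_TT 0)
        rwa [Prod.mk_mul_mk, sb_mul, show (eu 0).1 = FreeGroup.of 0 from rfl,
          show (eu 0).2 = 1 from rfl, one_mul] at this
      · refine ⟨Th * E 1, ?_⟩
        have := mul_mem h (E_TT 1)
        rwa [Prod.mk_mul_mk, sb_mul, show (eu 1).1 = FreeGroup.of 1 from rfl,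
          show (eu 1).2 = 1 from rfl, one_mul] at this
    · rintro i z ⟨Th, h⟩
      have h0 : (i = 0 ∨ i = 1) := by omega
      rcases h0 with rfl | rfl
      · refine ⟨Th * (E 0)⁻¹, ?_⟩
        have := mul_mem h (inv_mem (E_TT 0))
        rwa [Prod.inv_mk, Prod.mk_mul_mk, sb_inv, sb_mul, show (eu 0).1 = FreeGroup.of 0 from rfl,
          show (eu 0).2 = 1 from rfl, inv_one, one_mul] at this
      · refine ⟨Th * (E 1)⁻¹, ?_⟩
        have := mul_mem h (inv_mem (E_TT 1))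
        rwa [Prod.inv_mk, Prod.mk_mul_mk, sb_inv, sb_mul, show (eu 1).1 = FreeGroup.of 1 from rfl,
          show (eu 1).2 = 1 from rfl, inv_one, one_mul] at this
  have h2 : ∀ u', ∃ Th, (Th, sb 1 u') ∈ TT := by
    intro u
    refine fg_left_ind (C := fun u => ∃ Th, (Th, sb 1 u) ∈ TT) ?_ ?_ ?_ u
    · exact ⟨1, by rw [sb_one]; exact one_mem _⟩
    · rintro i z ⟨Th, h⟩
      have h0 : (i = 0 ∨ i = 1) := by omega
      rcases h0 with rfl | rfl
      · refine ⟨Th * E 2, ?_⟩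
        have := mul_mem h (E_TT 2)
        rwa [Prod.mk_mul_mk, sb_mul, show (eu 2).2 = FreeGroup.of 0 from rfl,
          show (eu 2).1 = 1 from rfl, one_mul] at this
      · refine ⟨Th * E 3, ?_⟩
        have := mul_mem h (E_TT 3)
        rwa [Prod.mk_mul_mk, sb_mul, show (eu 3).2 = FreeGroup.of 1 from rfl,
          show (eu 3).1 = 1 from rfl, one_mul] at this
    · rintro i z ⟨Th, h⟩
      have h0 : (i = 0 ∨ i = 1) := by omega
      rcases h0 with rfl | rfl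
      · refine ⟨Th * (E 2)⁻¹, ?_⟩
        have := mul_mem h (inv_mem (E_TT 2))
        rwa [Prod.inv_mk, Prod.mk_mul_mk, sb_inv, sb_mul, show (eu 2).2 = FreeGroup.of 0 from rfl,
          show (eu 2).1 = 1 from rfl, inv_one, one_mul] at this
      · refine ⟨Th * (E 3)⁻¹, ?_⟩
        have := mul_mem h (inv_mem (E_TT 3))
        rwa [Prod.inv_mk, Prod.mk_mul_mk, sb_inv, sb_mul, show (eu 3).2 = FreeGroup.of 1 from rfl,
          show (eu 3).1 = 1 from rfl, inv_one, one_mul] at this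
  obtain ⟨T1, k1⟩ := h1 u
  obtain ⟨T2, k2⟩ := h2 u'
  refine ⟨T1 * T2, ?_⟩
  have := mul_mem k1 k2
  rwa [Prod.mk_mul_mk, sb_mul, one_mul, mul_one] at this

/-- the substitution `x_2 ↦ w2`, `x_3 ↦ w3` -/
def sbst (w2 w3 : FreeGroup (Fin 2)) : FreeGroup (Fin 3) →* FreeGroup (Fin 2) :=
  FreeGroup.lift ![FreeGroup.of 0, w2, w3]

lemma pk_e2 (u : FreeGroup (Fin 2)) : pk (e2 u) = e2 u := by
  have h : pk.comp e2 = e2 := by
    apply FreeGroup.ext_hom
    intro x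
    fin_cases x <;> simp [pk, e2]
  exact DFunLike.congr_fun h u

lemma pk_sb (w2 w3 : FreeGroup (Fin 2)) (v : FreeGroup (Fin 3)) :
    pk (sb w2 w3 (e3 v * FreeGroup.of 1)) = e2 (sbst w2 w3 v * FreeGroup.of 1) := by
  have h2 : sbh w2 w3 (FreeGroup.of 2) = e2 w2 * FreeGroup.of 2 := by simp [sbh]
  have h3 : sbh w2 w3 (FreeGroup.of 3) = e2 w3 * FreeGroup.of 3 := by simp [sbh]
  have k2 : pk (FreeGroup.of 2) = 1 := by simp [pk]
  have k3 : pk (FreeGroup.of 3) = 1 := by simp [pk]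
  have h : (pk.comp (sbh w2 w3)).comp e3 = e2.comp (sbst w2 w3) := by
    apply FreeGroup.ext_hom
    intro x
    fin_cases x
    · simp [pk, sbh, e3, e2, sbst]
    · show pk (sbh w2 w3 (e3 (FreeGroup.of 1))) = e2 (sbst w2 w3 (FreeGroup.of 1))
      have e : e3 (FreeGroup.of 1) = FreeGroup.of 2 := by simp [e3]
      have e' : sbst w2 w3 (FreeGroup.of 1) = w2 := by simp [sbst]
      rw [e, e', h2, map_mul, pk_e2, k2, mul_one]
    · show pk (sbh w2 w3 (e3 (FreeGroup.of 2))) = e2 (sbst w2 w3 (FreeGroup.of 2))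
      have e : e3 (FreeGroup.of 2) = FreeGroup.of 3 := by simp [e3]
      have e' : sbst w2 w3 (FreeGroup.of 2) = w3 := by simp [sbst]
      rw [e, e', h3, map_mul, pk_e2, k3, mul_one]
  have h1 := DFunLike.congr_fun h v
  have h4 : pk (sbh w2 w3 (FreeGroup.of 1)) = e2 (FreeGroup.of 1) := by simp [pk, sbh, e2]
  rw [sb_apply, map_mul, map_mul, map_mul, h4]
  congr 1

/-- the middle handlebody kernel after the foot pushes -/
def Cmid (v : FreeGroup (Fin 3)) (Th : MulAut (FG 6)) : Subgroup (FG 6) :=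
  kC.map (pia (e3 v * FreeGroup.of 1) * Th⁻¹).toMonoidHom

/-- **(S1)** the isomorphism. -/
theorem exists_phi (v : FreeGroup (Fin 3)) (w2 w3 : FreeGroup (Fin 2)) {Th : MulAut (FG 6)}
    (hT : (Th, sb w2 w3) ∈ TT) : ∃ phi ∈ SAB,
    (kC.map (pia (e2 (sbst w2 w3 v * FreeGroup.of 1))).toMonoidHom).map phi.toMonoidHom =
      Cmid v Th := by
  obtain ⟨⟨h1, h2, -⟩, -, h3⟩ := hT
  obtain ⟨s, hs, t, ht, e⟩ := h3 (e3 v * FreeGroup.of 1)
  obtain ⟨t', ht', e'⟩ := pia_kill (sb w2 w3 (e3 v * FreeGroup.of 1))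
  rw [pk_sb] at e'
  simp only at e h1 h2
  rw [e'] at e
  set z1 := pia (e2 (sbst w2 w3 v * FreeGroup.of 1)) with hz1
  set z0 := pia (e3 v * FreeGroup.of 1) with hz0
  refine ⟨(s * Th)⁻¹, inv_mem (mul_mem hs h1), ?_⟩
  have e2 : (s * Th)⁻¹ * z1 = (z0 * Th⁻¹) * (t * t'⁻¹) := by
    have : z1 = s * (Th * z0 * Th⁻¹) * t * t'⁻¹ := by rw [← e]; group
    rw [this]
    group
  have hk : kC.map (t * t'⁻¹).toMonoidHom = kC :=
    map_eq_of_mem_stb (mul_mem (GR_le ht) (inv_mem ht'))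
  have h5 : (kC.map z1.toMonoidHom).map (s * Th)⁻¹.toMonoidHom =
      kC.map ((s * Th)⁻¹ * z1).toMonoidHom := by
    rw [Subgroup.map_map]
    rfl
  have h6 : kC.map ((z0 * Th⁻¹) * (t * t'⁻¹)).toMonoidHom =
      (kC.map (t * t'⁻¹).toMonoidHom).map (z0 * Th⁻¹).toMonoidHom := by
    rw [Subgroup.map_map]
    rfl
  rw [h5, e2, h6, hk]
  rfl

end Pool.Agent.Pfc0641.W
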