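import Mathlib
import Pool.Agent.Lib.Pfc0641.Main1
import Pool.Agent.Lib.Pfc0641.GlueNB

/-!
# The dual pair, and the values of the representations

The hypotheses of `glueNB` for `Cm = Cmid v Th` and `psi = pia (e3 v) * Nn * Uu`.
-/

namespace Pool.Agent.Pfc0641.W

/-- the automorphism moving the dual pair of the handle 3 to the last handle -/
def psi (v : FreeGroup (Fin 3)) : MulAut (FG 6) := pia (e3 v) * Nn * Uu

lemma pia_fixS (z : FreeGroup (Fin 4)) : pia z ∈ fixS (bdry 6) ⊓ stb kA := by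
  have h := pi_mem (ja z)
  simp only [GN, Subgroup.mem_inf] at h
  exact Subgroup.mem_inf.2 ⟨h.1.1.1.1.1, h.1.1.1.1.2⟩

lemma psi_bdry (v : FreeGroup (Fin 3)) : psi v (bdry 6) = bdry 6 := by
  have h1 : Uu ∈ fixS (bdry 6) := mem_fixS_of _ bdU
  have h2 : Nn ∈ fixS (bdry 6) := mem_fixS_of _ bdN
  exact mul_mem (mul_mem (Subgroup.mem_inf.1 (pia_fixS (e3 v))).1 h2) h1

/-- the word `H = [a_4, b_4] [a_5, b_5]` -/
def hw : List ℕ := [16, 18, 17, 19, 20, 22, 21, 23]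

/-- images of `a_5` and `b_5` under `Nn * Uu` -/
lemma NU_a5 : (Nn * Uu) (gn 6 10) =
    (val (gn 6) hw)⁻¹ * ((cc)⁻¹ * gn 6 6 * cc) * val (gn 6) hw := by
  have h : sub TN (TU.getD 10 []) = app (invw hw) (app [3, 4, 12, 5, 2] hw) := by
    decide +kernel
  show hom 6 TN (hom 6 TU (gn 6 10)) = _
  rw [hom_gn _ _ (by norm_num), hom_val (invt_len invN), h, val_app, val_app, val_invw, cc]
  simp only [val, lv, List.map, List.prod_cons, List.prod_nil]
  simp
  group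

lemma NU_b5 : (Nn * Uu) (gn 6 11) =
    (val (gn 6) hw)⁻¹ * (gn 6 7 * cc) * val (gn 6) hw := by
  have h : sub TN (TU.getD 11 []) = app (invw hw) (app [14, 5, 2] hw) := by
    decide +kernel
  show hom 6 TN (hom 6 TU (gn 6 11)) = _
  rw [hom_gn _ _ (by norm_num), hom_val (invt_len invN), h, val_app, val_app, val_invw, cc]
  simp only [val, lv, List.map, List.prod_cons, List.prod_nil]
  simp
  group

instance : kA.Normal := MonoidHom.normal_ker _
instance : kB.Normal := MonoidHom.normal_ker _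
instance : kC.Normal := MonoidHom.normal_ker _

lemma gn6_mem_kA : gn 6 6 ∈ kA := by
  show hom 6 qA (gn 6 6) = 1
  rw [hom_gn _ _ (by norm_num)]
  rfl

lemma gn6_mem_kB : gn 6 6 ∈ kB := by
  show hom 6 qB (gn 6 6) = 1
  rw [hom_gn _ _ (by norm_num)]
  rfl

lemma psi_apply (v : FreeGroup (Fin 3)) (w : FG 6) : psi v w = pia (e3 v) ((Nn * Uu) w) := rfl

lemma psi_a5_kA (v : FreeGroup (Fin 3)) : psi v (gn 6 10) ∈ kA := by
  rw [psi_apply, (Subgroup.mem_inf.1 (pia_fixS (e3 v))).2 _, NU_a5]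
  have h1 := (inferInstance : kA.Normal).conj_mem _ gn6_mem_kA cc⁻¹
  rw [inv_inv] at h1
  have h2 := (inferInstance : kA.Normal).conj_mem _ h1 (val (gn 6) hw)⁻¹
  rwa [inv_inv] at h2

/-- the automorphisms mapping `a_3` to a conjugate -/
def DD : Subgroup (MulAut (FG 6)) where
  carrier := {f | ∃ g, f (gn 6 6) = g * gn 6 6 * g⁻¹}
  one_mem' := ⟨1, by simp⟩
  mul_mem' := by
    rintro f g ⟨x, hx⟩ ⟨y, hy⟩
    refine ⟨f y * x, ?_⟩
    rw [MulAut.mul_apply, hy, map_mul, map_mul, hx, map_inv]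
    group
  inv_mem' := by
    rintro f ⟨x, hx⟩
    refine ⟨f⁻¹ x⁻¹, ?_⟩
    have h : gn 6 6 = x⁻¹ * f (gn 6 6) * x := by rw [hx]; group
    have h2 := congrArg (fun w => f⁻¹ w) h
    simp only [map_mul, MulAut.inv_apply_self] at h2
    rw [h2, map_inv, inv_inv]

lemma P_DD (i : Fin 4) (hi : i ≠ 1) : P (al i) ∈ DD := by
  have h : ∀ i : Fin 4, i ≠ 1 → (tb Tp (al i)).getD 6 [] =
      app (((tb Tp (al i)).getD 6 []).take (((tb Tp (al i)).getD 6 []).length / 2))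
        (app [12] (invw (((tb Tp (al i)).getD 6 []).take
          (((tb Tp (al i)).getD 6 []).length / 2)))) := by
    decide +kernel
  refine ⟨val (gn 6) (((tb Tp (al i)).getD 6 []).take
    (((tb Tp (al i)).getD 6 []).length / 2)), ?_⟩
  show hom 6 (tb Tp (al i)) (gn 6 6) = _
  rw [hom_gn _ _ (by norm_num)]
  conv_lhs => rw [h i hi]
  rw [val_app, val_app, val_invw, val_cons, val_nil, mul_one,
    show lv (gn 6) 12 = gn 6 6 from lv_even _ 6, mul_assoc]

lemma pia_DD (v : FreeGroup (Fin 3)) : pia (e3 v) ∈ DD := by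
  have h : ∀ i : Fin 3, pia (e3 (FreeGroup.of i)) ∈ DD := by
    intro i
    fin_cases i
    · show pia (e3 (FreeGroup.of 0)) ∈ DD
      rw [show e3 (FreeGroup.of 0) = FreeGroup.of 0 by simp [e3], pia_of]
      exact P_DD 0 (by decide)
    · show pia (e3 (FreeGroup.of 1)) ∈ DD
      rw [show e3 (FreeGroup.of 1) = FreeGroup.of 2 by simp [e3], pia_of]
      exact P_DD 2 (by decide)
    · show pia (e3 (FreeGroup.of 2)) ∈ DD
      rw [show e3 (FreeGroup.of 2) = FreeGroup.of 3 by simp [e3], pia_of]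
      exact P_DD 3 (by decide)
  refine FreeGroup.induction_on v ?_ ?_ ?_ ?_
  · rw [map_one, map_one]; exact one_mem _
  · exact h
  · intro i _; rw [map_inv, map_inv]; exact inv_mem (h i)
  · intro x y hx hy; rw [map_mul, map_mul]; exact mul_mem hx hy

lemma psi_a5_kB (v : FreeGroup (Fin 3)) : psi v (gn 6 10) ∈ kB := by
  obtain ⟨g, hg⟩ := pia_DD v
  rw [psi_apply, NU_a5]
  simp only [map_mul, map_inv]
  rw [hg]
  have h0 := (inferInstance : kB.Normal).conj_mem _ gn6_mem_kB g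
  have h1 := (inferInstance : kB.Normal).conj_mem _ h0 (pia (e3 v) cc)⁻¹
  rw [inv_inv] at h1
  have h2 := (inferInstance : kB.Normal).conj_mem _ h1 (pia (e3 v) (val (gn 6) hw))⁻¹
  rwa [inv_inv] at h2

lemma P2_cc : P 2 cc = gn 6 7 * cc := by
  have h : sub (tb Tp 2) [5, 2] = app [14] [5, 2] := by decide +kernel
  have hl : (tb Tp 2).length ≤ 2 * 6 := P_len 2
  show hom 6 (tb Tp 2) (val (gn 6) [5, 2]) = _
  rw [hom_val hl, h, val_app, val_cons, val_nil, mul_one,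
    show lv (gn 6) 14 = gn 6 7 from lv_even _ 7]
  rfl

lemma cc_mem_kC : cc ∈ kC := by
  have h : sub qC [5, 2] = [] := by decide +kernel
  show hom 6 qC (val (gn 6) [5, 2]) = 1
  rw [hom_val (by decide), h]
  rfl

lemma Cmid_normal (v : FreeGroup (Fin 3)) (Th : MulAut (FG 6)) : (Cmid v Th).Normal :=
  Subgroup.Normal.map (inferInstance : kC.Normal) _
    (pia (e3 v * FreeGroup.of 1) * Th⁻¹).surjective

lemma psi_b5_Cmid (v : FreeGroup (Fin 3)) {Th : MulAut (FG 6)} (hT : Th ∈ fixS cc) :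
    psi v (gn 6 11) ∈ Cmid v Th := by
  have := Cmid_normal v Th
  have h1 : pia (e3 v) (gn 6 7 * cc) ∈ Cmid v Th := by
    refine ⟨cc, cc_mem_kC, ?_⟩
    show pia (e3 v * FreeGroup.of 1) (Th⁻¹ cc) = _
    rw [show Th⁻¹ cc = cc from inv_mem hT, map_mul, MulAut.mul_apply, pia_of]
    show pia (e3 v) (P 2 cc) = _
    rw [P2_cc]
  rw [psi_apply, NU_b5]
  simp only [map_mul, map_inv] at h1 ⊢
  have h2 := this.conj_mem _ h1 (pia (e3 v) (val (gn 6) hw))⁻¹
  rwa [inv_inv] at h2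

/-! ## Values of the homomorphisms `qt` -/

section values

variable {H : Type*} [Group H]

lemma qt_P (t : H) (x : Fin 4 → H) (j : Fin 4) (w : FG 6) :
    qt t x (P (al j) w) = qt ((x j)⁻¹ * t) x w := by
  have h := DFunLike.congr_fun (qt_push t x j) w
  have e : tb Tp (al j) = Tp.getD (2 * j.1) [] := by
    fin_cases j <;> rfl
  rw [← h]
  show qt t x (hom 6 (tb Tp (al j)) w) = _
  rw [e]
  rfl

lemma qt_pia (z : FreeGroup (Fin 4)) (t : H) (x : Fin 4 → H) (w : FG 6) :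
    qt t x (pia z w) = qt ((FreeGroup.lift x z)⁻¹ * t) x w := by
  refine fg_left_ind (C := fun z => ∀ (t : H) (w : FG 6),
    qt t x (pia z w) = qt ((FreeGroup.lift x z)⁻¹ * t) x w) ?_ ?_ ?_ z t w
  · intro t w
    simp
  · intro i z hz t w
    rw [map_mul, MulAut.mul_apply, pia_of, qt_P, hz, map_mul, FreeGroup.lift_apply_of,
      mul_inv_rev, mul_assoc]
  · intro i z hz t w
    have h := qt_P (x i * t) x i (pia (FreeGroup.of i)⁻¹ (pia z w))
    rw [← mul_assoc, inv_mul_cancel, one_mul, ← pia_of, ← MulAut.mul_apply, ← map_mul,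
      mul_inv_cancel, map_one, MulAut.one_apply] at h
    rw [map_mul, MulAut.mul_apply, ← h, hz, map_mul, map_inv, FreeGroup.lift_apply_of,
      mul_inv_rev, inv_inv, mul_assoc]

lemma qt_cc (t : H) (x : Fin 4 → H) : qt t x cc = t := by
  rw [cc, qt_val]
  simp [val, lv]

lemma qt_hw (t : H) (x : Fin 4 → H) : qt t x (val (gn 6) hw) = 1 := by
  rw [qt_val]
  simp [hw, val, lv]

/-- the word `v` of the example, as an element of the free group -/
def vw : FreeGroup (Fin 3) := (vfun (FreeGroup.of 0) (FreeGroup.of 1) (FreeGroup.of 2))⁻¹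

lemma lift_e3_vw (x : Fin 4 → H) :
    FreeGroup.lift x (e3 vw) = (vfun (x 0) (x 2) (x 3))⁻¹ := by
  rw [vw, map_inv, map_inv, map_vfun, map_vfun]
  simp [e3]

lemma hV_main : rAB (psi vw (gn 6 11)) = (longs 1)⁻¹ * vfun (longs 0) (longs 2) (longs 3) := by
  rw [rAB, psi_apply, qt_pia, lift_e3_vw, inv_inv, mul_one, NU_b5]
  simp only [map_mul, map_inv]
  rw [qt_hw, qt_cc, qt_gn _ _ _ (by norm_num)]
  simp

/-- the words `w2`, `w3` of the example -/
def w2w : FreeGroup (Fin 2) := w2fun (FreeGroup.of 0) (FreeGroup.of 1)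
def w3w : FreeGroup (Fin 2) := w3fun (FreeGroup.of 0) (FreeGroup.of 1)

lemma qt_r4 (x : Fin 4 → H) (w : FG 6) : qt 1 x w = FreeGroup.lift x (r4 w) := by
  have h : qt 1 x = (FreeGroup.lift x).comp r4 := by
    refine hom_ext' fun n hn => ?_
    rw [MonoidHom.comp_apply, r4, lft_gn _ _ hn, qt_gn _ _ _ (by omega)]
    interval_cases n <;> simp
  rw [h]
  rfl

lemma mem_Cmid {v : FreeGroup (Fin 3)} {Th : MulAut (FG 6)} {w : FG 6} (h : w ∈ Cmid v Th) :
    ∃ y ∈ kC, pia (e3 v * FreeGroup.of 1) (Th⁻¹ y) = w := by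
  obtain ⟨y, hy, e⟩ := h
  exact ⟨y, hy, e⟩

lemma hq_main {Th : MulAut (FG 6)} (hT : (Th, sb w2w w3w) ∈ TT) (x : Fin 4 → H)
    (h1 : x 1 = vfun (x 0) (x 2) (x 3)) (h2 : x 2 = w2fun (x 0) (x 1))
    (h3 : x 3 = w3fun (x 0) (x 1)) : ∀ w ∈ Cmid vw Th, qt 1 x w = 1 := by
  intro w hw
  obtain ⟨y, hy, rfl⟩ := mem_Cmid hw
  rw [qt_pia, map_mul, lift_e3_vw, FreeGroup.lift_apply_of, ← h1, inv_mul_cancel, inv_one,
    mul_one, qt_r4]
  have h4 : r4 (Th⁻¹ y) = (sb w2w w3w)⁻¹ (r4 y) := (inv_mem hT).2.1 y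
  rw [h4, sb_inv, sb_apply]
  have h5 : (FreeGroup.lift x).comp (sbh w2w⁻¹ w3w⁻¹) =
      FreeGroup.lift ![x 0, x 1, 1, 1] := by
    have hw2 : FreeGroup.lift x (e2 w2w) = x 2 := by
      rw [w2w, map_w2fun, map_w2fun, h2]
      simp [e2]
    have hw3 : FreeGroup.lift x (e2 w3w) = x 3 := by
      rw [w3w, map_w3fun, map_w3fun, h3]
      simp [e2]
    apply FreeGroup.ext_hom
    intro i
    have s2 : sbh w2w⁻¹ w3w⁻¹ (FreeGroup.of 2) = e2 w2w⁻¹ * FreeGroup.of 2 := by simp [sbh]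
    have s3 : sbh w2w⁻¹ w3w⁻¹ (FreeGroup.of 3) = e2 w3w⁻¹ * FreeGroup.of 3 := by simp [sbh]
    fin_cases i
    · simp [sbh]
    · simp [sbh]
    · show FreeGroup.lift x (sbh w2w⁻¹ w3w⁻¹ (FreeGroup.of 2)) = _
      rw [s2, map_mul, map_inv, map_inv, hw2]
      simp
    · show FreeGroup.lift x (sbh w2w⁻¹ w3w⁻¹ (FreeGroup.of 3)) = _
      rw [s3, map_mul, map_inv, map_inv, hw3]
      simp
  have h6 := DFunLike.congr_fun h5 (r4 y)
  rw [MonoidHom.comp_apply] at h6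
  rw [h6, ← qt_r4]
  exact qt_kC _ rfl rfl hy

end values

end Pool.Agent.Pfc0641.W
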