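import Mathlib
import Pool.Agent.Lib.Pfc0641.Main2
import Pool.Agent.Lib.Pfc0641.GlueTri

/-!
# The final theorem
-/

namespace Pool.Agent.Pfc0641.W

lemma e2_eq (z : FreeGroup (Fin 2)) : FreeGroup.map (Fin.castAdd 2) z = e2 z := by
  have h : (FreeGroup.map (Fin.castAdd 2) : FreeGroup (Fin 2) →* FreeGroup (Fin (2 + 2))) = e2 := by
    apply FreeGroup.ext_hom
    intro i
    fin_cases i <;> simp [e2]
  exact DFunLike.congr_fun h z

lemma siso_main (v : FreeGroup (Fin 3)) (w2 w3 : FreeGroup (Fin 2)) {Th : MulAut (FG 6)}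
    (hT : (Th, sb w2 w3) ∈ TT) :
    SIso (tri (e2 (sbst w2 w3 v * FreeGroup.of 1)))
      ![(hom 6 qA).ker, Cmid v Th, (hom 6 qB).ker] := by
  obtain ⟨phi, hphi, e⟩ := exists_phi v w2 w3 hT
  simp only [SAB, Subgroup.mem_inf] at hphi
  refine ⟨phi, hphi.1.1, fun i => ?_⟩
  fin_cases i
  · exact map_eq_of_mem_stb hphi.1.2
  · exact e
  · exact map_eq_of_mem_stb hphi.2

theorem final : ∃ (N : Fin 3 → Subgroup (FG 7)) (M : Fin 3 → Subgroup (FG 4)),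
    IsTri 7 3 N ∧ IsTri 4 2 M ∧ SIso (stab N) (stab (stab M)) ∧
      ∀ N0 : Fin 3 → Subgroup (FG 4), IsTri 4 2 N0 → ¬ WIso N (stab N0) := by
  obtain ⟨M, hM, hst⟩ := small (sbst w2w w3w vw * FreeGroup.of 1)
  obtain ⟨Th, hT⟩ := exists_Th w2w w3w
  have hiso := siso_main vw w2w w3w hT
  rw [e2_eq] at hst
  rw [← hst] at hiso
  have hbd : (a 5 : FG 6) = gn 6 10 := rfl
  have hbe : (b 5 : FG 6) = gn 6 11 := rfl
  have h1 : psi vw (a 5) ∈ (hom 6 qA).ker := by rw [hbd]; exact psi_a5_kA vw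
  have h2 : psi vw (a 5) ∈ (hom 6 qB).ker := by rw [hbd]; exact psi_a5_kB vw
  have h3 : psi vw (b 5) ∈ Cmid vw Th := by rw [hbe]; exact psi_b5_Cmid vw hT.1.2.2
  have h4 : rAB (psi vw (b 5)) = (longs 1)⁻¹ * vfun (longs 0) (longs 2) (longs 3) := by
    rw [hbe]; exact hV_main
  have h5 : ∀ x : Fin 4 → Equiv.Perm ℝ, x 1 = vfun (x 0) (x 2) (x 3) →
      x 2 = w2fun (x 0) (x 1) → x 3 = w3fun (x 0) (x 1) → ∀ w ∈ Cmid vw Th, qt 1 x w = 1 := by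
    intro x e1 e2 e3
    exact hq_main hT x e1 e2 e3
  obtain ⟨N, hN1, hN2, hN3⟩ := glueNB hM (psi vw) (psi_bdry vw) h1 h2 h3 h4 h5 hiso
  exact ⟨N, M, hN1, hM, hN2, hN3⟩

end Pool.Agent.Pfc0641.W
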