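import Mathlib
import Pool.Agent.Lib.Pfc0641.Dual
import Pool.Agent.Lib.Pfc0641.GlueTri

/-!
The small trisection, in the notation of `Dual`.
-/

namespace Pool.Agent.Pfc0641.W

lemma e2_eq (u : FreeGroup (Fin 2)) : e2 u = FreeGroup.map (Fin.castAdd 2) u := by
  have h : e2 = FreeGroup.map (Fin.castAdd 2) := by
    apply FreeGroup.ext_hom
    intro x
    fin_cases x <;> simp [e2]
  rw [h]

theorem small2 (u : FreeGroup (Fin 2)) : ∃ M : Fin 3 → Subgroup (FG 4), IsTri 4 2 M ∧
    stab1 1 (stab1 1 M) = ![kA, kC.map (pia (e2 u)).toMonoidHom, kB] := by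
  rw [e2_eq]
  exact small u

end Pool.Agent.Pfc0641.W
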