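import Mathlib
import Pool.Agent.Lib.Pfc0641.NotStab

/-!
Weakly isomorphic balanced group trisections have the same type.
-/

namespace Pool.Agent.Pfc0641

open Subgroup

lemma WIso.symm {g : ℕ} {N N' : Fin 3 → Subgroup (FG g)} (h : WIso N N') : WIso N' N := by
  obtain ⟨ψ, σ, hσ⟩ := h
  refine ⟨ψ.symm, σ.symm, fun i => ?_⟩
  have h1 := hσ (σ.symm i)
  rw [Equiv.apply_symm_apply] at h1
  rw [← h1, Subgroup.map_map]
  convert Subgroup.map_id _
  ext x
  simp

lemma WIso.le_type {g k k' : ℕ} {N N' : Fin 3 → Subgroup (FG g)} (hN : IsTri g k N)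
    (hN' : IsTri g k' N') (h : WIso N N') : k' ≤ k := by
  obtain ⟨ψ, σ, hσ⟩ := h
  obtain ⟨f, hf, hk⟩ := hN.sector 0 1 2 (by decide) (by decide) (by decide)
  obtain ⟨f', hf', hk'⟩ := hN'.sector (σ 0) (σ 1) (σ 2)
    (fun e => absurd (σ.injective e) (by decide)) (fun e => absurd (σ.injective e) (by decide))
    (fun e => absurd (σ.injective e) (by decide))
  have hrel : relB g ≤ f'.ker := by
    unfold relB
    apply normalClosure_le_normal
    intro w hw
    rw [Set.mem_singleton_iff.1 hw, hk']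
    exact mem_sup_left (hN'.bdry_mem _)
  let fb : SG g →* FreeGroup (Fin k') := QuotientGroup.lift (relB g) f' hrel
  have hfb : ∀ w, fb (QuotientGroup.mk' (relB g) w) = f' w := fun w => rfl
  let F : FG g →* FreeGroup (Fin k') :=
    (fb.comp ψ.toMonoidHom).comp (QuotientGroup.mk' (relB g))
  have hF : ∀ w, F w = fb (ψ (QuotientGroup.mk' (relB g) w)) := fun w => rfl
  have hFs : Function.Surjective F := by
    intro z
    obtain ⟨w, rfl⟩ := hf' z
    obtain ⟨v, hv⟩ := ψ.surjective (QuotientGroup.mk' (relB g) w)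
    obtain ⟨u, rfl⟩ := QuotientGroup.mk'_surjective (relB g) v
    refine ⟨u, ?_⟩
    rw [hF, hv, hfb]
  have hmem : ∀ m, ∀ w ∈ N m, ∃ w' ∈ N' (σ m), F w = f' w' := by
    intro m w hw
    have h1 : ψ.toMonoidHom (QuotientGroup.mk' (relB g) w) ∈
        ((N m).map (QuotientGroup.mk' (relB g))).map ψ.toMonoidHom :=
      ⟨_, ⟨w, hw, rfl⟩, rfl⟩
    rw [hσ m] at h1
    obtain ⟨w', hw', he⟩ := h1
    refine ⟨w', hw', ?_⟩
    rw [hF, ← hfb]
    exact congrArg fb he.symm
  have hle : f.ker ≤ F.ker := by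
    rw [hk]
    apply sup_le
    · intro w hw
      obtain ⟨w', hw', he⟩ := hmem 0 w hw
      rw [MonoidHom.mem_ker, he, ← MonoidHom.mem_ker, hk']
      exact mem_sup_left hw'
    · intro w hw
      obtain ⟨w', hw', he⟩ := hmem 1 w hw
      rw [MonoidHom.mem_ker, he, ← MonoidHom.mem_ker, hk']
      exact mem_sup_right hw'
  exact rank_le_of_ker_le f F hf hFs hle

lemma WIso.type_eq {g k k' : ℕ} {N N' : Fin 3 → Subgroup (FG g)} (hN : IsTri g k N)
    (hN' : IsTri g k' N') (h : WIso N N') : k = k' :=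
  le_antisymm (h.symm.le_type hN' hN) (h.le_type hN hN')

/-- a stabilisation weakly isomorphic to a trisection of type `(g+3, k+1)` comes from type
`(g, k)` -/
lemma type_of_stab {g k k' : ℕ} {N : Fin 3 → Subgroup (FG (g + 3))}
    {N0 : Fin 3 → Subgroup (FG g)} (hN : IsTri (g + 3) (k + 1) N) (hN0 : IsTri g k' N0)
    (h : WIso N (stab N0)) : k' = k := by
  have := h.type_eq hN hN0.stab
  omega

end Pool.Agent.Pfc0641
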